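import Mathlib
import Pool.Agent.Helper6.PNT

/-!
# Partial summation over primes in classes
-/

set_option autoImplicit false

namespace Pool.Agent.Helper27.IS

open Finset Filter Real

lemma loglog_diff_le {n : ℕ} (hn : 2 ≤ n) :
    log (log ((n : ℝ) + 1)) - log (log n) ≤ 1 / (n * log n) := by
  have hn0 : (0:ℝ) < n := by exact_mod_cast (by omega : 0 < n)
  have hl : 0 < log (n : ℝ) := log_pos (by exact_mod_cast (by omega : 1 < n))
  have hl1 : 0 < log ((n : ℝ) + 1) := log_pos (by linarith)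
  rw [← log_div hl1.ne' hl.ne']
  have h1 : log (log ((n:ℝ) + 1) / log n) ≤ log ((n:ℝ) + 1) / log n - 1 :=
    log_le_sub_one_of_pos (by positivity)
  have h2 : log ((n:ℝ) + 1) - log n ≤ 1 / n := by
    rw [← log_div (by positivity) hn0.ne']
    have : ((n:ℝ) + 1) / n = 1 / n + 1 := by field_simp; ring
    rw [this]
    have := log_le_sub_one_of_pos (x := 1 / (n:ℝ) + 1) (by positivity)
    linarith
  have h3 : log ((n:ℝ) + 1) / log n - 1 = (log ((n:ℝ) + 1) - log n) / log n := by field_simp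
  rw [h3] at h1
  refine h1.trans ?_
  rw [div_le_div_iff₀ hl (by positivity)]
  calc (log ((n:ℝ) + 1) - log n) * (n * log n) ≤ (1 / n) * (n * log n) := by gcongr
    _ = 1 * log n := by field_simp

lemma loglog_diff_ge {n : ℕ} (hn : 3 ≤ n) :
    1 / (((n : ℝ) + 1) * log n) ≤ 2 * (log (log ((n : ℝ) + 1)) - log (log n)) := by
  have hn0 : (0:ℝ) < n := by exact_mod_cast (by omega : 0 < n)
  have hn3 : (3:ℝ) ≤ n := by exact_mod_cast hn
  have hl : 1 ≤ log (n : ℝ) := by
    rw [le_log_iff_exp_le hn0]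
    have := Real.exp_one_lt_d9
    linarith
  have hl0 : 0 < log (n : ℝ) := by linarith
  have hl1 : 0 < log ((n : ℝ) + 1) := log_pos (by linarith)
  rw [← log_div hl1.ne' hl0.ne']
  have h2 : 1 / ((n:ℝ) + 1) ≤ log ((n:ℝ) + 1) - log n := by
    rw [← log_div (by positivity) hn0.ne']
    have := one_sub_inv_le_log_of_pos (x := ((n:ℝ) + 1) / n) (by positivity)
    refine le_trans (le_of_eq ?_) this
    field_simp
    ring
  have h2' : log ((n:ℝ) + 1) - log n ≤ 1 := by
    rw [← log_div (by positivity) hn0.ne']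
    have := log_le_sub_one_of_pos (x := ((n:ℝ) + 1) / n) (by positivity)
    refine this.trans ?_
    rw [sub_le_iff_le_add, div_le_iff₀ hn0]
    linarith
  set d : ℝ := log ((n:ℝ) + 1) - log n with hd
  have hd0 : 0 < d := lt_of_lt_of_le (by positivity) h2
  have h4 : log ((n:ℝ) + 1) / log n = 1 + d / log n := by
    rw [hd]; field_simp; ring
  rw [h4]
  have h5 := one_sub_inv_le_log_of_pos (x := 1 + d / log n) (by positivity)
  have h6 : d / log n ≤ 1 := by
    rw [div_le_one hl0]; linarith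
  have h7 : d / log n / 2 ≤ 1 - (1 + d / log n)⁻¹ := by
    have : 1 - (1 + d / log n)⁻¹ = (d / log n) / (1 + d / log n) := by
      field_simp
      ring
    rw [this]
    apply div_le_div_of_nonneg_left (by positivity) (by positivity) (by linarith)
  have h8 : 1 / (((n : ℝ) + 1) * log n) ≤ d / log n := by
    rw [div_le_div_iff₀ (by positivity) hl0]
    have : 1 ≤ d * ((n:ℝ) + 1) := by
      rw [div_le_iff₀ (by positivity)] at h2
      exact h2
    nlinarith
  linarith

/-- Abel summation -/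
lemma abel (g : ℕ → ℝ) (h0 : g 0 = 0) (N : ℕ) :
    ∑ i ∈ range (N + 2), g i / i = (∑ i ∈ range (N + 2), g i) / (N + 1) +
      ∑ n ∈ range (N + 1), (∑ i ∈ range (n + 1), g i) / (n * (n + 1)) := by
  induction N with
  | zero => simp [sum_range_succ, h0]
  | succ N ih =>
    have e1 : ∑ n ∈ range (N + 1 + 1), (∑ i ∈ range (n + 1), g i) / ((n:ℝ) * (n + 1)) =
      ∑ n ∈ range (N + 1), (∑ i ∈ range (n + 1), g i) / ((n:ℝ) * (n + 1)) +
      (∑ i ∈ range (N + 1 + 1), g i) / (((N + 1 : ℕ) : ℝ) * (((N + 1 : ℕ) : ℝ) + 1)) := sum_range_succ _ _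
    have e2 : ∑ i ∈ range (N + 1 + 2), g i / (i:ℝ) = ∑ i ∈ range (N + 2), g i / (i:ℝ) +
      g (N + 2) / ((N + 2 : ℕ) : ℝ) := sum_range_succ _ _
    have e3 : ∑ i ∈ range (N + 1 + 2), g i = ∑ i ∈ range (N + 2), g i + g (N + 2) := sum_range_succ _ _
    rw [e1, e2, e3, ih]
    set A := ∑ i ∈ range (N + 2), g i with hA

    push_cast
    field_simp
    ring

theorem sum_lower (g : ℕ → ℝ) (hg : ∀ n, 0 ≤ g n) (h0 : g 0 = 0) (c : ℝ) (hc : 0 ≤ c)
    (h : ∀ᶠ n : ℕ in atTop, c * n / log n ≤ ∑ i ∈ range (n + 1), g i) :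
    ∃ C : ℝ, ∀ N : ℕ, 3 ≤ N → c * log (log N) - C ≤ ∑ i ∈ range (N + 1), g i / i := by
  obtain ⟨n0, hn0⟩ := eventually_atTop.1 h
  set n1 := max n0 3 with hn1
  have hsum : ∀ N : ℕ, n1 ≤ N → c * (log (log ((N:ℝ) + 1)) - log (log ((n1 : ℝ) + 1))) ≤
      ∑ n ∈ range N, (∑ i ∈ range (n + 1), g i) / (n * (n + 1)) := by
    intro N hN
    induction N, hN using Nat.le_induction with
    | base =>
      rw [sub_self, mul_zero]
      apply sum_nonneg
      intro n _
      exact div_nonneg (sum_nonneg fun i _ => hg i) (by positivity)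
    | succ N hN ih =>
      rw [sum_range_succ]
      have hN3 : 3 ≤ N := le_trans (le_max_right _ _) hN
      have hNn0 : n0 ≤ N := le_trans (le_max_left _ _) hN
      have hNr : (3:ℝ) ≤ N := by exact_mod_cast hN3
      have hlN : 0 < log (N:ℝ) := log_pos (by linarith)
      have hlN1 : log (N:ℝ) ≤ log ((N:ℝ) + 1) := log_le_log (by linarith) (by linarith)
      have h1 := hn0 N hNn0
      have h2 := loglog_diff_le (n := N + 1) (by omega)
      push_cast at h2
      have h3 : 1 / (((N:ℝ) + 1) * log ((N:ℝ) + 1)) ≤ 1 / (((N:ℝ) + 1) * log N) := by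
        apply one_div_le_one_div_of_le (by positivity)
        gcongr
      have h4 : c * (1 / (((N:ℝ) + 1) * log N)) ≤ (∑ i ∈ range (N + 1), g i) / (N * (N + 1)) := by
        have : c * (1 / (((N:ℝ) + 1) * log N)) = (c * N / log N) / (N * (N + 1)) := by
          field_simp
        rw [this]
        apply div_le_div_of_nonneg_right h1 (by positivity)
      push_cast
      nlinarith [mul_le_mul_of_nonneg_left (h2.trans h3) hc]
  refine ⟨c * |log (log ((n1 : ℝ) + 1))| + c * |log (log n1)| + 1, ?_⟩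
  intro N hN
  have hloglogN : ∀ M : ℕ, 3 ≤ M → 0 < log (M:ℝ) := fun M hM =>
    log_pos (by exact_mod_cast (by omega : 1 < M))
  have habs1 := le_abs_self (log (log ((n1 : ℝ) + 1)))
  have habs2 := le_abs_self (log (log (n1 : ℝ)))
  by_cases hNn : n1 + 1 ≤ N
  · obtain ⟨N', rfl⟩ : ∃ N', N = N' + 1 := ⟨N - 1, by omega⟩
    have h1 := abel g h0 N'
    have h2 := hsum (N' + 1) (by omega)
    rw [h1]
    have h3 : 0 ≤ (∑ i ∈ range (N' + 2), g i) / ((N':ℝ) + 1) :=
      div_nonneg (sum_nonneg fun i _ => hg i) (by positivity)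
    have h4 : log (log (((N' + 1 : ℕ)):ℝ)) ≤ log (log ((((N' + 1 : ℕ)):ℝ) + 1)) := by
      apply log_le_log (hloglogN _ hN)
      apply log_le_log (by positivity)
      linarith
    have h5 : c * log (log (((N' + 1 : ℕ)):ℝ)) ≤ c * log (log ((((N' + 1 : ℕ)):ℝ) + 1)) := by gcongr
    have h6 := mul_le_mul_of_nonneg_left habs1 hc
    have h7 : 0 ≤ c * |log (log (n1 : ℝ))| := by positivity
    nlinarith
  · have h1 : 0 ≤ ∑ i ∈ range (N + 1), g i / i :=
      sum_nonneg fun i _ => div_nonneg (hg i) (Nat.cast_nonneg _)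
    refine le_trans ?_ h1
    have hNle : N ≤ n1 := by omega
    have h2 : log (log (N:ℝ)) ≤ log (log (n1:ℝ)) := by
      apply log_le_log (hloglogN _ hN)
      apply log_le_log (by exact_mod_cast (by omega : 0 < N))
      exact_mod_cast hNle
    have h3 := mul_le_mul_of_nonneg_left (h2.trans habs2) hc
    have h4 : 0 ≤ c * |log (log ((n1 : ℝ) + 1))| := by positivity
    linarith

theorem sum_upper (g : ℕ → ℝ) (hg : ∀ n, 0 ≤ g n) (h0 : g 0 = 0) (c : ℝ) (hc : 0 ≤ c)
    (h : ∀ᶠ n : ℕ in atTop, ∑ i ∈ range (n + 1), g i ≤ c * n / log n) :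
    ∃ C : ℝ, 0 < C ∧ ∀ N : ℕ, 3 ≤ N → ∑ i ∈ range (N + 1), g i / i ≤ C * (log (log N) + 1) := by
  obtain ⟨n0, hn0⟩ := eventually_atTop.1 h
  set n1 := max n0 3 with hn1
  have hl1 : ∀ M : ℕ, 3 ≤ M → 1 ≤ log (M:ℝ) := by
    intro M hM
    rw [le_log_iff_exp_le (by exact_mod_cast (by omega : 0 < M))]
    have := Real.exp_one_lt_d9
    have h3 : (3:ℝ) ≤ M := by exact_mod_cast hM
    linarith
  have hll : ∀ M : ℕ, 3 ≤ M → 0 ≤ log (log (M:ℝ)) := fun M hM => log_nonneg (hl1 M hM)
  set S0 : ℝ := ∑ n ∈ range n1, (∑ i ∈ range (n + 1), g i) / (n * (n + 1)) with hS0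
  have hS0' : 0 ≤ S0 := sum_nonneg fun n _ => div_nonneg (sum_nonneg fun i _ => hg i) (by positivity)
  have hsum : ∀ N : ℕ, n1 ≤ N → ∑ n ∈ range N, (∑ i ∈ range (n + 1), g i) / (n * (n + 1)) ≤
      S0 + 2 * c * (log (log (N:ℝ)) - log (log (n1 : ℝ))) := by
    intro N hN
    induction N, hN using Nat.le_induction with
    | base => simp [hS0]
    | succ N hN ih =>
      rw [sum_range_succ]
      have hN3 : 3 ≤ N := le_trans (le_max_right _ _) hN
      have hNn0 : n0 ≤ N := le_trans (le_max_left _ _) hN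
      have hNr : (3:ℝ) ≤ N := by exact_mod_cast hN3
      have hlN : 0 < log (N:ℝ) := log_pos (by linarith)
      have h1 := hn0 N hNn0
      have h2 := loglog_diff_ge (n := N) hN3
      have h4 : (∑ i ∈ range (N + 1), g i) / (N * (N + 1)) ≤ c * (1 / (((N:ℝ) + 1) * log N)) := by
        have : c * (1 / (((N:ℝ) + 1) * log N)) = (c * N / log N) / (N * (N + 1)) := by
          field_simp
        rw [this]
        apply div_le_div_of_nonneg_right h1 (by positivity)
      push_cast
      nlinarith [mul_le_mul_of_nonneg_left h2 hc]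
  set T0 : ℝ := ∑ i ∈ range (n1 + 2), g i / i with hT0
  have hT0' : 0 ≤ T0 := sum_nonneg fun i _ => div_nonneg (hg i) (Nat.cast_nonneg _)
  refine ⟨S0 + T0 + 2 * c + 1, by positivity, ?_⟩
  intro N hN
  have hllN := hll N hN
  by_cases hNn : n1 + 1 ≤ N
  · obtain ⟨N', rfl⟩ : ∃ N', N = N' + 1 := ⟨N - 1, by omega⟩
    have h1 := abel g h0 N'
    have h2 := hsum (N' + 1) (by omega)
    rw [h1]
    have h3 : (∑ i ∈ range (N' + 2), g i) / ((N':ℝ) + 1) ≤ c := by
      have e1 := hn0 (N' + 1) (le_trans (le_max_left n0 3) (by omega))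
      have e2 := hl1 (N' + 1) hN
      push_cast at e1 e2
      rw [div_le_iff₀ (by positivity)]
      refine e1.trans ?_
      rw [div_le_iff₀ (by linarith)]
      have : 0 ≤ c * ((N':ℝ) + 1) := by positivity
      nlinarith
    have h5 := hll n1 (le_max_right _ _)
    have h6 : 2 * c * (log (log (((N' + 1 : ℕ)):ℝ)) - log (log (n1 : ℝ))) ≤
      2 * c * log (log (((N' + 1 : ℕ)):ℝ)) := by
      have : 0 ≤ 2 * c * log (log (n1 : ℝ)) := by positivity
      linarith
    have h7 : 0 ≤ (S0 + T0 + 1) * log (log (((N' + 1 : ℕ)):ℝ)) := by positivity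
    have e3 : (S0 + T0 + 2 * c + 1) * (log (log (((N' + 1 : ℕ)):ℝ)) + 1) =
      (S0 + T0 + 1) * log (log (((N' + 1 : ℕ)):ℝ)) + 2 * c * log (log (((N' + 1 : ℕ)):ℝ)) +
      (S0 + T0 + 2 * c + 1) := by ring
    rw [e3]
    linarith
  · have h1 : ∑ i ∈ range (N + 1), g i / i ≤ T0 := by
      apply sum_le_sum_of_subset_of_nonneg
      · apply range_mono
        omega
      · intro i _ _
        exact div_nonneg (hg i) (Nat.cast_nonneg _)
    refine h1.trans ?_
    have : 0 ≤ (S0 + T0 + 2 * c + 1) * log (log (N:ℝ)) := by positivity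
    nlinarith

end Pool.Agent.Helper27.IS
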