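import Mathlib

/-!
# Averages of Jacobi symbols over reduced residue classes
-/

set_option autoImplicit false

namespace Pool.Agent.Helper27.IS

open Finset
open scoped NumberTheorySymbols

/-- A non-square is a non-residue for some odd modulus. -/
theorem exists_jacobi_neg_one {n : ℕ} (hn0 : 0 < n) (hn : ¬ IsSquare n) :
    ∃ d : ℕ, Odd d ∧ J(n | d) = -1 := by
  obtain ⟨s, b, hsb, hs⟩ := Nat.sq_mul_squarefree n
  have hb0 : b ≠ 0 := by
    rintro rfl
    simp at hsb
    omega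
  have hs0 : s ≠ 0 := hs.ne_zero
  have hs1 : s ≠ 1 := by
    rintro rfl
    exact hn ⟨b, by rw [← hsb]; ring⟩
  -- reduction to primes `d > n`
  have hred : ∀ d : ℕ, d.Prime → n < d → J(n | d) = J(s | d) := by
    intro d hd hnd
    have : (n : ℤ) = (b : ℤ) ^ 2 * s := by exact_mod_cast hsb.symm
    rw [this, jacobiSym.mul_left, jacobiSym.sq_one', one_mul]
    have hbd : b < d := by
      refine lt_of_le_of_lt ?_ hnd
      rw [← hsb]
      calc b ≤ b ^ 2 := Nat.le_self_pow (by norm_num) b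
        _ ≤ b ^ 2 * s := Nat.le_mul_of_pos_right _ (Nat.pos_of_ne_zero hs0)
    rw [Int.gcd_natCast_natCast]
    exact Nat.Coprime.symm ((Nat.Prime.coprime_iff_not_dvd hd).2 (fun h =>
      absurd (Nat.le_of_dvd (Nat.pos_of_ne_zero hb0) h) (by omega)))
  -- is there an odd prime factor?
  by_cases hodd : ∃ l : ℕ, l.Prime ∧ l ≠ 2 ∧ l ∣ s
  · obtain ⟨l, hl, hl2, t, rfl⟩ := hodd
    have hlt : l.Coprime t := (Nat.squarefree_mul_iff.1 hs).1
    have hlF : Fact l.Prime := ⟨hl⟩
    -- a non-residue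
    obtain ⟨u, hu⟩ : ∃ u : ZMod l, ¬ IsSquare u := by
      apply FiniteField.exists_nonsquare
      rw [ZMod.ringChar_zmod_n]
      exact hl2
    have hu0 : u ≠ 0 := fun h => hu (by rw [h]; exact ⟨0, by simp⟩)
    have hcop : l.Coprime (8 * t) := by
      apply Nat.Coprime.mul_right _ hlt
      have : l.Coprime (2 ^ 3) := Nat.Coprime.pow_right 3 ((Nat.coprime_primes hl Nat.prime_two).2 hl2)
      exact this
    obtain ⟨r, hr1, hr2⟩ := Nat.chineseRemainder hcop u.val 1
    have hrl : r.Coprime l := by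
      have h1 : r.gcd l = (u.val).gcd l := Nat.ModEq.gcd_eq hr1
      rw [Nat.Coprime, h1]
      have h2 : ((u.val : ℕ) : ZMod l) = u := ZMod.natCast_zmod_val u
      have h3 : IsUnit ((u.val : ℕ) : ZMod l) := by
        rw [h2]
        exact isUnit_iff_ne_zero.2 hu0
      exact (ZMod.isUnit_iff_coprime _ _).1 h3
    have hrt : r.Coprime (8 * t) := by
      have h1 : r.gcd (8 * t) = (1).gcd (8 * t) := Nat.ModEq.gcd_eq hr2
      rw [Nat.Coprime, h1, Nat.gcd_one_left]
    obtain ⟨d, hdn, hdp, hd⟩ := Nat.forall_exists_prime_gt_and_modEq n (q := l * (8 * t)) (a := r)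
      (by
        intro h
        rcases Nat.mul_eq_zero.1 h with h | h
        · exact hl.ne_zero h
        · rcases Nat.mul_eq_zero.1 h with h | h
          · norm_num at h
          · rw [h] at hs0
            exact hs0 (mul_zero l)) (Nat.Coprime.mul_right hrl hrt)
    have hd1 : d ≡ u.val [MOD l] := (hd.of_mul_right _).trans hr1
    have hd2 : d ≡ 1 [MOD 8 * t] := (hd.of_mul_left _).trans hr2
    have hd8 : d % 8 = 1 := by
      have : d ≡ 1 [MOD 8] := hd2.of_mul_right _
      exact this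
    have hdt : d ≡ 1 [MOD t] := hd2.of_mul_left _
    have hdodd : Odd d := by
      rw [Nat.odd_iff]
      omega
    refine ⟨d, hdodd, ?_⟩
    rw [hred d hdp hdn]
    push_cast
    rw [jacobiSym.mul_left]
    have h1 : J(l | d) = -1 := by
      rw [jacobiSym.quadratic_reciprocity_one_mod_four' (hl.odd_of_ne_two hl2) (by omega)]
      rw [← jacobiSym.legendreSym.to_jacobiSym]
      rw [legendreSym.eq_neg_one_iff]
      have h2 : (((d : ℕ) : ℤ) : ZMod l) = u := by
        have h3 : ((d : ℕ) : ZMod l) = ((u.val : ℕ) : ZMod l) := (ZMod.natCast_eq_natCast_iff _ _ _).2 hd1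
        rw [Int.cast_natCast, h3, ZMod.natCast_zmod_val]
      rw [h2]
      exact hu
    have h2 : J(t | d) = 1 := by
      -- split off the power of two
      have ht0 : t ≠ 0 := by
        rintro rfl
        exact hs0 (mul_zero l)
      obtain ⟨e, t', ht', rfl⟩ := Nat.exists_eq_two_pow_mul_odd ht0
      push_cast
      rw [jacobiSym.mul_left, jacobiSym.pow_left, jacobiSym.at_two hdodd]
      have h3 : ZMod.χ₈ (d : ZMod 8) = 1 := by
        have h4 : (d : ZMod 8) = 1 := by
          have : d ≡ 1 [MOD 8] := hd8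
          exact_mod_cast (ZMod.natCast_eq_natCast_iff _ _ _).2 this
        rw [h4]
        decide
      rw [h3, one_pow, one_mul,
        jacobiSym.quadratic_reciprocity_one_mod_four' ht' (by omega)]
      have h4 : d ≡ 1 [MOD t'] := hdt.of_mul_left _
      have h5 : ((d : ℕ) : ℤ) % (t' : ℤ) = (1 : ℤ) % (t' : ℤ) := by
        exact_mod_cast h4
      rw [jacobiSym.mod_left' h5, jacobiSym.one_left]
    rw [h1, h2]
    norm_num
  · -- `s = 2`
    push Not at hodd
    have hs2 : s = 2 := by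
      obtain ⟨p, hp, hps⟩ := Nat.exists_prime_and_dvd hs1
      have hp2 : p = 2 := by
        by_contra h
        exact hodd p hp h hps
      subst hp2
      obtain ⟨t, rfl⟩ := hps
      have ht : t = 1 := by
        by_contra h
        obtain ⟨p, hp, hpt⟩ := Nat.exists_prime_and_dvd h
        have h3 : p = 2 := by
          by_contra h'
          exact hodd p hp h' (hpt.mul_left 2)
        subst h3
        have h4 := (Nat.squarefree_mul_iff.1 hs).1
        rw [Nat.coprime_comm, Nat.coprime_two_right] at h4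
        exact (Nat.not_even_iff_odd.2 h4) (even_iff_two_dvd.2 hpt)
      rw [ht]
    subst hs2
    obtain ⟨d, hdn, hdp, hd⟩ := Nat.forall_exists_prime_gt_and_modEq n (q := 8) (a := 3)
      (by norm_num) (by norm_num)
    have hd8 : d % 8 = 3 := hd
    have hdodd : Odd d := by
      rw [Nat.odd_iff]
      omega
    refine ⟨d, hdodd, ?_⟩
    rw [hred d hdp hdn]
    have h1 : J(((2 : ℕ) : ℤ) | d) = ZMod.χ₈ d := jacobiSym.at_two hdodd
    rw [h1]
    have h4 : (d : ZMod 8) = 3 := by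
      exact_mod_cast (ZMod.natCast_eq_natCast_iff _ _ _).2 hd
    rw [h4]
    decide

/-- For `n > 0` we have `J(-n | 4 n - 1) = -1`. -/
theorem jacobi_neg_self {n : ℕ} (hn : 0 < n) : J(-(n : ℤ) | 4 * n - 1) = -1 := by
  have hodd : Odd (4 * n - 1) := by rw [Nat.odd_iff]; omega
  have h4 : (4 * n - 1) % 4 = 3 := by omega
  rw [neg_eq_neg_one_mul, jacobiSym.mul_left, jacobiSym.at_neg_one hodd,
    ZMod.χ₄_nat_three_mod_four h4]
  have h1 : J((4 * n : ℤ) | 4 * n - 1) = 1 := by
    have e : (4 * n : ℤ) % ((4 * n - 1 : ℕ) : ℤ) = 1 % ((4 * n - 1 : ℕ) : ℤ) := by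
      have : (4 * n : ℤ) = 1 + ((4 * n - 1 : ℕ) : ℤ) := by omega
      rw [this, Int.add_emod_right]
    rw [jacobiSym.mod_left' e, jacobiSym.one_left]
  have h2 : J((4 : ℤ) | 4 * n - 1) = 1 := by
    have : (4 : ℤ) = 2 ^ 2 := by norm_num
    rw [this]
    apply jacobiSym.sq_one'
    rw [show (2 : ℤ) = ((2 : ℕ) : ℤ) by rfl, Int.gcd_natCast_natCast]
    exact Nat.coprime_two_left.2 hodd
  rw [jacobiSym.mul_left, h2, one_mul] at h1
  rw [h1]
  norm_num

theorem exists_jacobi_neg_one_int {u : ℤ} (hu0 : u ≠ 0) (hu : ¬ IsSquare u) :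
    ∃ d : ℕ, Odd d ∧ J(u | d) = -1 := by
  rcases lt_or_gt_of_ne hu0 with h | h
  · obtain ⟨n, hn⟩ : ∃ n : ℕ, u = -(n : ℤ) := ⟨u.natAbs, by omega⟩
    have hn0 : 0 < n := by omega
    refine ⟨4 * n - 1, by rw [Nat.odd_iff]; omega, ?_⟩
    rw [hn]
    exact jacobi_neg_self hn0
  · obtain ⟨n, hn⟩ : ∃ n : ℕ, u = (n : ℤ) := ⟨u.natAbs, by omega⟩
    subst hn
    apply exists_jacobi_neg_one (by omega)
    rintro ⟨r, hr⟩
    exact hu ⟨r, by exact_mod_cast hr⟩

theorem exists_prime_jacobi {u : ℤ} (hu0 : u ≠ 0) (hu : ¬ IsSquare u) (B : ℕ) :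
    ∃ d : ℕ, d.Prime ∧ B < d ∧ J(u | d) = -1 := by
  obtain ⟨d, hd, hJ⟩ := exists_jacobi_neg_one_int hu0 hu
  have hcop : d.Coprime (4 * u.natAbs) := by
    have h1 : u.gcd d = 1 := by
      by_contra h
      have hd0 : NeZero d := ⟨by rintro rfl; simp at hd⟩
      have := jacobiSym.eq_zero_iff_not_coprime.2 h
      rw [hJ] at this
      norm_num at this
    have h2 : d.Coprime 4 := by
      have : d.Coprime 2 := Nat.coprime_two_right.2 hd
      exact Nat.Coprime.pow_right 2 this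
    have h3 : d.Coprime u.natAbs := by
      rw [Nat.coprime_comm]
      exact h1
    exact Nat.Coprime.mul_right h2 h3
  obtain ⟨q, hqB, hq, hqd⟩ := Nat.forall_exists_prime_gt_and_modEq (max B 2) (q := 4 * u.natAbs) (a := d)
    (by
      have : u.natAbs ≠ 0 := Int.natAbs_ne_zero.2 hu0
      positivity) hcop
  refine ⟨q, hq, lt_of_le_of_lt (le_max_left _ _) hqB, ?_⟩
  have hq2 : q ≠ 2 := by
    have := lt_of_le_of_lt (le_max_right B 2) hqB
    omega
  rw [jacobiSym.mod_right u (hq.odd_of_ne_two hq2)]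
  have h1 : q % (4 * u.natAbs) = d % (4 * u.natAbs) := hqd
  rw [h1, ← jacobiSym.mod_right u hd, hJ]

lemma jacobi_mod {u : ℤ} {M : ℕ} (hM : 4 * u.natAbs ∣ M) (hM2 : Even M) {b : ℕ} (hb : Odd b) :
    J(u | b % M) = J(u | b) := by
  have h1 : Odd (b % M) := by
    rw [Nat.odd_iff] at hb ⊢
    rw [Nat.mod_mod_of_dvd _ (even_iff_two_dvd.1 hM2)]
    exact hb
  rw [jacobiSym.mod_right u h1, jacobiSym.mod_right u hb, Nat.mod_mod_of_dvd _ hM]

theorem sum_units_jacobi {u : ℤ} (hu0 : u ≠ 0) (hu : ¬ IsSquare u) (M : ℕ) [NeZero M]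
    (hM : 4 * u.natAbs ∣ M) :
    ∑ v : (ZMod M)ˣ, J(u | (v : ZMod M).val) = 0 := by
  have hM2 : Even M := even_iff_two_dvd.2 ((Dvd.intro (2 * u.natAbs) (by ring)).trans hM)
  have hodd : ∀ v : (ZMod M)ˣ, Odd (v : ZMod M).val := by
    intro v
    have h1 : (v : ZMod M).val.Coprime M := ZMod.val_coe_unit_coprime v
    have h2 : (v : ZMod M).val.Coprime 2 := h1.coprime_dvd_right (even_iff_two_dvd.1 hM2)
    exact Nat.coprime_two_right.1 h2
  obtain ⟨d, hd, hdM, hJ⟩ := exists_prime_jacobi hu0 hu M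
  have hdodd : Odd d := by
    rcases hd.eq_two_or_odd' with rfl | h
    · have : 0 < M := Nat.pos_of_ne_zero (NeZero.ne M)
      have h2 := even_iff_two_dvd.1 hM2
      obtain ⟨k, hk⟩ := h2
      omega
    · exact h
  have hunit : IsUnit (d : ZMod M) := by
    rw [ZMod.isUnit_iff_coprime]
    rw [Nat.Prime.coprime_iff_not_dvd hd]
    intro h
    have := Nat.le_of_dvd (Nat.pos_of_ne_zero (NeZero.ne M)) h
    omega
  obtain ⟨w, hw⟩ := hunit
  have h1 : ∑ v : (ZMod M)ˣ, J(u | ((v * w : (ZMod M)ˣ) : ZMod M).val) =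
      ∑ v : (ZMod M)ˣ, J(u | (v : ZMod M).val) :=
    Equiv.sum_comp (Equiv.mulRight w) (fun v : (ZMod M)ˣ => J(u | (v : ZMod M).val))
  have h2 : ∀ v : (ZMod M)ˣ, J(u | ((v * w : (ZMod M)ˣ) : ZMod M).val) = - J(u | (v : ZMod M).val) := by
    intro v
    have e1 : ((v * w : (ZMod M)ˣ) : ZMod M) = (((v : ZMod M).val * d : ℕ) : ZMod M) := by
      push_cast
      rw [ZMod.natCast_zmod_val, hw]
    rw [e1, ZMod.val_natCast, jacobi_mod hM hM2 ((hodd v).mul hdodd),
      jacobiSym.mul_right' _ (by have := hodd v; rintro h; rw [h] at this; simp at this)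
        (by rintro rfl; simp at hdodd), hJ]
    ring
  rw [sum_congr rfl fun v _ => h2 v, sum_neg_distrib] at h1
  linarith

end Pool.Agent.Helper27.IS
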