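import Mathlib

/-!
# Brun's pure sieve for residue classes

`Ω p ⊆ range p` is the set of forbidden residues modulo the prime `p`.
-/

set_option autoImplicit false

namespace Pool.Agent.Helper27.IS

open Finset

/-- counting in a residue class -/
lemma count_class_one (Y m r : ℕ) (hm : 0 < m) :
    |(((range Y).filter (fun n => n ≡ r [MOD m])).card : ℝ) - (Y : ℝ) / m| ≤ 1 := by
  have h := Nat.count_modEq_card (b := Y) (r := m) hm r
  rw [Nat.count_eq_card_filter_range] at h
  have hm' : (0 : ℝ) < m := by exact_mod_cast hm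
  have h1 : ((Y / m : ℕ) : ℝ) ≤ (Y : ℝ) / m := Nat.cast_div_le
  have h2 : (Y : ℝ) / m < ((Y / m : ℕ) : ℝ) + 1 := by
    have := Nat.lt_floor_add_one ((Y : ℝ) / m)
    rwa [Nat.floor_div_eq_div] at this
  rw [h]
  push_cast
  by_cases hc : r % m < Y % m
  · rw [if_pos hc]
    rw [abs_le]; constructor <;> push_cast <;> linarith
  · rw [if_neg hc]
    rw [abs_le]; constructor <;> push_cast <;> linarith

/-- counting under CRT conditions -/
lemma count_class (Ω : ℕ → Finset ℕ) (hΩ : ∀ p, Ω p ⊆ range p) (Y : ℕ) (D : Finset ℕ) :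
    (∀ p ∈ D, p.Prime) → ∀ m r : ℕ, 0 < m → (∀ p ∈ D, Nat.Coprime m p) →
    |(((range Y).filter (fun n => n ≡ r [MOD m] ∧ ∀ p ∈ D, n % p ∈ Ω p)).card : ℝ) -
      (Y : ℝ) * (∏ p ∈ D, ((Ω p).card : ℝ) / p) / m| ≤ ∏ p ∈ D, ((Ω p).card : ℝ) := by
  classical
  induction D using Finset.induction_on with
  | empty =>
    intro _ m r hm _
    simpa using count_class_one Y m r hm
  | insert q D hq ih =>
    intro hD m r hm hmD
    have hqp : q.Prime := hD q (mem_insert_self _ _)
    have hmq : Nat.Coprime m q := hmD q (mem_insert_self _ _)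
    have hDp : ∀ p ∈ D, p.Prime := fun p hp => hD p (mem_insert_of_mem hp)
    -- choose the CRT representative
    let R : ℕ → ℕ := fun w => (Nat.chineseRemainder hmq r w : ℕ)
    have hR : ∀ w, R w ≡ r [MOD m] ∧ R w ≡ w [MOD q] := fun w => (Nat.chineseRemainder hmq r w).2
    have hsplit : (range Y).filter (fun n => n ≡ r [MOD m] ∧ ∀ p ∈ insert q D, n % p ∈ Ω p) =
        (Ω q).biUnion (fun w => (range Y).filter (fun n => n ≡ R w [MOD (m * q)] ∧ ∀ p ∈ D, n % p ∈ Ω p)) := by
      ext n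
      simp only [mem_filter, mem_range, mem_biUnion, mem_insert, forall_eq_or_imp]
      constructor
      · rintro ⟨hn, hr, hq1, hD1⟩
        refine ⟨n % q, hq1, hn, ?_, hD1⟩
        rw [← Nat.modEq_and_modEq_iff_modEq_mul hmq]
        refine ⟨hr.trans (hR _).1.symm, ?_⟩
        exact ((hR (n % q)).2.trans (Nat.mod_modEq n q)).symm
      · rintro ⟨w, hw, hn, hmod, hD1⟩
        rw [← Nat.modEq_and_modEq_iff_modEq_mul hmq] at hmod
        refine ⟨hn, hmod.1.trans (hR w).1, ?_, hD1⟩
        have h1 : n ≡ w [MOD q] := hmod.2.trans (hR w).2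
        have h2 : w < q := mem_range.1 (hΩ q hw)
        have h3 : n % q = w := by
          have := h1
          rw [Nat.ModEq, Nat.mod_eq_of_lt h2] at this
          exact this
        rw [h3]; exact hw
    have hdisj : Set.PairwiseDisjoint (↑(Ω q)) (fun w => (range Y).filter
        (fun n => n ≡ R w [MOD (m * q)] ∧ ∀ p ∈ D, n % p ∈ Ω p)) := by
      intro w hw w' hw' hne
      simp only [Function.onFun]
      rw [Finset.disjoint_left]
      intro n hn hn'
      simp only [mem_filter] at hn hn'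
      apply hne
      have h1 : n ≡ w [MOD q] := (hn.2.1.of_mul_left m).trans (hR w).2
      have h1' : n ≡ w' [MOD q] := (hn'.2.1.of_mul_left m).trans (hR w').2
      have h2 : w < q := mem_range.1 (hΩ q hw)
      have h2' : w' < q := mem_range.1 (hΩ q hw')
      have := h1.symm.trans h1'
      rw [Nat.ModEq, Nat.mod_eq_of_lt h2, Nat.mod_eq_of_lt h2'] at this
      exact this
    rw [hsplit, card_biUnion hdisj]
    push_cast
    rw [prod_insert hq, prod_insert hq]
    have hmul : 0 < m * q := Nat.mul_pos hm hqp.pos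
    have hco : ∀ p ∈ D, Nat.Coprime (m * q) p := by
      intro p hp
      apply Nat.Coprime.mul_left (hmD p (mem_insert_of_mem hp))
      rw [Nat.coprime_primes hqp (hDp p hp)]
      rintro rfl
      exact hq hp
    have key := fun w => ih hDp (m * q) (R w) hmul hco
    set Pd : ℝ := ∏ p ∈ D, ((Ω p).card : ℝ) / p
    set Pc : ℝ := ∏ p ∈ D, ((Ω p).card : ℝ)
    have hq0 : (q : ℝ) ≠ 0 := by exact_mod_cast hqp.ne_zero
    have hm0 : (m : ℝ) ≠ 0 := by exact_mod_cast hm.ne'
    have hrew : (Y : ℝ) * (((Ω q).card : ℝ) / q * Pd) / m =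
        ∑ w ∈ Ω q, (Y : ℝ) * Pd / ((m * q : ℕ) : ℝ) := by
      rw [sum_const, nsmul_eq_mul]
      push_cast
      field_simp
    rw [hrew, ← sum_sub_distrib]
    calc |∑ w ∈ Ω q, ((((range Y).filter (fun n => n ≡ R w [MOD (m * q)] ∧ ∀ p ∈ D, n % p ∈ Ω p)).card : ℝ) -
          (Y : ℝ) * Pd / ((m * q : ℕ) : ℝ))|
        ≤ ∑ w ∈ Ω q, |((((range Y).filter (fun n => n ≡ R w [MOD (m * q)] ∧ ∀ p ∈ D, n % p ∈ Ω p)).card : ℝ) -
          (Y : ℝ) * Pd / ((m * q : ℕ) : ℝ))| := abs_sum_le_sum_abs _ _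
      _ ≤ ∑ w ∈ Ω q, Pc := sum_le_sum fun w _ => key w
      _ = ((Ω q).card : ℝ) * Pc := by rw [sum_const, nsmul_eq_mul]

/-- elementary symmetric sum -/
noncomputable def esy (P : Finset ℕ) (x : ℕ → ℝ) (j : ℕ) : ℝ :=
  ∑ D ∈ P.powersetCard j, ∏ p ∈ D, x p

lemma esy_zero (P : Finset ℕ) (x : ℕ → ℝ) : esy P x 0 = 1 := by
  simp [esy]

lemma esy_empty_succ (x : ℕ → ℝ) (j : ℕ) : esy ∅ x (j + 1) = 0 := by
  simp [esy, powersetCard_eq_empty.2 (show (∅ : Finset ℕ).card < j + 1 by simp)]

lemma esy_insert (P : Finset ℕ) (x : ℕ → ℝ) (q : ℕ) (hq : q ∉ P) (j : ℕ) :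
    esy (insert q P) x (j + 1) = esy P x (j + 1) + x q * esy P x j := by
  classical
  unfold esy
  rw [powersetCard_succ_insert hq, sum_union, sum_image, mul_sum]
  · congr 1
    apply sum_congr rfl
    intro D hD
    rw [prod_insert]
    intro h
    exact hq ((mem_powersetCard.1 hD).1 h)
  · intro D hD D' hD' h
    have h1 : q ∉ D := fun h => hq ((mem_powersetCard.1 hD).1 h)
    have h2 : q ∉ D' := fun h => hq ((mem_powersetCard.1 hD').1 h)
    have := congrArg (fun s => s.erase q) h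
    simpa [erase_insert h1, erase_insert h2] using this
  · rw [disjoint_left]
    intro D hD hD'
    obtain ⟨D0, _, rfl⟩ := mem_image.1 hD'
    exact hq ((mem_powersetCard.1 hD).1 (mem_insert_self _ _))

lemma esy_nonneg (P : Finset ℕ) (x : ℕ → ℝ) (hx : ∀ p ∈ P, 0 ≤ x p) (j : ℕ) : 0 ≤ esy P x j := by
  unfold esy
  apply sum_nonneg
  intro D hD
  apply prod_nonneg
  intro p hp
  exact hx p ((mem_powersetCard.1 hD).1 hp)

/-- truncated alternating sum -/
noncomputable def alt (P : Finset ℕ) (x : ℕ → ℝ) (r : ℕ) : ℝ :=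
  ∑ j ∈ range (r + 1), (-1) ^ j * esy P x j

lemma alt_insert (P : Finset ℕ) (x : ℕ → ℝ) (q : ℕ) (hq : q ∉ P) (r : ℕ) :
    alt (insert q P) x (r + 1) = alt P x (r + 1) - x q * alt P x r := by
  unfold alt
  rw [sum_range_succ' _ (r + 1), sum_range_succ' _ (r + 1)]
  simp only [esy_insert P x q hq, esy_zero]
  rw [mul_sum, add_sub_right_comm, ← sum_sub_distrib]
  congr 1
  apply sum_congr rfl
  intro j _
  rw [pow_succ]
  ring

/-- Bonferroni inequalities -/
lemma bonf (P : Finset ℕ) (x : ℕ → ℝ) : (∀ p ∈ P, 0 ≤ x p ∧ x p ≤ 1) → ∀ r : ℕ,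
    0 ≤ (-1 : ℝ) ^ r * (alt P x r - ∏ p ∈ P, (1 - x p)) ∧
    (-1 : ℝ) ^ r * (alt P x r - ∏ p ∈ P, (1 - x p)) ≤ esy P x (r + 1) := by
  classical
  induction P using Finset.induction_on with
  | empty =>
    intro _ r
    have h : alt ∅ x r = 1 := by
      unfold alt
      rw [sum_range_succ']
      simp [esy_empty_succ, esy_zero]
    rw [h, esy_empty_succ]
    simp
  | insert q P hq ih =>
    intro hx r
    have hxP : ∀ p ∈ P, 0 ≤ x p ∧ x p ≤ 1 := fun p hp => hx p (mem_insert_of_mem hp)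
    have hxq := hx q (mem_insert_self _ _)
    have ihP := ih hxP
    have hprod0 : 0 ≤ ∏ p ∈ P, (1 - x p) := prod_nonneg fun p hp => by linarith [(hxP p hp).2]
    have hprod1 : ∏ p ∈ P, (1 - x p) ≤ 1 :=
      prod_le_one (fun p hp => by linarith [(hxP p hp).2]) (fun p hp => by linarith [(hxP p hp).1])
    rw [prod_insert hq, esy_insert P x q hq]
    cases r with
    | zero =>
      have h0 : alt (insert q P) x 0 = 1 := by simp [alt, esy_zero]
      have h1 := ihP 0
      have h0' : alt P x 0 = 1 := by simp [alt, esy_zero]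
      rw [h0'] at h1
      rw [h0, esy_zero]
      simp only [pow_zero, one_mul] at h1 ⊢
      constructor
      · nlinarith [h1.1, hxq.1, mul_nonneg hxq.1 hprod0]
      · nlinarith [h1.2, hxq.1, mul_nonneg hxq.1 hprod0, mul_le_mul_of_nonneg_left hprod1 hxq.1]
    | succ r =>
      rw [alt_insert P x q hq]
      have h1 := ihP (r + 1)
      have h2 := ihP r
      have e : (-1 : ℝ) ^ (r + 1) * (alt P x (r + 1) - x q * alt P x r - (1 - x q) * ∏ p ∈ P, (1 - x p)) =
          (-1 : ℝ) ^ (r + 1) * (alt P x (r + 1) - ∏ p ∈ P, (1 - x p)) +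
          x q * ((-1 : ℝ) ^ r * (alt P x r - ∏ p ∈ P, (1 - x p))) := by
        rw [pow_succ]; ring
      rw [e]
      constructor
      · exact add_nonneg h1.1 (mul_nonneg hxq.1 h2.1)
      · exact add_le_add h1.2 (mul_le_mul_of_nonneg_left h2.2 hxq.1)

/-- generating function bound -/
lemma esy_le (P : Finset ℕ) (x : ℕ → ℝ) (hx : ∀ p ∈ P, 0 ≤ x p) (r : ℕ) (l : ℝ) (hl : 0 ≤ l) :
    ∑ j ∈ range (r + 1), l ^ j * esy P x j ≤ Real.exp (l * ∑ p ∈ P, x p) := by
  classical
  have h1 : ∏ p ∈ P, (1 + l * x p) = ∑ j ∈ range (P.card + 1), l ^ j * esy P x j := by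
    rw [prod_one_add, sum_powerset]
    apply sum_congr rfl
    intro j _
    unfold esy
    rw [mul_sum]
    apply sum_congr rfl
    intro D hD
    rw [prod_mul_distrib, prod_const, (mem_powersetCard.1 hD).2]
  have h2 : ∑ j ∈ range (r + 1), l ^ j * esy P x j ≤ ∑ j ∈ range (P.card + 1), l ^ j * esy P x j := by
    have hz : ∀ j, P.card < j → esy P x j = 0 := by
      intro j hj
      unfold esy
      rw [powersetCard_eq_empty.2 hj, sum_empty]
    calc ∑ j ∈ range (r + 1), l ^ j * esy P x j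
        = ∑ j ∈ (range (r + 1)).filter (fun j => j ≤ P.card), l ^ j * esy P x j := by
          rw [sum_filter]
          apply sum_congr rfl
          intro j _
          split_ifs with h
          · rfl
          · rw [hz j (by omega), mul_zero]
      _ ≤ ∑ j ∈ range (P.card + 1), l ^ j * esy P x j := by
          apply sum_le_sum_of_subset_of_nonneg
          · intro j hj
            simp only [mem_filter, mem_range] at hj ⊢
            omega
          · intro j _ _
            exact mul_nonneg (pow_nonneg hl j) (esy_nonneg P x hx j)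
  refine h2.trans ?_
  rw [← h1, mul_sum, Real.exp_sum]
  apply prod_le_prod
  · intro p hp
    have := mul_nonneg hl (hx p hp)
    linarith
  · intro p _
    rw [add_comm]
    exact Real.add_one_le_exp _

/-- a single elementary symmetric sum -/
lemma esy_le_single (P : Finset ℕ) (x : ℕ → ℝ) (hx : ∀ p ∈ P, 0 ≤ x p) (r : ℕ) (l : ℝ) (hl : 0 ≤ l) :
    l ^ r * esy P x r ≤ Real.exp (l * ∑ p ∈ P, x p) := by
  refine le_trans ?_ (esy_le P x hx r l hl)
  apply single_le_sum (f := fun j => l ^ j * esy P x j) _ (mem_range.2 (Nat.lt_succ_self r))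
  intro j _
  exact mul_nonneg (pow_nonneg hl j) (esy_nonneg P x hx j)

/-- **Brun's pure sieve.** -/
theorem brun (Ω : ℕ → Finset ℕ) (hΩ : ∀ p, Ω p ⊆ range p) (Y : ℕ) (P : Finset ℕ)
    (hP : ∀ p ∈ P, p.Prime) (m : ℕ) :
    (((range Y).filter (fun n => ∀ p ∈ P, n % p ∉ Ω p)).card : ℝ) ≤
      (Y : ℝ) * (∏ p ∈ P, (1 - ((Ω p).card : ℝ) / p) +
        esy P (fun p => ((Ω p).card : ℝ) / p) (2 * m + 1)) +
      ∑ j ∈ range (2 * m + 1), esy P (fun p => ((Ω p).card : ℝ)) j := by
  classical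
  -- pointwise Bonferroni
  have hpt : ∀ n ∈ range Y, (if ∀ p ∈ P, n % p ∉ Ω p then (1 : ℝ) else 0) ≤
      ∑ j ∈ range (2 * m + 1), (-1 : ℝ) ^ j *
        ∑ D ∈ P.powersetCard j, (if ∀ p ∈ D, n % p ∈ Ω p then (1 : ℝ) else 0) := by
    intro n _
    have hb := (bonf P (fun p => if n % p ∈ Ω p then (1 : ℝ) else 0)
      (fun p _ => by split_ifs <;> norm_num) (2 * m)).1
    rw [pow_mul, neg_one_sq, one_pow, one_mul] at hb
    have h1 : ∏ p ∈ P, (1 - (if n % p ∈ Ω p then (1 : ℝ) else 0)) =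
        if ∀ p ∈ P, n % p ∉ Ω p then (1 : ℝ) else 0 := by
      split_ifs with h
      · apply prod_eq_one
        intro p hp
        rw [if_neg (h p hp)]; norm_num
      · push Not at h
        obtain ⟨p, hp, hp'⟩ := h
        apply prod_eq_zero hp
        rw [if_pos hp']; norm_num
    rw [h1] at hb
    have h2 : alt P (fun p => if n % p ∈ Ω p then (1 : ℝ) else 0) (2 * m) =
        ∑ j ∈ range (2 * m + 1), (-1 : ℝ) ^ j *
        ∑ D ∈ P.powersetCard j, (if ∀ p ∈ D, n % p ∈ Ω p then (1 : ℝ) else 0) := by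
      unfold alt esy
      apply sum_congr rfl
      intro j _
      congr 1
      apply sum_congr rfl
      intro D _
      split_ifs with h
      · apply prod_eq_one
        intro p hp
        rw [if_pos (h p hp)]
      · push Not at h
        obtain ⟨p, hp, hp'⟩ := h
        apply prod_eq_zero hp
        rw [if_neg hp']
    rw [h2] at hb
    linarith
  have hcount : ∀ D : Finset ℕ, (∀ p ∈ D, p.Prime) →
      |∑ n ∈ range Y, (if ∀ p ∈ D, n % p ∈ Ω p then (1 : ℝ) else 0) -
        (Y : ℝ) * ∏ p ∈ D, ((Ω p).card : ℝ) / p| ≤ ∏ p ∈ D, ((Ω p).card : ℝ) := by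
    intro D hD
    have h := count_class Ω hΩ Y D hD 1 0 one_pos (fun p _ => Nat.coprime_one_left p)
    simp only [Nat.modEq_one, true_and, Nat.cast_one, div_one] at h
    rw [card_filter] at h
    push_cast at h
    exact h
  calc (((range Y).filter (fun n => ∀ p ∈ P, n % p ∉ Ω p)).card : ℝ)
      = ∑ n ∈ range Y, (if ∀ p ∈ P, n % p ∉ Ω p then (1 : ℝ) else 0) := by
        rw [card_filter]; push_cast; rfl
    _ ≤ ∑ n ∈ range Y, ∑ j ∈ range (2 * m + 1), (-1 : ℝ) ^ j *
        ∑ D ∈ P.powersetCard j, (if ∀ p ∈ D, n % p ∈ Ω p then (1 : ℝ) else 0) := sum_le_sum hpt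
    _ = ∑ j ∈ range (2 * m + 1), (-1 : ℝ) ^ j * ∑ D ∈ P.powersetCard j,
          ∑ n ∈ range Y, (if ∀ p ∈ D, n % p ∈ Ω p then (1 : ℝ) else 0) := by
        rw [sum_comm]
        apply sum_congr rfl
        intro j _
        rw [← mul_sum, sum_comm]
    _ ≤ ∑ j ∈ range (2 * m + 1), ((-1 : ℝ) ^ j * ((Y : ℝ) * esy P (fun p => ((Ω p).card : ℝ) / p) j)
          + esy P (fun p => ((Ω p).card : ℝ)) j) := by
        apply sum_le_sum
        intro j _
        have h1 : |∑ D ∈ P.powersetCard j,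
            (∑ n ∈ range Y, (if ∀ p ∈ D, n % p ∈ Ω p then (1 : ℝ) else 0)) -
            (Y : ℝ) * esy P (fun p => ((Ω p).card : ℝ) / p) j| ≤ esy P (fun p => ((Ω p).card : ℝ)) j := by
          unfold esy
          rw [mul_sum, ← sum_sub_distrib]
          refine (abs_sum_le_sum_abs _ _).trans (sum_le_sum ?_)
          intro D hD
          exact hcount D (fun p hp => hP p ((mem_powersetCard.1 hD).1 hp))
        rw [abs_le] at h1
        rcases neg_one_pow_eq_or ℝ j with h | h <;> rw [h] <;> nlinarith [h1.1, h1.2]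
    _ = (Y : ℝ) * alt P (fun p => ((Ω p).card : ℝ) / p) (2 * m) +
        ∑ j ∈ range (2 * m + 1), esy P (fun p => ((Ω p).card : ℝ)) j := by
        rw [sum_add_distrib]
        unfold alt
        rw [mul_sum]
        congr 1
        apply sum_congr rfl
        intro j _
        ring
    _ ≤ _ := by
        have hw : ∀ p ∈ P, 0 ≤ ((Ω p).card : ℝ) / p ∧ ((Ω p).card : ℝ) / p ≤ 1 := by
          intro p hp
          have hp0 : (0 : ℝ) < p := by exact_mod_cast (hP p hp).pos
          refine ⟨by positivity, ?_⟩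
          rw [div_le_one hp0]
          have := card_le_card (hΩ p)
          rw [card_range] at this
          exact_mod_cast this
        have hb := (bonf P (fun p => ((Ω p).card : ℝ) / p) hw (2 * m)).2
        rw [pow_mul, neg_one_sq, one_pow, one_mul] at hb
        have hY : (0 : ℝ) ≤ Y := Nat.cast_nonneg Y
        have : alt P (fun p => ((Ω p).card : ℝ) / p) (2 * m) ≤
          ∏ p ∈ P, (1 - ((Ω p).card : ℝ) / p) + esy P (fun p => ((Ω p).card : ℝ) / p) (2 * m + 1) := by
          linarith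
        nlinarith [mul_le_mul_of_nonneg_left this hY]

end Pool.Agent.Helper27.IS
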