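import Pool.Agent.Helper27.IS.Jac

/-!
# Residue classes of primes on which a given integer is a non-residue
-/

set_option autoImplicit false

namespace Pool.Agent.Helper27.IS

open Finset
open scoped NumberTheorySymbols

/-- If a prime `ℓ`, coprime to `M₀`, divides the squarefree part of `v`, then `v` is a non-residue
modulo some prime `d ≡ 1 (mod M₀)`. -/
theorem exists_prime_one_mod (v : ℤ) (hv : v ≠ 0) (M0 : ℕ) (hM0 : M0 ≠ 0) (l s b : ℕ) (hl : l.Prime)
    (hl2 : l ≠ 2) (hlM : ¬ l ∣ M0) (hsb : b ^ 2 * s = v.natAbs) (hs : Squarefree s) (hls : l ∣ s)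
    (B : ℕ) : ∃ d : ℕ, d.Prime ∧ B < d ∧ d ≡ 1 [MOD M0] ∧ J(v | d) = -1 := by
  obtain ⟨t, rfl⟩ := hls
  have hv0 : v.natAbs ≠ 0 := Int.natAbs_ne_zero.2 hv
  have hb0 : b ≠ 0 := by
    rintro rfl
    simp at hsb
    exact hv (by simpa using hsb.symm)
  have hs0 : l * t ≠ 0 := hs.ne_zero
  have ht0 : t ≠ 0 := by
    rintro rfl
    exact hs0 (mul_zero l)
  have hlt : l.Coprime t := (Nat.squarefree_mul_iff.1 hs).1
  have hlF : Fact l.Prime := ⟨hl⟩
  obtain ⟨u, hu⟩ : ∃ u : ZMod l, ¬ IsSquare u := by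
    apply FiniteField.exists_nonsquare
    rw [ZMod.ringChar_zmod_n]
    exact hl2
  have hu0 : u ≠ 0 := fun h => hu (by rw [h]; exact ⟨0, by simp⟩)
  have hcop : l.Coprime (8 * t * M0) := by
    apply Nat.Coprime.mul_right
    · apply Nat.Coprime.mul_right _ hlt
      have : l.Coprime (2 ^ 3) := Nat.Coprime.pow_right 3 ((Nat.coprime_primes hl Nat.prime_two).2 hl2)
      exact this
    · exact (Nat.Prime.coprime_iff_not_dvd hl).2 hlM
  obtain ⟨r, hr1, hr2⟩ := Nat.chineseRemainder hcop u.val 1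
  have hrl : r.Coprime l := by
    have h1 : r.gcd l = (u.val).gcd l := Nat.ModEq.gcd_eq hr1
    rw [Nat.Coprime, h1]
    have h2 : ((u.val : ℕ) : ZMod l) = u := ZMod.natCast_zmod_val u
    have h3 : IsUnit ((u.val : ℕ) : ZMod l) := by
      rw [h2]
      exact isUnit_iff_ne_zero.2 hu0
    exact (ZMod.isUnit_iff_coprime _ _).1 h3
  have hrt : r.Coprime (8 * t * M0) := by
    have h1 : r.gcd (8 * t * M0) = (1).gcd (8 * t * M0) := Nat.ModEq.gcd_eq hr2
    rw [Nat.Coprime, h1, Nat.gcd_one_left]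
  obtain ⟨d, hdn, hdp, hd⟩ := Nat.forall_exists_prime_gt_and_modEq (max B v.natAbs)
    (q := l * (8 * t * M0)) (a := r)
    (by
      apply mul_ne_zero hl.ne_zero
      apply mul_ne_zero _ hM0
      exact mul_ne_zero (by norm_num) ht0) (Nat.Coprime.mul_right hrl hrt)
  have hdB : B < d := lt_of_le_of_lt (le_max_left _ _) hdn
  have hdv : v.natAbs < d := lt_of_le_of_lt (le_max_right _ _) hdn
  have hd1 : d ≡ u.val [MOD l] := (hd.of_mul_right _).trans hr1
  have hd2 : d ≡ 1 [MOD 8 * t * M0] := (hd.of_mul_left _).trans hr2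
  have hd8 : d % 8 = 1 := by
    have : d ≡ 1 [MOD 8] := (hd2.of_mul_right _).of_mul_right _
    exact this
  have hdt : d ≡ 1 [MOD t] := (hd2.of_mul_right _).of_mul_left _
  have hdodd : Odd d := by
    rw [Nat.odd_iff]
    omega
  refine ⟨d, hdp, hdB, hd2.of_mul_left _, ?_⟩
  -- the sign
  have hsign : J(v | d) = J((v.natAbs : ℤ) | d) := by
    rcases Int.natAbs_eq v with h | h
    · conv_lhs => rw [h]
    · conv_lhs => rw [h]
      rw [neg_eq_neg_one_mul, jacobiSym.mul_left, jacobiSym.at_neg_one hdodd,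
        ZMod.χ₄_nat_one_mod_four (by omega), one_mul]
  have hred : J((v.natAbs : ℤ) | d) = J(((l * t : ℕ) : ℤ) | d) := by
    have h1 : ((v.natAbs : ℕ) : ℤ) = (b : ℤ) ^ 2 * ((l * t : ℕ) : ℤ) := by exact_mod_cast hsb.symm
    rw [h1, jacobiSym.mul_left, jacobiSym.sq_one', one_mul]
    have hbd : b < d := by
      refine lt_of_le_of_lt ?_ hdv
      rw [← hsb]
      calc b ≤ b ^ 2 := Nat.le_self_pow (by norm_num) b
        _ ≤ b ^ 2 * (l * t) := Nat.le_mul_of_pos_right _ (Nat.pos_of_ne_zero hs0)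
    rw [Int.gcd_natCast_natCast]
    exact Nat.Coprime.symm ((Nat.Prime.coprime_iff_not_dvd hdp).2 (fun h =>
      absurd (Nat.le_of_dvd (Nat.pos_of_ne_zero hb0) h) (by omega)))
  rw [hsign, hred]
  push_cast
  rw [jacobiSym.mul_left]
  have h1 : J(l | d) = -1 := by
    rw [jacobiSym.quadratic_reciprocity_one_mod_four' (hl.odd_of_ne_two hl2) (by omega)]
    rw [← jacobiSym.legendreSym.to_jacobiSym]
    rw [legendreSym.eq_neg_one_iff]
    have h2 : (((d : ℕ) : ℤ) : ZMod l) = u := by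
      have h3 : ((d : ℕ) : ZMod l) = ((u.val : ℕ) : ZMod l) := (ZMod.natCast_eq_natCast_iff _ _ _).2 hd1
      rw [Int.cast_natCast, h3, ZMod.natCast_zmod_val]
    rw [h2]
    exact hu
  have h2 : J(t | d) = 1 := by
    obtain ⟨e, t', ht', rfl⟩ := Nat.exists_eq_two_pow_mul_odd ht0
    push_cast
    rw [jacobiSym.mul_left, jacobiSym.pow_left, jacobiSym.at_two hdodd]
    have h3 : ZMod.χ₈ (d : ZMod 8) = 1 := by
      have h4 : (d : ZMod 8) = 1 := by
        have : d ≡ 1 [MOD 8] := hd8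
        exact_mod_cast (ZMod.natCast_eq_natCast_iff _ _ _).2 this
      rw [h4]
      decide
    rw [h3, one_pow, one_mul,
      jacobiSym.quadratic_reciprocity_one_mod_four' ht' (by omega)]
    have h4 : d ≡ 1 [MOD t'] := hdt.of_mul_left _
    have h5 : ((d : ℕ) : ℤ) % (t' : ℤ) = (1 : ℤ) % (t' : ℤ) := by
      exact_mod_cast h4
    rw [jacobiSym.mod_left' h5, jacobiSym.one_left]
  rw [h1, h2]
  norm_num

/-- There is a reduced residue class, contained in the class of `-1` modulo `M₀`, on which `v` is a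
non-residue. -/
theorem exists_class (v : ℤ) (hv : v ≠ 0) (M0 : ℕ) (hM0 : M0 ≠ 0) (l s b : ℕ) (hl : l.Prime)
    (hl2 : l ≠ 2) (hlM : ¬ l ∣ M0) (hsb : b ^ 2 * s = v.natAbs) (hs : Squarefree s) (hls : l ∣ s) :
    ∃ (M' : ℕ) (_ : NeZero M') (c : ZMod M'), IsUnit c ∧
      ∀ p : ℕ, p.Prime → (p : ZMod M') = c → M0 ∣ p + 1 ∧ J(v | p) = -1 := by
  have hv0 : v.natAbs ≠ 0 := Int.natAbs_ne_zero.2 hv
  set M' : ℕ := 4 * v.natAbs * M0 with hM'
  have hM'0 : M' ≠ 0 := mul_ne_zero (mul_ne_zero (by norm_num) hv0) hM0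
  have hne : NeZero M' := ⟨hM'0⟩
  have hM'4 : 4 ≤ M' := by
    have h1 : 4 * 1 * 1 ≤ 4 * v.natAbs * M0 :=
      Nat.mul_le_mul (Nat.mul_le_mul_left 4 (Nat.pos_of_ne_zero hv0)) (Nat.pos_of_ne_zero hM0)
    omega
  have hM'v : 4 * v.natAbs ∣ M' := Dvd.intro _ rfl
  have hM'M0 : M0 ∣ M' := Dvd.intro_left _ rfl
  have hM'2 : Even M' := by
    rw [even_iff_two_dvd]
    exact (Dvd.intro (2 * v.natAbs) (by ring)).trans hM'v
  set q0 : ℕ := M' - 1 with hq0
  have hq0odd : Odd q0 := by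
    obtain ⟨k, hk⟩ := hM'2
    rw [Nat.odd_iff]
    omega
  have hq0cop : q0.Coprime M' := by
    have h1 : M' = q0 + 1 := by omega
    rw [h1]
    simp
  -- a general statement
  have key : ∀ q : ℕ, Odd q → q.Coprime M' → M0 ∣ q + 1 → J(v | q) = -1 →
      ∃ (M' : ℕ) (_ : NeZero M') (c : ZMod M'), IsUnit c ∧
      ∀ p : ℕ, p.Prime → (p : ZMod M') = c → M0 ∣ p + 1 ∧ J(v | p) = -1 := by
    intro q hqodd hqcop hqM hJ
    refine ⟨M', hne, (q : ZMod M'), (ZMod.isUnit_iff_coprime _ _).2 hqcop, ?_⟩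
    intro p hp hpq
    have h1 : p ≡ q [MOD M'] := (ZMod.natCast_eq_natCast_iff _ _ _).1 hpq
    have hpodd : Odd p := by
      have h2 : p ≡ q [MOD 2] := h1.of_dvd (even_iff_two_dvd.1 hM'2)
      rw [Nat.odd_iff] at hqodd ⊢
      have h3 : p % 2 = q % 2 := h2
      omega
    constructor
    · have h2 : p + 1 ≡ q + 1 [MOD M0] := (h1.of_dvd hM'M0).add_right 1
      exact (h2.dvd_iff (dvd_refl _)).2 hqM
    · rw [← jacobi_mod hM'v hM'2 hpodd, show p % M' = q % M' from h1, jacobi_mod hM'v hM'2 hqodd, hJ]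
  have hq0M : M0 ∣ q0 + 1 := by
    have h1 : q0 + 1 = M' := by omega
    rw [h1]
    exact hM'M0
  rcases jacobiSym.trichotomy v q0 with h | h | h
  · exfalso
    have : NeZero q0 := ⟨by omega⟩
    rw [jacobiSym.eq_zero_iff_not_coprime] at h
    apply h
    have h1 : q0.Coprime v.natAbs :=
      hq0cop.coprime_dvd_right ((Dvd.intro_left _ rfl).trans hM'v)
    exact h1.symm
  · obtain ⟨d, hd, hdB, hd1, hdJ⟩ := exists_prime_one_mod v hv M0 hM0 l s b hl hl2 hlM hsb hs hls M'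
    have hdodd : Odd d := hd.odd_of_ne_two (by omega)
    apply key (q0 * d) (hq0odd.mul hdodd)
    · apply Nat.Coprime.mul_left hq0cop
      rw [Nat.Prime.coprime_iff_not_dvd hd]
      intro h'
      have := Nat.le_of_dvd (by omega) h'
      omega
    · have h1 : q0 * d + 1 ≡ q0 * 1 + 1 [MOD M0] := (hd1.mul_left q0).add_right 1
      rw [mul_one] at h1
      exact (h1.dvd_iff (dvd_refl _)).2 hq0M
    · rw [jacobiSym.mul_right' _ (by omega) hd.ne_zero, h, hdJ]
      norm_num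
  · exact key q0 hq0odd hq0cop hq0M h

end Pool.Agent.Helper27.IS
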