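import Pool.Agent.Helper27.IS.Primes

set_option autoImplicit false

namespace Pool.Agent.Helper27.IS

open Finset Filter Real

open scoped Classical in
theorem count_lower (M : ℕ) [NeZero M] (H : ZMod M → ℕ) (g : ℕ → ℝ) (hg : ∀ n, 0 ≤ g n) (P1 : ℕ)
    (hgH : ∀ p : ℕ, p.Prime → P1 < p → (H (p : ZMod M) : ℝ) ≤ g p) (c : ℝ)
    (hc : c < (∑ a ∈ (univ : Finset (ZMod M)).filter (fun a => IsUnit a), (H a : ℝ)) / (M.totient : ℝ)) :
    ∀ᶠ n : ℕ in atTop, c * n / log n ≤ ∑ i ∈ range (n + 1), g i := by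
  set U := (univ : Finset (ZMod M)).filter (fun a => IsUnit a) with hU
  set cnt : ZMod M → ℕ → ℝ := fun a n =>
    (((Finset.range (n + 1)).filter (fun p : ℕ => p.Prime ∧ (p : ZMod M) = a)).card : ℝ) with hcnt
  have hlogn : Tendsto (fun n : ℕ => log (n:ℝ) / n) atTop (nhds 0) := by
    have h1 : Tendsto (fun x : ℝ => log x / x) atTop (nhds 0) := by
      have := Real.isLittleO_log_id_atTop.tendsto_div_nhds_zero
      simpa using this
    exact h1.comp tendsto_natCast_atTop_atTop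
  have hlim : Tendsto (fun n : ℕ => ∑ a ∈ U, (H a : ℝ) * (cnt a n * log n / n) -
      (∑ a ∈ U, (H a : ℝ) * (P1 + 1)) * (log (n:ℝ) / n)) atTop
      (nhds ((∑ a ∈ U, (H a : ℝ)) / (M.totient : ℝ))) := by
    have h1 : Tendsto (fun n : ℕ => ∑ a ∈ U, (H a : ℝ) * (cnt a n * log n / n)) atTop
        (nhds (∑ a ∈ U, (H a : ℝ) * (1 / (M.totient : ℝ)))) := by
      apply tendsto_finsetSum
      intro a ha
      exact (Pool.Agent.Helper6.pi_ap_nat (mem_filter.1 ha).2).const_mul _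
    have h2 := h1.sub (hlogn.const_mul (∑ a ∈ U, (H a : ℝ) * (P1 + 1)))
    have h3 : (∑ a ∈ U, (H a : ℝ) * (1 / (M.totient : ℝ))) - (∑ a ∈ U, (H a : ℝ) * (P1 + 1)) * 0 =
        (∑ a ∈ U, (H a : ℝ)) / (M.totient : ℝ) := by
      rw [mul_zero, sub_zero, ← sum_mul, mul_one_div]
    rw [h3] at h2
    exact h2
  have hev := hlim.eventually (lt_mem_nhds hc)
  filter_upwards [hev, eventually_ge_atTop 3] with n hn hn3
  have hn0 : (0:ℝ) < n := by exact_mod_cast (by omega : 0 < n)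
  have hln : 0 < log (n:ℝ) := log_pos (by exact_mod_cast (by omega : 1 < n))
  -- lower bound of the sum
  have hlow : ∑ a ∈ U, (H a : ℝ) * cnt a n - ∑ a ∈ U, (H a : ℝ) * (P1 + 1) ≤ ∑ i ∈ range (n + 1), g i := by
    rw [← sum_sub_distrib]
    have hdisj : ∀ a ∈ U, ∀ b ∈ U, a ≠ b → Disjoint
        ((range (n + 1)).filter (fun p : ℕ => (p.Prime ∧ P1 < p) ∧ (p : ZMod M) = a))
        ((range (n + 1)).filter (fun p : ℕ => (p.Prime ∧ P1 < p) ∧ (p : ZMod M) = b)) := by
      intro a _ b _ hab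
      rw [disjoint_left]
      intro p hp hp'
      exact hab ((mem_filter.1 hp).2.2.symm.trans (mem_filter.1 hp').2.2)
    have h1 : ∑ a ∈ U, ∑ p ∈ (range (n + 1)).filter (fun p : ℕ => (p.Prime ∧ P1 < p) ∧ (p : ZMod M) = a), g p ≤
        ∑ i ∈ range (n + 1), g i := by
      rw [← sum_biUnion hdisj]
      apply sum_le_sum_of_subset_of_nonneg
      · intro p hp
        obtain ⟨a, _, ha⟩ := mem_biUnion.1 hp
        exact (mem_filter.1 ha).1
      · intro i _ _
        exact hg i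
    refine le_trans (sum_le_sum ?_) h1
    intro a _
    have h2 : ∑ p ∈ (range (n + 1)).filter (fun p : ℕ => (p.Prime ∧ P1 < p) ∧ (p : ZMod M) = a), (H a : ℝ) ≤
        ∑ p ∈ (range (n + 1)).filter (fun p : ℕ => (p.Prime ∧ P1 < p) ∧ (p : ZMod M) = a), g p := by
      apply sum_le_sum
      intro p hp
      have hp' := (mem_filter.1 hp).2
      rw [← hp'.2]
      exact hgH p hp'.1.1 hp'.1.2
    refine le_trans ?_ h2
    rw [sum_const, nsmul_eq_mul]
    have h3 : cnt a n ≤ (((range (n + 1)).filter (fun p : ℕ => (p.Prime ∧ P1 < p) ∧ (p : ZMod M) = a)).card : ℝ)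
        + (P1 + 1) := by
      simp only [hcnt]
      have : ((Finset.range (n + 1)).filter (fun p : ℕ => p.Prime ∧ (p : ZMod M) = a)).card ≤
        ((range (n + 1)).filter (fun p : ℕ => (p.Prime ∧ P1 < p) ∧ (p : ZMod M) = a)).card + (P1 + 1) := by
        have e1 : (Finset.range (n + 1)).filter (fun p : ℕ => p.Prime ∧ (p : ZMod M) = a) ⊆
          ((range (n + 1)).filter (fun p : ℕ => (p.Prime ∧ P1 < p) ∧ (p : ZMod M) = a)) ∪ range (P1 + 1) := by
          intro p hp
          simp only [mem_filter, mem_range, mem_union] at hp ⊢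
          by_cases h : P1 < p
          · left; exact ⟨hp.1, ⟨hp.2.1, h⟩, hp.2.2⟩
          · right; omega
        refine (card_le_card e1).trans ((card_union_le _ _).trans ?_)
        rw [card_range]
      exact_mod_cast this
    have h4 : (0:ℝ) ≤ H a := Nat.cast_nonneg _
    nlinarith
  refine le_trans ?_ hlow
  rw [div_le_iff₀ hln]
  have h5 : c * n < (∑ a ∈ U, (H a : ℝ) * (cnt a n * log n / n) -
      (∑ a ∈ U, (H a : ℝ) * (P1 + 1)) * (log (n:ℝ) / n)) * n := by
    exact mul_lt_mul_of_pos_right hn hn0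
  have h6 : (∑ a ∈ U, (H a : ℝ) * (cnt a n * log n / n) -
      (∑ a ∈ U, (H a : ℝ) * (P1 + 1)) * (log (n:ℝ) / n)) * n =
      (∑ a ∈ U, (H a : ℝ) * cnt a n - ∑ a ∈ U, (H a : ℝ) * (P1 + 1)) * log n := by
    have e1 : (∑ a ∈ U, (H a : ℝ) * (cnt a n * log n / n)) * n = (∑ a ∈ U, (H a : ℝ) * cnt a n) * log n := by
      rw [sum_mul, sum_mul]
      apply sum_congr rfl
      intro a _
      field_simp
    have e2 : ((∑ a ∈ U, (H a : ℝ) * (P1 + 1)) * (log (n:ℝ) / n)) * n =
        (∑ a ∈ U, (H a : ℝ) * (P1 + 1)) * log n := by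
      rw [mul_assoc, div_mul_cancel₀ _ hn0.ne']
    rw [sub_mul, sub_mul, e1, e2]
  rw [h6] at h5
  exact h5.le

theorem count_upper (g : ℕ → ℝ) (Kb : ℕ) (hg : ∀ p, p.Prime → g p ≤ Kb) (hg0 : ∀ p, ¬ p.Prime → g p = 0) :
    ∀ᶠ n : ℕ in atTop, ∑ i ∈ range (n + 1), g i ≤ (2 * Kb : ℝ) * n / log n := by
  have h := Pool.Agent.Helper6.pnt_nat.eventually (gt_mem_nhds (show (1:ℝ) < 2 by norm_num))
  filter_upwards [h, eventually_ge_atTop 3] with n hn hn3
  have hn0 : (0:ℝ) < n := by exact_mod_cast (by omega : 0 < n)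
  have hln : 0 < log (n:ℝ) := log_pos (by exact_mod_cast (by omega : 1 < n))
  have h1 : ∑ i ∈ range (n + 1), g i ≤ (Nat.primeCounting n : ℝ) * Kb := by
    have e1 : ∑ i ∈ range (n + 1), g i = ∑ i ∈ (range (n + 1)).filter Nat.Prime, g i := by
      rw [sum_filter]
      apply sum_congr rfl
      intro i _
      split_ifs with hp
      · rfl
      · exact hg0 i hp
    rw [e1, ← nsmul_eq_mul]
    have e2 : Nat.primeCounting n = ((range (n + 1)).filter Nat.Prime).card := by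
      rw [Nat.primeCounting, Nat.primeCounting', Nat.count_eq_card_filter_range]
    rw [e2]
    apply sum_le_card_nsmul
    intro p hp
    exact hg p (mem_filter.1 hp).2
  refine h1.trans ?_
  rw [le_div_iff₀ hln]
  have h2 : (Nat.primeCounting n : ℝ) * log n ≤ 2 * n := by
    rw [div_lt_iff₀ hn0] at hn
    exact hn.le
  have h3 : (0:ℝ) ≤ Kb := Nat.cast_nonneg _
  nlinarith

end Pool.Agent.Helper27.IS
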