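import Pool.Agent.Helper27.IS.Brun

/-!
# Asymptotic form of Brun's pure sieve (bounded dimension)
-/

set_option autoImplicit false

namespace Pool.Agent.Helper27.IS

open Finset Filter Real

/-- primes up to `z` -/
def PP (z : ℕ) : Finset ℕ := (range (z + 1)).filter Nat.Prime

lemma mem_PP {z p : ℕ} : p ∈ PP z ↔ p ≤ z ∧ p.Prime := by
  simp [PP]

lemma esy_sum_le (P : Finset ℕ) (x : ℕ → ℝ) (hx : ∀ p ∈ P, 0 ≤ x p) (r : ℕ) :
    ∑ j ∈ range (r + 1), esy P x j ≤ (1 + ∑ p ∈ P, x p) ^ r * exp 1 := by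
  set H : ℝ := ∑ p ∈ P, x p with hH
  have hH0 : 0 ≤ H := sum_nonneg hx
  have h1H : 0 < 1 + H := by linarith
  have a1 := esy_le P x hx r (1 / (1 + H)) (by positivity)
  have a2 : 1 / (1 + H) * H ≤ 1 := by
    rw [one_div, inv_mul_le_iff₀ h1H]
    linarith
  have a4 : ∑ j ∈ range (r + 1), esy P x j ≤
      (1 + H) ^ r * ∑ j ∈ range (r + 1), (1 / (1 + H)) ^ j * esy P x j := by
    rw [mul_sum]
    apply sum_le_sum
    intro j hj
    have hj' : j ≤ r := by
      have := mem_range.1 hj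
      omega
    have hes := esy_nonneg P x hx j
    have h3 : 1 ≤ (1 + H) ^ r * (1 / (1 + H)) ^ j := by
      rw [one_div, inv_pow, ← div_eq_mul_inv, le_div_iff₀ (by positivity), one_mul]
      exact pow_le_pow_right₀ (by linarith) hj'
    calc esy P x j = 1 * esy P x j := (one_mul _).symm
      _ ≤ ((1 + H) ^ r * (1 / (1 + H)) ^ j) * esy P x j := by gcongr
      _ = _ := by ring
  refine a4.trans ?_
  gcongr
  refine a1.trans ?_
  exact Real.exp_le_exp.2 a2

open scoped Classical in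
theorem sieve_bound (Ω : ℕ → Finset ℕ) (hΩ : ∀ p, Ω p ⊆ range p) (Kb : ℕ)
    (hK : ∀ p, (Ω p).card ≤ Kb) (κ C0 C1 : ℝ) (hκ : 0 < κ) (hC1 : 0 < C1)
    (hlow : ∀ z : ℕ, 3 ≤ z → κ * log (log z) - C0 ≤ ∑ p ∈ PP z, ((Ω p).card : ℝ) / p)
    (hup : ∀ z : ℕ, 3 ≤ z → ∑ p ∈ PP z, ((Ω p).card : ℝ) / p ≤ C1 * (log (log z) + 1))
    (K0 : ℕ) (hK0 : (K0 : ℝ) < κ) :
    ∃ C : ℝ, ∀ᶠ Y : ℕ in atTop,
      (((range Y).filter (fun n => ∀ p : ℕ, p.Prime → n % p ∉ Ω p)).card : ℝ) ≤
        C * Y / (log Y) ^ K0 := by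
  classical
  -- constants
  set c4 : ℝ := max (exp 2 * C1) κ + 1 with hc4
  have hc4κ : κ + 1 ≤ c4 := by rw [hc4]; gcongr; exact le_max_right _ _
  have hc4C : exp 2 * C1 + 1 ≤ c4 := by rw [hc4]; gcongr; exact le_max_left _ _
  have hc4pos : 1 ≤ c4 := by linarith
  set c5 : ℝ := 12 * c4 with hc5
  have hc5pos : 0 < c5 := by rw [hc5]; linarith
  -- filters
  have hL : Tendsto (fun Y : ℕ => log (Y : ℝ)) atTop atTop :=
    tendsto_log_atTop.comp tendsto_natCast_atTop_atTop
  have hl : Tendsto (fun Y : ℕ => log (log (Y : ℝ))) atTop atTop := tendsto_log_atTop.comp hL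
  -- z
  set zr : ℕ → ℝ := fun Y => exp (log Y / (c5 * log (log Y))) with hzr
  have hquot : Tendsto (fun Y : ℕ => log (Y : ℝ) / (c5 * log (log (Y : ℝ)))) atTop atTop := by
    have h1 : Tendsto (fun x : ℝ => x / (c5 * log x)) atTop atTop := by
      have h2 : Tendsto (fun x : ℝ => log x / x) atTop (nhds 0) := by
        have := Real.isLittleO_log_id_atTop.tendsto_div_nhds_zero
        simpa using this
      have h3 : Tendsto (fun x : ℝ => c5 * (log x / x)) atTop (nhdsWithin 0 (Set.Ioi 0)) := by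
        rw [tendsto_nhdsWithin_iff]
        constructor
        · simpa using h2.const_mul c5
        · filter_upwards [eventually_gt_atTop 1] with x hx
          have := log_pos hx
          exact mul_pos hc5pos (by positivity)
      have h4 := h3.inv_tendsto_nhdsGT_zero
      refine h4.congr' ?_
      filter_upwards [eventually_gt_atTop 1] with x hx
      have h5 := log_pos hx
      have h6 : (0:ℝ) < x := by linarith
      simp only [Pi.inv_apply]
      field_simp
    exact h1.comp hL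
  have hzr_top : Tendsto zr atTop atTop := tendsto_exp_atTop.comp hquot
  -- eventual inequalities
  have E1 : ∀ᶠ Y : ℕ in atTop, (4 : ℝ) ≤ zr Y := hzr_top.eventually_ge_atTop 4
  have E2 : ∀ᶠ Y : ℕ in atTop, (3 : ℝ) ≤ log (log (Y : ℝ)) := hl.eventually_ge_atTop 3
  -- 3 c4 l log (2 (Kb+1)) ≤ L / 8
  have E3 : ∀ᶠ Y : ℕ in atTop, 3 * c4 * log (log (Y : ℝ)) * log (2 * (Kb + 1)) ≤ log (Y : ℝ) / 8 := by
    have h1 : ∀ᶠ x : ℝ in atTop, log x ≤ (1 / (24 * c4 * (log (2 * (Kb + 1)) + 1))) * x := by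
      have hlk : 0 ≤ log (2 * ((Kb : ℝ) + 1)) := log_nonneg (by nlinarith [Nat.cast_nonneg (α := ℝ) Kb])
      have := Real.isLittleO_log_id_atTop.def (c := 1 / (24 * c4 * (log (2 * (Kb + 1)) + 1)))
        (by positivity)
      filter_upwards [this, eventually_gt_atTop 1] with x hx hx1
      simp only [id, norm_eq_abs] at hx
      rw [abs_of_pos (log_pos hx1), abs_of_pos (by linarith : (0:ℝ) < x)] at hx
      exact hx
    filter_upwards [hL.eventually h1, hL.eventually_ge_atTop 1] with Y hY hY1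
    have hlk : 0 ≤ log (2 * ((Kb : ℝ) + 1)) := log_nonneg (by nlinarith [Nat.cast_nonneg (α := ℝ) Kb])
    have h2 : 3 * c4 * log (log (Y : ℝ)) * log (2 * (Kb + 1)) ≤
        3 * c4 * ((1 / (24 * c4 * (log (2 * (Kb + 1)) + 1))) * log Y) * log (2 * (Kb + 1)) := by
      gcongr
    refine h2.trans ?_
    have h3 : 3 * c4 * ((1 / (24 * c4 * (log (2 * (Kb + 1)) + 1))) * log Y) * log (2 * (Kb + 1)) =
      (log Y / 8) * (log (2 * (Kb + 1)) / (log (2 * (Kb + 1)) + 1)) := by
      field_simp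
      ring
    rw [h3]
    apply mul_le_of_le_one_right (by positivity)
    rw [div_le_one (by positivity)]
    linarith
  -- (l / L)^κ ≤ 1 / L^K0 up to constants
  have E4 : ∀ᶠ Y : ℕ in atTop, (2 * c5 * log (log (Y : ℝ)) / log Y) ^ κ ≤ 1 / (log (Y : ℝ)) ^ K0 := by
    have h1 : ∀ᶠ x : ℝ in atTop, (2 * c5 * log x / x) ^ κ ≤ 1 / x ^ K0 := by
      have hd : 0 < (κ - K0) / κ := by
        apply div_pos _ hκ
        linarith
      have h2 := (isLittleO_log_rpow_atTop hd).def (c := 1 / (2 * c5)) (by positivity)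
      filter_upwards [h2, eventually_gt_atTop 1] with x hx hx1
      have hx0 : (0:ℝ) < x := by linarith
      have hlx := log_pos hx1
      rw [norm_eq_abs, norm_eq_abs, abs_of_pos hlx, abs_of_pos (rpow_pos_of_pos hx0 _)] at hx
      have h3 : 2 * c5 * log x / x ≤ x ^ ((κ - K0) / κ) / x := by
        gcongr
        calc 2 * c5 * log x ≤ 2 * c5 * (1 / (2 * c5) * x ^ ((κ - K0) / κ)) := by gcongr
          _ = x ^ ((κ - K0) / κ) := by field_simp
      calc (2 * c5 * log x / x) ^ κ ≤ (x ^ ((κ - K0) / κ) / x) ^ κ := by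
            apply rpow_le_rpow (by positivity) h3 hκ.le
        _ = 1 / x ^ K0 := by
            rw [div_rpow (by positivity) hx0.le, ← rpow_mul hx0.le, div_mul_cancel₀ _ hκ.ne',
              rpow_sub hx0, rpow_natCast]
            field_simp
    exact hL.eventually h1
  -- L^{-κ} ≤ L^{-K0}
  have E5 : ∀ᶠ Y : ℕ in atTop, exp (-(κ * log (log (Y : ℝ)))) ≤ 1 / (log (Y : ℝ)) ^ K0 := by
    filter_upwards [hL.eventually_gt_atTop 1] with Y hY
    have h0 : 0 < log (Y : ℝ) := by linarith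
    have h1 : 0 < log (log (Y : ℝ)) := log_pos hY
    rw [le_div_iff₀ (by positivity), ← rpow_natCast, rpow_def_of_pos h0, ← Real.exp_add]
    apply Real.exp_le_one_iff.2
    nlinarith
  have E6 : ∀ᶠ Y : ℕ in atTop, exp (log (Y : ℝ) / 2) ≤ Y / (log (Y : ℝ)) ^ K0 := by
    have h1 : ∀ᶠ x : ℝ in atTop, x ^ K0 ≤ exp (x / 2) := by
      have h2 := (isLittleO_pow_exp_pos_mul_atTop (k := K0) (b := 1 / 2) (by norm_num)).def
        (c := 1) one_pos
      filter_upwards [h2, eventually_gt_atTop 1] with x hx hx1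
      rw [norm_eq_abs, norm_eq_abs, abs_of_pos (by positivity), abs_of_pos (exp_pos _), one_mul] at hx
      refine hx.trans (le_of_eq ?_)
      congr 1
      ring
    filter_upwards [hL.eventually h1, hL.eventually_gt_atTop 1, eventually_gt_atTop 0] with Y hY hY1 hY0
    have hYp : (0:ℝ) < Y := by exact_mod_cast hY0
    rw [le_div_iff₀ (by positivity)]
    calc exp (log (Y : ℝ) / 2) * log (Y : ℝ) ^ K0 ≤ exp (log (Y : ℝ) / 2) * exp (log (Y : ℝ) / 2) := by
          gcongr
      _ = Y := by rw [← Real.exp_add, add_halves, exp_log hYp]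
  refine ⟨exp C0 + 1 + exp 1, ?_⟩
  filter_upwards [E1, E2, E3, E4, E5, E6, hL.eventually_ge_atTop 1, eventually_gt_atTop 0] with
    Y h1 h2 h3 h4 h5 h6 h7 h8
  set L : ℝ := log (Y : ℝ) with hLdef
  set l : ℝ := log L with hldef
  have hYp : (0:ℝ) < Y := by exact_mod_cast h8
  have hLpos : 0 < L := by linarith
  have hlpos : 0 < l := by linarith
  set z : ℕ := ⌊zr Y⌋₊ with hz
  have hz_le : (z : ℝ) ≤ zr Y := Nat.floor_le (by linarith)
  have hz_ge : zr Y - 1 < z := by
    have := Nat.lt_floor_add_one (zr Y)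
    linarith
  have hz3 : 3 ≤ z := by
    have : (3 : ℝ) < (z : ℝ) + 1 := by linarith
    have : 3 < z + 1 := by exact_mod_cast this
    omega
  have hzpos : (0:ℝ) < z := by exact_mod_cast (by omega : 0 < z)
  have hzrY : zr Y = exp (L / (c5 * l)) := rfl
  have hlogzr : log (zr Y) = L / (c5 * l) := by rw [hzrY]; exact log_exp _
  have hsqrt : exp (L / (2 * c5 * l)) ≤ z := by
    have e1 : exp (L / (2 * c5 * l)) * exp (L / (2 * c5 * l)) = zr Y := by
      rw [← Real.exp_add, hzrY]
      congr 1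
      field_simp
      ring
    have e2 : 0 < exp (L / (2 * c5 * l)) := exp_pos _
    nlinarith [e1, e2, h1]
  have hlogz_ge : L / (2 * c5 * l) ≤ log z := by
    rw [le_log_iff_exp_le hzpos]
    exact hsqrt
  have hlogz_le : log z ≤ L / (c5 * l) := by
    rw [← hlogzr]
    exact log_le_log hzpos hz_le
  have hlogz_pos : 0 < log z := lt_of_lt_of_le (by positivity) hlogz_ge
  have hc5l : 1 ≤ c5 * l := by nlinarith
  have hloglogz : log (log z) ≤ l := by
    rw [hldef]
    apply log_le_log hlogz_pos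
    refine hlogz_le.trans ?_
    rw [div_le_iff₀ (by positivity)]
    nlinarith
  set m : ℕ := ⌈c4 * l⌉₊ with hm
  have hm_ge : c4 * l ≤ m := Nat.le_ceil _
  have hm_le : (m : ℝ) < c4 * l + 1 := Nat.ceil_lt_add_one (by positivity)
  have hc4l : 3 ≤ c4 * l := by nlinarith
  have h2m : (2 * m : ℝ) ≤ 3 * c4 * l := by linarith
  set P := PP z with hPdef
  have hPprime : ∀ p ∈ P, p.Prime := fun p hp => (mem_PP.1 hp).2
  set S : ℝ := ∑ p ∈ P, ((Ω p).card : ℝ) / p with hS
  have hS1 : κ * log (log z) - C0 ≤ S := hlow z hz3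
  have hS2 : S ≤ C1 * (l + 1) := (hup z hz3).trans (by gcongr)
  have hbrun := brun Ω hΩ Y P hPprime m
  have hsub : (((range Y).filter (fun n => ∀ p : ℕ, p.Prime → n % p ∉ Ω p)).card : ℝ) ≤
      (((range Y).filter (fun n => ∀ p ∈ P, n % p ∉ Ω p)).card : ℝ) := by
    have : ((range Y).filter (fun n => ∀ p : ℕ, p.Prime → n % p ∉ Ω p)).card ≤
      ((range Y).filter (fun n => ∀ p ∈ P, n % p ∉ Ω p)).card := by
      apply card_le_card
      intro n hn
      simp only [mem_filter] at hn ⊢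
      exact ⟨hn.1, fun p hp => hn.2 p (hPprime p hp)⟩
    exact_mod_cast this
  have hw0 : ∀ p ∈ P, 0 ≤ ((Ω p).card : ℝ) / p := fun p _ => div_nonneg (Nat.cast_nonneg _) (Nat.cast_nonneg _)
  -- main product
  have hprod : ∏ p ∈ P, (1 - ((Ω p).card : ℝ) / p) ≤ exp C0 * (1 / L ^ K0) := by
    have a1 : ∏ p ∈ P, (1 - ((Ω p).card : ℝ) / p) ≤ exp (-S) := by
      rw [hS, ← sum_neg_distrib, Real.exp_sum]
      apply Finset.prod_le_prod
      · intro p hp
        have hp0 : (0 : ℝ) < p := by exact_mod_cast (hPprime p hp).pos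
        rw [sub_nonneg, div_le_one hp0]
        have := card_le_card (hΩ p)
        rw [card_range] at this
        exact_mod_cast this
      · intro p _
        have := Real.add_one_le_exp (-(((Ω p).card : ℝ) / p))
        linarith
    refine a1.trans ?_
    calc exp (-S) ≤ exp (C0 + -(κ * log (log z))) := by
          apply Real.exp_le_exp.2; linarith
      _ = exp C0 * (log z) ^ (-κ) := by
          rw [Real.exp_add, rpow_def_of_pos hlogz_pos]
          congr 2
          ring
      _ ≤ exp C0 * (L / (2 * c5 * l)) ^ (-κ) := by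
          gcongr 1
          exact rpow_le_rpow_of_nonpos (by positivity) hlogz_ge (by linarith)
      _ = exp C0 * (2 * c5 * l / L) ^ κ := by
          rw [rpow_neg (by positivity), ← inv_rpow (by positivity), inv_div]
      _ ≤ exp C0 * (1 / L ^ K0) := by gcongr
  -- tail
  have htail : esy P (fun p => ((Ω p).card : ℝ) / p) (2 * m + 1) ≤ 1 / L ^ K0 := by
    have a1 := esy_le_single P (fun p => ((Ω p).card : ℝ) / p) hw0 (2 * m + 1) (exp 2) (exp_pos _).le
    rw [← Real.exp_nat_mul] at a1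
    have a2 : esy P (fun p => ((Ω p).card : ℝ) / p) (2 * m + 1) ≤
        exp (exp 2 * S - ((2 * m + 1 : ℕ) : ℝ) * 2) := by
      rw [Real.exp_sub, le_div_iff₀ (exp_pos _), mul_comm]
      exact a1
    refine a2.trans (le_trans ?_ h5)
    apply Real.exp_le_exp.2
    push_cast
    have b1 : exp 2 * S ≤ exp 2 * C1 * (l + 1) := by
      have := mul_le_mul_of_nonneg_left hS2 (exp_pos 2).le
      linarith
    have b2 : exp 2 * C1 * (l + 1) ≤ (c4 - 1) * (2 * l) := by
      have : 0 < exp 2 * C1 := by positivity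
      nlinarith
    nlinarith
  -- error
  have herr : ∑ j ∈ range (2 * m + 1), esy P (fun p => ((Ω p).card : ℝ)) j ≤ exp 1 * (Y / L ^ K0) := by
    set H : ℝ := ∑ p ∈ P, ((Ω p).card : ℝ) with hH
    have hh0 : ∀ p ∈ P, (0:ℝ) ≤ ((Ω p).card : ℝ) := fun p _ => Nat.cast_nonneg _
    have hH0 : 0 ≤ H := sum_nonneg hh0
    have a3 := esy_sum_le P (fun p => ((Ω p).card : ℝ)) hh0 (2 * m)
    rw [← hH] at a3
    have a5 : 1 + H ≤ 2 * (Kb + 1) * zr Y := by
      have b1 : H ≤ (z : ℝ) * Kb + Kb := by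
        have c1 : H ≤ (P.card : ℝ) * Kb := by
          rw [hH, ← nsmul_eq_mul]
          apply sum_le_card_nsmul
          intro p _
          exact_mod_cast hK p
        have c2 : (P.card : ℝ) ≤ z + 1 := by
          have : P.card ≤ z + 1 := by
            rw [hPdef, PP]
            refine (card_filter_le _ _).trans ?_
            rw [card_range]
          exact_mod_cast this
        have : (0:ℝ) ≤ Kb := Nat.cast_nonneg _
        nlinarith
      have b2 : (0:ℝ) ≤ Kb := Nat.cast_nonneg _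
      nlinarith
    have hKbpos : (0:ℝ) < 2 * ((Kb : ℝ) + 1) := by
      have b2 : (0:ℝ) ≤ Kb := Nat.cast_nonneg _
      linarith
    have a6 : (1 + H) ^ (2 * m) ≤ exp (L / 2) := by
      calc (1 + H) ^ (2 * m) ≤ (2 * (Kb + 1) * zr Y) ^ (2 * m) := pow_le_pow_left₀ (by linarith) a5 _
        _ = exp (((2 * m : ℕ) : ℝ) * (log (2 * (Kb + 1)) + L / (c5 * l))) := by
            rw [Real.exp_nat_mul, Real.exp_add, exp_log hKbpos, hzrY]
        _ ≤ exp (L / 2) := by
            apply Real.exp_le_exp.2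
            push_cast
            have hlk : 0 ≤ log (2 * ((Kb : ℝ) + 1)) := log_nonneg (by nlinarith [Nat.cast_nonneg (α := ℝ) Kb])
            have c1 : (2 * (m:ℝ)) * log (2 * ((Kb : ℝ) + 1)) ≤ L / 8 := by
              refine le_trans ?_ h3
              exact mul_le_mul_of_nonneg_right h2m hlk
            have c2 : (2 * (m:ℝ)) * (L / (c5 * l)) ≤ L / 4 := by
              have : (2 * (m:ℝ)) * (L / (c5 * l)) ≤ (3 * c4 * l) * (L / (c5 * l)) :=
                mul_le_mul_of_nonneg_right h2m (div_nonneg hLpos.le (mul_nonneg hc5pos.le hlpos.le))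
              refine this.trans (le_of_eq ?_)
              rw [hc5]
              field_simp
              ring
            have : (2 * (m:ℝ)) * (log (2 * ((Kb : ℝ) + 1)) + L / (c5 * l)) =
              (2 * (m:ℝ)) * log (2 * ((Kb : ℝ) + 1)) + (2 * (m:ℝ)) * (L / (c5 * l)) := by ring
            rw [this]
            linarith
    calc ∑ j ∈ range (2 * m + 1), esy P (fun p => ((Ω p).card : ℝ)) j ≤ (1 + H) ^ (2 * m) * exp 1 := a3
      _ ≤ exp (L / 2) * exp 1 := mul_le_mul_of_nonneg_right a6 (exp_pos 1).le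
      _ ≤ (Y / L ^ K0) * exp 1 := mul_le_mul_of_nonneg_right h6 (exp_pos 1).le
      _ = _ := mul_comm _ _
  calc (((range Y).filter (fun n => ∀ p : ℕ, p.Prime → n % p ∉ Ω p)).card : ℝ)
      ≤ (Y : ℝ) * (exp C0 * (1 / L ^ K0) + 1 / L ^ K0) + exp 1 * (Y / L ^ K0) := by
        refine hsub.trans (hbrun.trans ?_)
        exact add_le_add (mul_le_mul_of_nonneg_left (add_le_add hprod htail) hYp.le) herr
    _ = (exp C0 + 1 + exp 1) * Y / L ^ K0 := by ring

end Pool.Agent.Helper27.IS
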