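import Pool.Agent.Helper27.IS.Miss
import Pool.Agent.Helper27.IS.Sieve
import Pool.Agent.Helper27.IS.Classes

/-!
# The core estimate
-/

set_option autoImplicit false

namespace Pool.Agent.Helper27.IS

open Finset Filter Real
open scoped NumberTheorySymbols

open scoped Classical in
/-- The average of `2 t - L` over the reduced residue classes. -/
theorem average (α β : ℤ) (F : Finset ℕ) (L K : ℕ) (hL : 1 ≤ L) (hFc : F.card = K + L)
    (hFns : ∀ f ∈ F, ¬ IsSquare (α * (f : ℤ) + β)) (M : ℕ) [NeZero M]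
    (hM : ∀ f ∈ F, 4 * (α * (f : ℤ) + β).natAbs ∣ M) (hM2 : Even M) :
    ((K : ℝ) * M.totient + 1) ≤ ∑ a ∈ (univ : Finset (ZMod M)).filter (fun a => IsUnit a),
      ((2 * tt α β F a.val - L : ℕ) : ℝ) := by
  have hsum : ∀ f : ZMod M → ℝ, ∑ a ∈ (univ : Finset (ZMod M)).filter (fun a => IsUnit a), f a =
      ∑ v : (ZMod M)ˣ, f v := by
    intro f
    symm
    refine sum_bij (fun v _ => (v : ZMod M)) ?_ ?_ ?_ ?_
    · intro v _
      rw [mem_filter]
      exact ⟨mem_univ _, v.isUnit⟩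
    · intro v _ w _ h
      exact Units.ext h
    · intro a ha
      obtain ⟨v, hv⟩ := (mem_filter.1 ha).2
      exact ⟨v, mem_univ _, hv⟩
    · intro v _
      rfl
  rw [hsum]
  have hodd : ∀ v : (ZMod M)ˣ, Odd (v : ZMod M).val := by
    intro v
    have h1 : (v : ZMod M).val.Coprime M := ZMod.val_coe_unit_coprime v
    have h2 : (v : ZMod M).val.Coprime 2 := h1.coprime_dvd_right (even_iff_two_dvd.1 hM2)
    exact Nat.coprime_two_right.1 h2
  -- the Jacobi symbols are ±1
  have hpm : ∀ v : (ZMod M)ˣ, ∀ f ∈ F, J(α * f + β | (v : ZMod M).val) = 1 ∨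
      J(α * f + β | (v : ZMod M).val) = -1 := by
    intro v f hf
    rcases jacobiSym.trichotomy (α * f + β) (v : ZMod M).val with h | h | h
    · exfalso
      have hne : NeZero (v : ZMod M).val := ⟨by
        have := hodd v
        intro h0
        rw [h0] at this
        simp at this⟩
      rw [jacobiSym.eq_zero_iff_not_coprime] at h
      apply h
      have h1 : (v : ZMod M).val.Coprime M := ZMod.val_coe_unit_coprime v
      have h2 : (v : ZMod M).val.Coprime (α * (f : ℤ) + β).natAbs :=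
        h1.coprime_dvd_right ((Dvd.intro_left _ rfl).trans (hM f hf))
      exact h2.symm
    · left; exact h
    · right; exact h
  have htt : ∀ v : (ZMod M)ˣ, (2 * (tt α β F (v : ZMod M).val : ℤ)) =
      (K + L : ℤ) - ∑ f ∈ F, J(α * f + β | (v : ZMod M).val) := by
    intro v
    have h1 : (tt α β F (v : ZMod M).val : ℤ) = ∑ f ∈ F, if J(α * f + β | (v : ZMod M).val) = -1 then (1:ℤ) else 0 := by
      unfold tt
      rw [card_filter]
      push_cast
      rfl
    have h2 : (K + L : ℤ) = ∑ f ∈ F, (1 : ℤ) := by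
      rw [sum_const, hFc]
      simp
    rw [h1, h2, mul_sum, ← sum_sub_distrib]
    apply sum_congr rfl
    intro f hf
    rcases hpm v f hf with h | h <;> rw [h] <;> norm_num
  have hzero : ∀ f ∈ F, ∑ v : (ZMod M)ˣ, J(α * f + β | (v : ZMod M).val) = 0 := by
    intro f hf
    apply sum_units_jacobi
    · intro h0
      exact hFns f hf (by rw [h0]; exact ⟨0, by simp⟩)
    · exact hFns f hf
    · exact hM f hf
  have htot : ∑ v : (ZMod M)ˣ, (2 * (tt α β F (v : ZMod M).val : ℤ)) = (K + L) * M.totient := by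
    rw [sum_congr rfl fun v _ => htt v, sum_sub_distrib, sum_comm, sum_eq_zero hzero, sum_const,
      card_univ, ZMod.card_units_eq_totient]
    simp
    ring
  have hone : tt α β F ((1 : (ZMod M)ˣ) : ZMod M).val = 0 := by
    unfold tt
    rw [card_eq_zero, filter_eq_empty_iff]
    intro f hf h
    have hM1 : 1 < M := by
      have hMpos : 0 < M := Nat.pos_of_ne_zero (NeZero.ne M)
      obtain ⟨k, hk⟩ := hM2
      omega
    have : Fact (1 < M) := ⟨hM1⟩
    rw [Units.val_one, ZMod.val_one, jacobiSym.one_right] at h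
    norm_num at h
  have hcardu : (∑ v : (ZMod M)ˣ, (1 : ℤ)) = M.totient := by
    rw [sum_const, card_univ, ZMod.card_units_eq_totient]
    simp
  have key : (K : ℤ) * M.totient + 1 ≤ ∑ v : (ZMod M)ˣ, ((2 * tt α β F (v : ZMod M).val - L : ℕ) : ℤ) := by
    have h1 : ∀ v : (ZMod M)ˣ, (2 * (tt α β F (v : ZMod M).val : ℤ)) - L * 1 + (if v = 1 then 1 else 0) ≤
        ((2 * tt α β F (v : ZMod M).val - L : ℕ) : ℤ) := by
      intro v
      split_ifs with hv
      · rw [hv, hone]
        push_cast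
        omega
      · omega
    have h2 := sum_le_sum (fun (v : (ZMod M)ˣ) (_ : v ∈ univ) => h1 v)
    rw [sum_add_distrib, sum_sub_distrib, htot, ← mul_sum, hcardu, sum_ite_eq' univ (1 : (ZMod M)ˣ)] at h2
    simp only [mem_univ, if_true] at h2
    linarith
  exact_mod_cast key

open scoped Classical in
theorem core (A : Set ℕ) (α β : ℤ) (hα : α ≠ 0) (L K : ℕ) (hL : 1 ≤ L) (P : ℕ)
    (hA : ∀ p : ℕ, p.Prime → P ≤ p → 2 * ((fun a : ℕ => (a : ZMod p)) '' A).ncard ≤ p + L)
    (F : Finset ℕ) (hF : ∀ f ∈ F, f ∈ A) (hFc : F.card = K + L)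
    (hFns : ∀ f ∈ F, ¬ IsSquare (α * (f : ℤ) + β)) :
    ∃ C : ℝ, ∀ᶠ Y : ℕ in atTop,
      (((range Y).filter (fun m : ℕ => ∃ a ∈ A, (m : ℤ) ^ 2 = α * a + β)).card : ℝ) ≤
        C * Y / (log Y) ^ K := by
  -- the modulus
  set M : ℕ := 4 * ∏ f ∈ F, (α * (f : ℤ) + β).natAbs with hMdef
  have hu0 : ∀ f ∈ F, α * (f : ℤ) + β ≠ 0 := by
    intro f hf h0
    exact hFns f hf (by rw [h0]; exact ⟨0, by simp⟩)
  have hM0 : M ≠ 0 := by
    rw [hMdef]
    apply mul_ne_zero (by norm_num)
    rw [prod_ne_zero_iff]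
    intro f hf
    exact Int.natAbs_ne_zero.2 (hu0 f hf)
  have : NeZero M := ⟨hM0⟩
  have hMd : ∀ f ∈ F, 4 * (α * (f : ℤ) + β).natAbs ∣ M := by
    intro f hf
    exact mul_dvd_mul_left 4 (dvd_prod_of_mem _ hf)
  have hM2 : Even M := by
    rw [hMdef, even_iff_two_dvd]
    exact Dvd.intro (2 * ∏ f ∈ F, (α * (f : ℤ) + β).natAbs) (by ring)
  -- the threshold
  set P1 : ℕ := P + M + α.natAbs + ∑ f ∈ F, f + 2 with hP1
  have hex : ∀ p : ℕ, p.Prime → P1 < p → ∃ Ω : Finset ℕ, Ω ⊆ range p ∧ Ω.card = 2 * tt α β F p - L ∧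
      ∀ m : ℕ, (∃ a ∈ A, (m : ℤ) ^ 2 = α * a + β) → m % p ∉ Ω := by
    intro p hp hpP
    apply exists_missed A α β F hF L p hp
    · intro h
      have := Int.natAbs_dvd_natAbs.2 h
      rw [Int.natAbs_natCast] at this
      have := Nat.le_of_dvd (Int.natAbs_pos.2 hα) this
      omega
    · intro f hf
      have := single_le_sum (f := fun f : ℕ => f) (fun i _ => Nat.zero_le i) hf
      omega
    · exact hA p hp (by omega)
  choose! Ω0 hΩ0 using hex
  set Ω : ℕ → Finset ℕ := fun p => if p.Prime ∧ P1 < p then Ω0 p else ∅ with hΩdef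
  have hΩyes : ∀ p : ℕ, p.Prime → P1 < p → Ω p = Ω0 p := by
    intro p hp hpP
    rw [hΩdef]
    simp only
    rw [if_pos ⟨hp, hpP⟩]
  have hΩno : ∀ p : ℕ, ¬ (p.Prime ∧ P1 < p) → Ω p = ∅ := by
    intro p hp
    rw [hΩdef]
    simp only
    rw [if_neg hp]
  have htt : ∀ p, tt α β F p ≤ K + L := by
    intro p
    unfold tt
    exact (card_filter_le _ _).trans hFc.le
  have hΩsub : ∀ p, Ω p ⊆ range p := by
    intro p
    by_cases hp : p.Prime ∧ P1 < p
    · rw [hΩyes p hp.1 hp.2]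
      exact (hΩ0 p hp.1 hp.2).1
    · rw [hΩno p hp]
      exact empty_subset _
  have hΩK : ∀ p, (Ω p).card ≤ 2 * (K + L) := by
    intro p
    by_cases hp : p.Prime ∧ P1 < p
    · rw [hΩyes p hp.1 hp.2, (hΩ0 p hp.1 hp.2).2.1]
      have := htt p
      omega
    · rw [hΩno p hp]
      simp
  set g : ℕ → ℝ := fun p => ((Ω p).card : ℝ) with hg
  have hg0 : ∀ n, 0 ≤ g n := fun n => Nat.cast_nonneg _
  have hg00 : g 0 = 0 := by
    rw [hg]
    simp only
    rw [hΩno 0 (by intro h; exact Nat.not_prime_zero h.1)]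
    simp
  have hgnp : ∀ p, ¬ p.Prime → g p = 0 := by
    intro p hp
    rw [hg]
    simp only
    rw [hΩno p (by intro h; exact hp h.1)]
    simp
  set H : ZMod M → ℕ := fun a => 2 * tt α β F a.val - L with hH
  have hgH : ∀ p : ℕ, p.Prime → P1 < p → (H (p : ZMod M) : ℝ) ≤ g p := by
    intro p hp hpP
    rw [hg, hH]
    simp only
    rw [hΩyes p hp hpP, (hΩ0 p hp hpP).2.1, ZMod.val_natCast]
    have hpodd : Odd p := hp.odd_of_ne_two (by omega)
    have : tt α β F (p % M) = tt α β F p := by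
      unfold tt
      congr 1
      apply filter_congr
      intro f hf
      rw [jacobi_mod (hMd f hf) hM2 hpodd]
    rw [this]
  have htot0 : (0:ℝ) < M.totient := by
    exact_mod_cast Nat.totient_pos.2 (Nat.pos_of_ne_zero hM0)
  set c : ℝ := K + 1 / (2 * M.totient) with hc
  have hcK : (K : ℝ) < c := by
    rw [hc]
    have : (0:ℝ) < 1 / (2 * M.totient) := by positivity
    linarith
  have hc0 : 0 < c := lt_of_le_of_lt (Nat.cast_nonneg K) hcK
  have hcavg : c < (∑ a ∈ (univ : Finset (ZMod M)).filter (fun a => IsUnit a), (H a : ℝ)) / (M.totient : ℝ) := by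
    rw [lt_div_iff₀ htot0]
    have h1 := average α β F L K hL hFc hFns M hMd hM2
    have h2 : c * M.totient = K * M.totient + 1 / 2 := by
      rw [hc]
      field_simp
    rw [h2]
    refine lt_of_lt_of_le ?_ h1
    linarith
  have hlow1 := count_lower M H g hg0 P1 hgH c hcavg
  obtain ⟨C0, hC0⟩ := sum_lower g hg0 hg00 c hc0.le hlow1
  have hup1 := count_upper g (2 * (K + L)) (fun p _ => by
    rw [hg]
    simp only
    exact_mod_cast hΩK p) hgnp
  obtain ⟨C1, hC1pos, hC1⟩ := sum_upper g hg0 hg00 (2 * (2 * (K + L) : ℕ)) (by positivity) hup1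
  have hPP : ∀ z : ℕ, ∑ p ∈ PP z, ((Ω p).card : ℝ) / p = ∑ i ∈ range (z + 1), g i / i := by
    intro z
    unfold PP
    rw [sum_filter]
    apply sum_congr rfl
    intro i _
    split_ifs with hi
    · rfl
    · rw [hgnp i hi, zero_div]
  obtain ⟨C, hC⟩ := sieve_bound Ω hΩsub (2 * (K + L)) hΩK c C0 C1 hc0 hC1pos
    (fun z hz => by rw [hPP]; exact hC0 z hz) (fun z hz => by rw [hPP]; exact hC1 z hz) K hcK
  refine ⟨C, ?_⟩
  filter_upwards [hC] with Y hY
  refine le_trans ?_ hY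
  have : ((range Y).filter (fun m : ℕ => ∃ a ∈ A, (m : ℤ) ^ 2 = α * a + β)) ⊆
      ((range Y).filter (fun n => ∀ p : ℕ, p.Prime → n % p ∉ Ω p)) := by
    intro m hm
    rw [mem_filter] at hm ⊢
    refine ⟨hm.1, ?_⟩
    intro p hp
    by_cases hpP : P1 < p
    · rw [hΩyes p hp hpP]
      exact (hΩ0 p hp hpP).2.2 m hm.2
    · rw [hΩno p (fun h => hpP h.2)]
      simp
  exact_mod_cast card_le_card this

end Pool.Agent.Helper27.IS
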