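import Pool.Agent.Helper27.IS.Primes

/-!
# Sums of `log p / p` with weights
-/

set_option autoImplicit false

namespace Pool.Agent.Helper27.IS

open Finset Filter Real

theorem log_lower (g : ℕ → ℝ) (hg : ∀ n, 0 ≤ g n) (h0 : g 0 = 0) (c : ℝ) (hc : 0 ≤ c)
    (h : ∀ᶠ n : ℕ in atTop, c * n ≤ ∑ i ∈ range (n + 1), g i) :
    ∃ C : ℝ, 0 ≤ C ∧ ∀ N : ℕ, 1 ≤ N → c * log N - C ≤ ∑ i ∈ range (N + 1), g i / i := by
  obtain ⟨n0, hn0⟩ := eventually_atTop.1 h
  set n1 := max n0 1 with hn1
  have hsum : ∀ N : ℕ, n1 ≤ N → c * (log ((N:ℝ) + 1) - log ((n1 : ℝ) + 1)) ≤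
      ∑ n ∈ range N, (∑ i ∈ range (n + 1), g i) / (n * (n + 1)) := by
    intro N hN
    induction N, hN using Nat.le_induction with
    | base =>
      rw [sub_self, mul_zero]
      apply sum_nonneg
      intro n _
      exact div_nonneg (sum_nonneg fun i _ => hg i) (by positivity)
    | succ N hN ih =>
      rw [sum_range_succ]
      have hN1 : 1 ≤ N := le_trans (le_max_right _ _) hN
      have hNn0 : n0 ≤ N := le_trans (le_max_left _ _) hN
      have hNr : (1:ℝ) ≤ N := by exact_mod_cast hN1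
      have h1 := hn0 N hNn0
      have h2 : log ((N:ℝ) + 1 + 1) - log ((N:ℝ) + 1) ≤ 1 / ((N:ℝ) + 1) := by
        rw [← log_div (by positivity) (by positivity)]
        have e : ((N:ℝ) + 1 + 1) / ((N:ℝ) + 1) = 1 / ((N:ℝ) + 1) + 1 := by field_simp; ring
        rw [e]
        have := log_le_sub_one_of_pos (x := 1 / ((N:ℝ) + 1) + 1) (by positivity)
        linarith
      have h4 : c * (1 / ((N:ℝ) + 1)) ≤ (∑ i ∈ range (N + 1), g i) / (N * (N + 1)) := by
        rw [le_div_iff₀ (by positivity)]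
        calc c * (1 / ((N:ℝ) + 1)) * (N * (N + 1)) = c * N := by field_simp
          _ ≤ _ := h1
      push_cast
      nlinarith [mul_le_mul_of_nonneg_left h2 hc]
  refine ⟨c * log ((n1 : ℝ) + 1), ?_, ?_⟩
  · apply mul_nonneg hc
    apply log_nonneg
    have : (0:ℝ) ≤ n1 := Nat.cast_nonneg _
    linarith
  intro N hN
  by_cases hNn : n1 + 1 ≤ N
  · obtain ⟨N', rfl⟩ : ∃ N', N = N' + 1 := ⟨N - 1, by omega⟩
    have h1 := abel g h0 N'
    have h2 := hsum (N' + 1) (by omega)
    rw [h1]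
    have h3 : 0 ≤ (∑ i ∈ range (N' + 2), g i) / ((N':ℝ) + 1) :=
      div_nonneg (sum_nonneg fun i _ => hg i) (by positivity)
    have h4 : log (((N' + 1 : ℕ)):ℝ) ≤ log ((((N' + 1 : ℕ)):ℝ) + 1) := by
      apply log_le_log (by positivity)
      linarith
    have h5 := mul_le_mul_of_nonneg_left h4 hc
    rw [mul_sub] at h2
    linarith
  · push Not at hNn
    have h1 : log (N : ℝ) ≤ log ((n1 : ℝ) + 1) := by
      apply log_le_log
      · exact_mod_cast hN
      · exact_mod_cast (by omega : N ≤ n1 + 1)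
    have h2 : 0 ≤ ∑ i ∈ range (N + 1), g i / i := sum_nonneg fun i _ => div_nonneg (hg i) (Nat.cast_nonneg _)
    have h5 := mul_le_mul_of_nonneg_left h1 hc
    linarith

open scoped Classical in
theorem theta_weight (M : ℕ) [NeZero M] (b : ZMod M) (hb : IsUnit b) (w0 w1 : ℝ) (hw0 : 0 ≤ w0)
    (hw1 : 0 ≤ w1) (P0 : ℕ) (c : ℝ) (hc : c < w0 + w1 / (M.totient : ℝ)) (g : ℕ → ℝ)
    (hg0 : ∀ n, 0 ≤ g n)
    (hgl : ∀ p : ℕ, p.Prime → P0 ≤ p →
      w0 * log p + (if (p : ZMod M) = b then w1 * log p else 0) ≤ g p) :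
    ∀ᶠ n : ℕ in atTop, c * n ≤ ∑ i ∈ range (n + 1), g i := by
  have ht1 := (Pool.Agent.Helper6.theta_ap (q := 1) (a := 1) isUnit_one).comp tendsto_natCast_atTop_atTop
  have ht2 := (Pool.Agent.Helper6.theta_ap hb).comp tendsto_natCast_atTop_atTop
  set K0 : ℝ := ∑ p ∈ range P0, (w0 + w1) * log p with hK0
  have hlogn : Tendsto (fun n : ℕ => K0 / (n : ℝ)) atTop (nhds 0) :=
    tendsto_const_div_atTop_nhds_zero_nat K0
  have hlim := ((ht1.const_mul w0).add (ht2.const_mul w1)).sub hlogn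
  simp only [Nat.totient_one, Nat.cast_one, div_one, sub_zero, mul_one] at hlim
  rw [← div_eq_mul_one_div] at hlim
  have hev := hlim.eventually (lt_mem_nhds hc)
  filter_upwards [hev, eventually_ge_atTop 1] with n hn hn1
  have hn0 : (0:ℝ) < n := by exact_mod_cast (by omega : 0 < n)
  simp only [Function.comp_apply, Nat.floor_natCast] at hn
  set S1 : Finset ℕ := (Finset.Icc 1 n).filter (fun p : ℕ => p.Prime ∧ (p : ZMod 1) = 1) with hS1
  set S2 : Finset ℕ := (Finset.Icc 1 n).filter (fun p : ℕ => p.Prime ∧ (p : ZMod M) = b) with hS2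
  have h1 : c * n < w0 * ∑ p ∈ S1, log (p : ℝ) + w1 * ∑ p ∈ S2, log (p : ℝ) - K0 := by
    have h2 := mul_lt_mul_of_pos_right hn hn0
    have h3 : (w0 * ((∑ p ∈ S1, log (p : ℝ)) / n) + w1 * ((∑ p ∈ S2, log (p : ℝ)) / n) - K0 / n) * n =
        w0 * ∑ p ∈ S1, log (p : ℝ) + w1 * ∑ p ∈ S2, log (p : ℝ) - K0 := by
      field_simp
    rw [h3] at h2
    exact h2
  have h2 : w0 * ∑ p ∈ S1, log (p : ℝ) + w1 * ∑ p ∈ S2, log (p : ℝ) =
      ∑ p ∈ (range (n + 1)).filter Nat.Prime, (w0 * log (p : ℝ) + if (p : ZMod M) = b then w1 * log (p : ℝ) else 0) := by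
    rw [sum_add_distrib, ← sum_filter, mul_sum, mul_sum]
    congr 1
    · apply sum_congr _ fun _ _ => rfl
      ext p
      simp only [hS1, mem_filter, mem_Icc, mem_range]
      constructor
      · rintro ⟨⟨h1, h2⟩, hp, _⟩
        exact ⟨by omega, hp⟩
      · rintro ⟨h1, hp⟩
        exact ⟨⟨hp.one_lt.le, by omega⟩, hp, Subsingleton.elim _ _⟩
    · apply sum_congr _ fun _ _ => rfl
      ext p
      simp only [hS2, mem_filter, mem_Icc, mem_range]
      constructor
      · rintro ⟨⟨h1, h2⟩, hp, hpb⟩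
        exact ⟨⟨by omega, hp⟩, hpb⟩
      · rintro ⟨⟨h1, hp⟩, hpb⟩
        exact ⟨⟨hp.one_lt.le, by omega⟩, hp, hpb⟩
  have hterm : ∀ p : ℕ, (w0 * log (p : ℝ) + if (p : ZMod M) = b then w1 * log (p : ℝ) else 0) ≤ (w0 + w1) * log p := by
    intro p
    have hlp : 0 ≤ log (p : ℝ) := log_natCast_nonneg _
    split_ifs
    · linarith
    · rw [add_mul]
      have := mul_nonneg hw1 hlp
      linarith
  have h3 : ∑ p ∈ (range (n + 1)).filter Nat.Prime, (w0 * log (p : ℝ) + if (p : ZMod M) = b then w1 * log (p : ℝ) else 0) ≤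
      ∑ i ∈ range (n + 1), g i + K0 := by
    rw [← sum_filter_add_sum_filter_not ((range (n + 1)).filter Nat.Prime) (fun p => P0 ≤ p)]
    apply add_le_add
    · calc _ ≤ ∑ p ∈ ((range (n + 1)).filter Nat.Prime).filter (fun p => P0 ≤ p), g p := by
            apply sum_le_sum
            intro p hp
            rw [mem_filter, mem_filter] at hp
            exact hgl p hp.1.2 hp.2
        _ ≤ _ := by
            apply sum_le_sum_of_subset_of_nonneg
            · exact (filter_subset _ _).trans (filter_subset _ _)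
            · intro i _ _
              exact hg0 i
    · calc _ ≤ ∑ p ∈ ((range (n + 1)).filter Nat.Prime).filter (fun p => ¬ P0 ≤ p), (w0 + w1) * log (p : ℝ) :=
            sum_le_sum fun p _ => hterm p
        _ ≤ K0 := by
            rw [hK0]
            apply sum_le_sum_of_subset_of_nonneg
            · intro p hp
              rw [mem_filter] at hp
              rw [mem_range]
              omega
            · intro i _ _
              exact mul_nonneg (add_nonneg hw0 hw1) (log_natCast_nonneg _)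
  linarith

end Pool.Agent.Helper27.IS
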