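import Pool.Agent.Helper27.IS.Larger
import Pool.Agent.Helper27.IS.LogSum

/-!
# A power saving from one residue class of primes
-/

set_option autoImplicit false

namespace Pool.Agent.Helper27.IS

open Finset Filter Real

open scoped Classical in
theorem power_saving (A : Set ℕ) (M : ℕ) [NeZero M] (b : ZMod M) (hb : IsUnit b) (P1 : ℕ) (κ : ℝ)
    (hκ0 : 0 < κ) (hκ1 : κ < 1 / 2)
    (hgen : ∀ p : ℕ, p.Prime → P1 ≤ p →
      ((((fun a : ℕ => (a : ZMod p)) '' A).ncard : ℝ) ≤ ((p : ℝ) + 1) / 2))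
    (hspec : ∀ p : ℕ, p.Prime → P1 ≤ p → (p : ZMod M) = b →
      ((((fun a : ℕ => (a : ZMod p)) '' A).ncard : ℝ) ≤ (1 / 2 - κ) * p)) :
    ∃ η : ℝ, 0 < η ∧ ∃ C : ℝ, ∀ X : ℕ, 2 ≤ X →
      ((A ∩ Set.Icc 1 X).ncard : ℝ) ≤ C * (X : ℝ) ^ (1 / 2 - η) := by
  have hφ : (1:ℝ) ≤ M.totient := by
    exact_mod_cast Nat.totient_pos.2 (Nat.pos_of_ne_zero (NeZero.ne M))
  have hφ0 : (0:ℝ) < M.totient := by linarith
  set e : ℝ := κ / M.totient with he
  have he0 : 0 < e := by positivity
  have heκ : e ≤ κ := div_le_self hκ0.le hφ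
  set w0 : ℝ := 2 / (1 + e) with hw0
  set w1 : ℝ := 2 / (1 - 2 * κ) - 2 / (1 + e) with hw1
  have h12κ : 0 < 1 - 2 * κ := by linarith
  have hw0' : 2 - 2 * e ≤ w0 := by
    rw [hw0, le_div_iff₀ (by linarith)]
    nlinarith
  have hw1' : 4 * κ ≤ w1 := by
    have h1 : 2 + 4 * κ ≤ 2 / (1 - 2 * κ) := by
      rw [le_div_iff₀ h12κ]
      nlinarith
    have h2 : 2 / (1 + e) ≤ 2 := by
      rw [div_le_iff₀ (by linarith)]
      nlinarith
    rw [hw1]
    linarith
  have hw00 : 0 ≤ w0 := by positivity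
  have hw10 : 0 ≤ w1 := by linarith
  set c : ℝ := 2 + e with hc
  have hclt : c < w0 + w1 / M.totient := by
    have h1 : 4 * e ≤ w1 / M.totient := by
      rw [le_div_iff₀ hφ0, he]
      calc 4 * (κ / M.totient) * M.totient = 4 * κ := by field_simp
        _ ≤ w1 := hw1'
    rw [hc]
    linarith
  set P0 : ℕ := max (max P1 2) ⌈1 / e⌉₊ with hP0
  set ν : ℕ → ℝ := fun p => if (p : ZMod M) = b then (1 / 2 - κ) * p else (1 + e) * p / 2 with hν
  have hνpos : ∀ p : ℕ, 0 < p → 0 < ν p := by
    intro p hp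
    have hpr : (0:ℝ) < p := by exact_mod_cast hp
    rw [hν]
    simp only
    split_ifs
    · apply mul_pos _ hpr
      linarith
    · positivity
  have hνA : ∀ p : ℕ, p.Prime → P0 ≤ p → ((((fun a : ℕ => (a : ZMod p)) '' A).ncard : ℝ) ≤ ν p) := by
    intro p hp hpP
    have hP1p : P1 ≤ p := le_trans (le_trans (le_max_left _ _) (le_max_left _ _)) hpP
    have hep : 1 ≤ e * p := by
      have h1 : 1 / e ≤ p := by
        calc 1 / e ≤ ⌈1 / e⌉₊ := Nat.le_ceil _
          _ ≤ p := by exact_mod_cast le_trans (le_max_right _ _) hpP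
      rw [div_le_iff₀ he0] at h1
      linarith
    rw [hν]
    simp only
    split_ifs with h
    · exact hspec p hp hP1p h
    · refine (hgen p hp hP1p).trans ?_
      nlinarith
  set g : ℕ → ℝ := fun p => if p.Prime ∧ P0 ≤ p then (p : ℝ) * (log p / ν p) else 0 with hg
  have hg0 : ∀ n, 0 ≤ g n := by
    intro n
    rw [hg]
    simp only
    split_ifs with h
    · have := hνpos n h.1.pos
      have h2 : 0 ≤ log (n : ℝ) := log_natCast_nonneg _
      positivity
    · exact le_refl _
  have hg00 : g 0 = 0 := by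
    rw [hg]
    simp
  have hgl : ∀ p : ℕ, p.Prime → P0 ≤ p →
      w0 * log p + (if (p : ZMod M) = b then w1 * log p else 0) ≤ g p := by
    intro p hp hpP
    have hpr : (0:ℝ) < p := by exact_mod_cast hp.pos
    have hgp : g p = (p : ℝ) * (log p / ν p) := by
      rw [hg]
      simp only
      rw [if_pos ⟨hp, hpP⟩]
    rw [hgp]
    by_cases h : (p : ZMod M) = b
    · have hνp : ν p = (1 / 2 - κ) * p := by
        rw [hν]
        simp only
        rw [if_pos h]
      rw [hνp, if_pos h]
      apply le_of_eq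
      rw [hw0, hw1]
      have h2 : (1 - 2 * κ) ≠ 0 := h12κ.ne'
      have h3 : (1 + e) ≠ 0 := by positivity
      have h4 : (p : ℝ) * (log p / ((1 / 2 - κ) * p)) = 2 / (1 - 2 * κ) * log p := by
        have : (1 / 2 - κ) = (1 - 2 * κ) / 2 := by ring
        rw [this]
        field_simp
      rw [h4]
      ring
    · have hνp : ν p = (1 + e) * p / 2 := by
        rw [hν]
        simp only
        rw [if_neg h]
      rw [hνp, if_neg h]
      apply le_of_eq
      rw [hw0]
      have h3 : (1 + e) ≠ 0 := by positivity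
      field_simp
      ring
  have hev := theta_weight M b hb w0 w1 hw00 hw10 P0 c hclt g hg0 hgl
  obtain ⟨C0, hC00, hC0⟩ := log_lower g hg0 hg00 c (by positivity) hev
  set η : ℝ := e / (4 * (2 + e)) with hη
  have hη0 : 0 < η := by positivity
  have hη4 : η ≤ 1 / 4 := by
    rw [hη, div_le_iff₀ (by positivity)]
    linarith
  set s : ℝ := 1 / 2 - η with hs
  have hs0 : 0 < s := by rw [hs]; linarith
  have hcs : c * s = 1 + e / 4 := by
    rw [hc, hs, hη]
    field_simp
    ring
  set T0 : ℝ := 4 * (C0 + 1) / e with hT0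
  refine ⟨η, hη0, 4 + exp T0, ?_⟩
  intro X hX
  have hXr : (2:ℝ) ≤ X := by exact_mod_cast hX
  have hX0 : (0:ℝ) < X := by linarith
  have hXs1 : 1 ≤ (X : ℝ) ^ s := one_le_rpow (by linarith) hs0.le
  rw [add_mul]
  by_cases hlog : log (X : ℝ) < T0
  · have h1 : ((A ∩ Set.Icc 1 X).ncard : ℝ) ≤ X := by
      have h2 : (A ∩ Set.Icc 1 X).ncard ≤ (Set.Icc 1 X).ncard :=
        Set.ncard_le_ncard Set.inter_subset_right (Set.finite_Icc 1 X)
      have h3 : (Set.Icc 1 X).ncard = X := by
        rw [← Finset.coe_Icc, Set.ncard_coe_finset, Nat.card_Icc]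
        omega
      rw [h3] at h2
      exact_mod_cast h2
    have h2 : (X : ℝ) ≤ exp T0 := by
      rw [← exp_log hX0]
      exact exp_le_exp.2 hlog.le
    have h3 : exp T0 ≤ exp T0 * (X : ℝ) ^ s := by
      have := (exp_pos T0).le
      nlinarith
    have h4 : 0 ≤ 4 * (X : ℝ) ^ s := by positivity
    linarith
  · push Not at hlog
    -- the finite set
    set Bf : Finset ℕ := (Set.Finite.subset (Set.finite_Icc 1 X) (Set.inter_subset_right (s := A))).toFinset with hBf
    have hBc : (A ∩ Set.Icc 1 X).ncard = Bf.card := by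
      rw [hBf]
      exact Set.ncard_eq_toFinset_card _ _
    have hBmem : ∀ b ∈ Bf, b ∈ A ∧ b ≤ X := by
      intro b hb
      rw [hBf, Set.Finite.mem_toFinset] at hb
      exact ⟨hb.1, hb.2.2⟩
    set Q : ℕ := ⌈(X : ℝ) ^ s⌉₊ with hQ
    have hQlow : (X : ℝ) ^ s ≤ Q := Nat.le_ceil _
    have hQup : (Q : ℝ) ≤ 2 * (X : ℝ) ^ s := by
      have := Nat.ceil_lt_add_one (show 0 ≤ (X : ℝ) ^ s by positivity)
      rw [← hQ] at this
      linarith
    have hQ1 : 1 ≤ Q := by
      have : (1:ℝ) ≤ Q := hXs1.trans hQlow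
      exact_mod_cast this
    set Pr : Finset ℕ := (range (Q + 1)).filter (fun p => p.Prime ∧ P0 ≤ p) with hPr
    have hsieve := larger_sieve Bf X (fun b hb => (hBmem b hb).2) Pr
      (fun p hp => (mem_filter.1 hp).2.1) ν (fun p hp => hνpos p (mem_filter.1 hp).2.1.pos)
      (by
        intro p hp
        obtain ⟨_, hpp, hpP⟩ := mem_filter.1 hp
        have : Fact p.Prime := ⟨hpp⟩
        refine le_trans ?_ (hνA p hpp hpP)
        have h1 : (Bf.image (fun b : ℕ => (b : ZMod p))).card ≤ ((fun a : ℕ => (a : ZMod p)) '' A).ncard := by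
          rw [← Set.ncard_coe_finset]
          apply Set.ncard_le_ncard _ (Set.toFinite _)
          intro x hx
          rw [Finset.mem_coe, mem_image] at hx
          obtain ⟨b, hb, rfl⟩ := hx
          exact ⟨b, (hBmem b hb).1, rfl⟩
        exact_mod_cast h1)
    have hsumP : ∑ p ∈ Pr, log (p : ℝ) / ν p = ∑ i ∈ range (Q + 1), g i / i := by
      rw [hPr, sum_filter]
      apply sum_congr rfl
      intro i _
      rw [hg]
      simp only
      split_ifs with h
      · have : (i : ℝ) ≠ 0 := by exact_mod_cast h.1.ne_zero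
        field_simp
      · simp
    have hlogQ : s * log (X : ℝ) ≤ log (Q : ℝ) := by
      rw [← log_rpow hX0]
      exact log_le_log (by positivity) hQlow
    have hmain := hC0 Q hQ1
    rw [← hsumP] at hmain
    have h1 : 1 ≤ ∑ p ∈ Pr, log (p : ℝ) / ν p - log X := by
      have h2 : c * (s * log (X : ℝ)) ≤ c * log (Q : ℝ) :=
        mul_le_mul_of_nonneg_left hlogQ (by positivity)
      have h3 : c * (s * log (X : ℝ)) = log X + e / 4 * log X := by
        rw [← mul_assoc, hcs]
        ring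
      have h4 : C0 + 1 ≤ e / 4 * log X := by
        rw [hT0, div_le_iff₀ he0] at hlog
        linarith
      linarith
    have h2 : (Bf.card : ℝ) ≤ ∑ p ∈ Pr, log (p : ℝ) := by
      refine le_trans ?_ hsieve
      have : (0:ℝ) ≤ Bf.card := Nat.cast_nonneg _
      nlinarith
    have h3 : ∑ p ∈ Pr, log (p : ℝ) ≤ Chebyshev.theta Q := by
      unfold Chebyshev.theta
      rw [Nat.floor_natCast]
      apply sum_le_sum_of_subset_of_nonneg
      · intro p hp
        rw [hPr, mem_filter, mem_range] at hp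
        rw [mem_filter, mem_Ioc]
        exact ⟨⟨hp.2.1.pos, by omega⟩, hp.2.1⟩
      · intro i _ _
        exact log_natCast_nonneg _
    have h4 : Chebyshev.theta Q ≤ 2 * Q := by
      have h5 := Chebyshev.theta_le_log4_mul_x (x := (Q : ℝ)) (Nat.cast_nonneg _)
      have h6 : log 4 ≤ 2 := by
        have : log 4 = 2 * log 2 := by
          rw [show (4:ℝ) = 2 ^ 2 by norm_num, log_pow]
          norm_num
        rw [this]
        have := log_two_lt_d9
        linarith
      have h7 : (0:ℝ) ≤ Q := Nat.cast_nonneg _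
      nlinarith
    rw [hBc]
    have h8 : 0 ≤ exp T0 * (X : ℝ) ^ s := by positivity
    linarith

end Pool.Agent.Helper27.IS
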