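import Pool.Agent.Helper27.IS.LocPrime
import Pool.Agent.Helper27.IS.PowerSave

/-!
# The dichotomy for sets whose product set misses a positive proportion of the residue classes
-/

set_option autoImplicit false

namespace Pool.Agent.Helper27.IS

open Finset Real
open scoped NumberTheorySymbols

theorem dichotomy (A : Set ℕ) (α β : ℤ) (hα : α ≠ 0) (P : ℕ)
    (hA : ∀ p : ℕ, p.Prime → P ≤ p →
      ((((fun a : ℕ => (a : ZMod p)) '' A).ncard : ℝ) ≤ ((p : ℝ) + 1) / 2))
    (δ : ℝ) (hδ : 0 < δ) (P' : ℕ)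
    (hW : ∀ p : ℕ, p.Prime → P' ≤ p → p % 4 = 3 →
      ((prodClasses A α β p).ncard : ℝ) ≤ (1 - δ) * p) :
    (∃ η : ℝ, 0 < η ∧ ∃ C : ℝ, ∀ X : ℕ, 2 ≤ X →
      ((A ∩ Set.Icc 1 X).ncard : ℝ) ≤ C * (X : ℝ) ^ (1 / 2 - η)) ∨
    (∃ Φ : Finset (Polynomial ℚ), (∀ φ ∈ Φ, φ.natDegree = 2) ∧
      (A \ ⋃ φ ∈ Φ, {a : ℕ | (a : ℚ) ∈ Set.range (fun n : ℤ => φ.eval (n : ℚ))}).Finite) := by
  classical
  set D : ℕ := ⌈2 / δ⌉₊ + 2 with hD
  have hD2 : 2 ≤ D := by omega
  have hDδ : 2 ≤ D * δ := by
    have h1 : 2 / δ ≤ D := by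
      rw [hD]
      push_cast
      have := Nat.le_ceil (2 / δ)
      linarith
    rwa [div_le_iff₀ hδ] at h1
  set M0 : ℕ := 4 * D.factorial with hM0
  have hM00 : M0 ≠ 0 := mul_ne_zero (by norm_num) (Nat.factorial_ne_zero _)
  have hsol : {a : ℕ | α * (a : ℤ) + β = 0}.Finite := by
    apply Set.Subsingleton.finite
    intro a ha b hb
    simp only [Set.mem_ofPred_eq] at ha hb
    have h1 : α * (a : ℤ) = α * b := by linarith
    exact_mod_cast mul_left_cancel₀ hα h1
  by_cases hbad : ∃ a ∈ A, ∃ a' ∈ A, (α * (a : ℤ) + β) * (α * (a' : ℤ) + β) ≠ 0 ∧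
      ∃ l s b : ℕ, l.Prime ∧ D < l ∧
        b ^ 2 * s = ((α * (a : ℤ) + β) * (α * (a' : ℤ) + β)).natAbs ∧ Squarefree s ∧ l ∣ s
  · -- a power saving
    left
    obtain ⟨a, ha, a', ha', hv, l, s, b, hl, hDl, hsb, hs, hls⟩ := hbad
    have hlM : ¬ l ∣ M0 := by
      intro h
      rcases (Nat.Prime.dvd_mul hl).1 h with h1 | h1
      · have h2 : l ∣ 2 := hl.dvd_of_dvd_pow (show l ∣ 2 ^ 2 from h1)
        have := Nat.le_of_dvd (by norm_num) h2
        omega
      · have := (Nat.Prime.dvd_factorial hl).1 h1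
        omega
    obtain ⟨M', hne, c, hc, hcp⟩ := exists_class _ hv M0 hM00 l s b hl (by omega) hlM hsb hs hls
    set Ec : ℕ := 100 * D * 5 ^ D with hEc
    have hEc1 : 1 ≤ Ec := by
      rw [hEc]
      have : 1 ≤ 5 ^ D := Nat.one_le_pow _ _ (by norm_num)
      calc 1 ≤ 100 * 1 * 1 := by norm_num
        _ ≤ 100 * D * 5 ^ D := by gcongr; omega
    have hEcr : (1:ℝ) ≤ Ec := by exact_mod_cast hEc1
    set κ : ℝ := 1 / (4 * Ec) with hκ
    have hκ0 : 0 < κ := by positivity
    have hκ1 : κ < 1 / 2 := by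
      rw [hκ, div_lt_div_iff₀ (by positivity) (by norm_num)]
      linarith
    set P1 : ℕ := P + P' + α.natAbs + D + 2 * Ec + 3 with hP1
    apply power_saving A M' c hc P1 κ hκ0 hκ1
    · intro p hp hpP
      exact hA p hp (by omega)
    · intro p hp hpP hpc
      obtain ⟨hpM, hJ⟩ := hcp p hp hpc
      have hp4 : p % 4 = 3 := by
        have h1 : 4 ∣ p + 1 := (Dvd.intro _ rfl).trans hpM
        omega
      have hpα : ¬ (p : ℤ) ∣ α := by
        intro h
        have := Int.natAbs_dvd_natAbs.2 h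
        rw [Int.natAbs_natCast] at this
        have := Nat.le_of_dvd (Int.natAbs_pos.2 hα) this
        omega
      have hWp := hW p hp (by omega) hp4
      have hW' : p - 1 ≤ D * (p - 1 - (prodClasses A α β p).ncard) := by
        set w := (prodClasses A α β p).ncard with hw
        set t := p - 1 - w with ht
        have h1 : p ≤ w + t + 1 := by omega
        have h2 : (p:ℝ) ≤ w + t + 1 := by exact_mod_cast h1
        have h3 : δ * p - 1 ≤ t := by linarith
        have h4 : (D : ℝ) * (δ * p - 1) ≤ D * t := mul_le_mul_of_nonneg_left h3 (Nat.cast_nonneg _)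
        have h5 : 2 * (p:ℝ) ≤ D * δ * p := mul_le_mul_of_nonneg_right hDδ (Nat.cast_nonneg _)
        have h6 : (D:ℝ) ≤ p := by exact_mod_cast (by omega : D ≤ p)
        have h7 : (p:ℝ) ≤ D * t := by nlinarith
        have h8 : p ≤ D * t := by exact_mod_cast h7
        omega
      obtain ⟨k, hk1, hk2⟩ := local_prime A α β p hp hpα D hpM hW' a a' ha ha' hJ
      have hk1r : ((((fun a : ℕ => (a : ZMod p)) '' A).ncard : ℝ) ≤ k + 1) := by exact_mod_cast hk1
      refine hk1r.trans ?_
      rw [← hEc] at hk2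
      have hp1 : 1 ≤ p := hp.one_lt.le
      have h2k : 2 * k ≤ p - 1 := by
        by_contra h
        have : p - 1 - 2 * k = 0 := by omega
        rw [this] at hk2
        omega
      have h1 : (p:ℝ) - 1 < Ec * ((p:ℝ) - 1 - 2 * k) := by
        have h2 : (((p - 1 : ℕ)) : ℝ) < ((Ec * (p - 1 - 2 * k) : ℕ) : ℝ) := by exact_mod_cast hk2
        rw [Nat.cast_mul, Nat.cast_sub h2k, Nat.cast_sub hp1] at h2
        push_cast at h2
        exact h2
      have h3 : (2 * (Ec:ℝ) + 2) ≤ p := by exact_mod_cast (by omega : 2 * Ec + 2 ≤ p)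
      have h4 : (1 / 2 - κ) * (p:ℝ) = (p:ℝ) / 2 - p / (4 * Ec) := by
        rw [hκ]
        ring
      rw [h4]
      have hEc0 : (0:ℝ) < Ec := by linarith
      have h5 : (k:ℝ) < ((p:ℝ) - 1) / 2 - ((p:ℝ) - 1) / (2 * Ec) := by
        have h6 : ((p:ℝ) - 1) / Ec < (p:ℝ) - 1 - 2 * k := by
          rw [div_lt_iff₀ hEc0]
          linarith
        have h7 : ((p:ℝ) - 1) / (2 * Ec) = ((p:ℝ) - 1) / Ec / 2 := by
          field_simp
        rw [h7]
        linarith
      have h8 : ((p:ℝ) - 1) / 2 - ((p:ℝ) - 1) / (2 * Ec) + 1 ≤ (p:ℝ) / 2 - p / (4 * Ec) := by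
        have h9 : ((p:ℝ) - 1) / (2 * Ec) - p / (4 * Ec) = (p - 2) / (4 * Ec) := by
          field_simp
          ring
        have h10 : 1 / 2 ≤ ((p:ℝ) - 2) / (4 * Ec) := by
          rw [le_div_iff₀ (by positivity)]
          linarith
        linarith
      linarith
  · -- a finite union
    right
    push Not at hbad
    by_cases hne : ∃ a0 ∈ A, α * (a0 : ℤ) + β ≠ 0
    · obtain ⟨a0, ha0, hu0⟩ := hne
      set u0 : ℤ := α * (a0 : ℤ) + β with hu0def
      have hα' : (α : ℚ) ≠ 0 := by exact_mod_cast hα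
      have hu0' : (u0 : ℚ) ≠ 0 := by exact_mod_cast hu0
      set f : ℤ × ℕ → Polynomial ℚ := fun q => Polynomial.C ((q.1 : ℚ) * q.2 / (u0 * α)) * Polynomial.X ^ 2 +
        Polynomial.C 0 * Polynomial.X + Polynomial.C (-(β : ℚ) / α) with hf
      refine ⟨((({1, -1} : Finset ℤ) ×ˢ D.factorial.divisors).image f), ?_, ?_⟩
      · intro φ hφ
        obtain ⟨⟨σ, s⟩, hq, rfl⟩ := mem_image.1 hφ
        rw [mem_product] at hq
        apply Polynomial.natDegree_quadratic
        have h1 : ((σ : ℤ) : ℚ) ≠ 0 := by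
          have h2 : σ = 1 ∨ σ = -1 := by simpa using hq.1
          rcases h2 with h2 | h2 <;> rw [h2] <;> norm_num
        have h2 : ((s : ℕ) : ℚ) ≠ 0 := by
          have := Nat.pos_of_mem_divisors hq.2
          exact_mod_cast this.ne'
        simp only
        exact div_ne_zero (mul_ne_zero h1 h2) (mul_ne_zero hu0' hα')
      · apply hsol.subset
        rintro a ⟨haA, haU⟩
        by_contra hua
        apply haU
        have hv : u0 * (α * (a : ℤ) + β) ≠ 0 := mul_ne_zero hu0 hua
        obtain ⟨s, b, hsb, hs⟩ := Nat.sq_mul_squarefree (u0 * (α * (a : ℤ) + β)).natAbs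
        have hsD : s ∣ D.factorial := by
          rw [← Nat.prod_primeFactors_of_squarefree hs]
          apply Finset.prod_primes_dvd
          · intro q hq
            exact (Nat.prime_of_mem_primeFactors hq).prime
          · intro q hq
            have hqp := Nat.prime_of_mem_primeFactors hq
            rw [Nat.Prime.dvd_factorial hqp]
            by_contra hlt
            push Not at hlt
            exact hbad a0 ha0 a haA hv q s b hqp hlt hsb hs (Nat.dvd_of_mem_primeFactors hq)
        obtain ⟨σ, hσ, hσv⟩ : ∃ σ : ℤ, (σ = 1 ∨ σ = -1) ∧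
            u0 * (α * (a : ℤ) + β) = σ * ((b : ℤ) ^ 2 * s) := by
          have h1 : (((u0 * (α * (a : ℤ) + β)).natAbs : ℕ) : ℤ) = (b : ℤ) ^ 2 * s := by
            rw [← hsb]
            push_cast
            rfl
          rcases Int.natAbs_eq (u0 * (α * (a : ℤ) + β)) with h | h
          · exact ⟨1, Or.inl rfl, by rw [one_mul, ← h1]; exact h⟩
          · exact ⟨-1, Or.inr rfl, by rw [neg_one_mul, ← h1]; exact h⟩
        simp only [Set.mem_iUnion]
        refine ⟨f (σ, s), ?_, b, ?_⟩
        · apply mem_image_of_mem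
          rw [mem_product]
          refine ⟨?_, ?_⟩
          · simpa using hσ
          · rw [Nat.mem_divisors]
            exact ⟨hsD, Nat.factorial_ne_zero _⟩
        · have h1 : (u0 : ℚ) * (α * (a : ℚ) + β) = σ * ((b : ℚ) ^ 2 * s) := by exact_mod_cast hσv
          rw [hf]
          simp only [Polynomial.eval_add, Polynomial.eval_mul, Polynomial.eval_C,
            Polynomial.eval_pow, Polynomial.eval_X]
          push_cast
          field_simp
          linear_combination (-1 : ℚ) * h1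
    · push Not at hne
      refine ⟨∅, by simp, ?_⟩
      apply hsol.subset
      intro a ha
      exact hne a ha.1

end Pool.Agent.Helper27.IS
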