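import Mathlib

/-!
# Greedy choice of removed classes
-/

set_option autoImplicit false

namespace Pool.Agent.Helper27.IS

open Finset Real
open scoped NumberTheorySymbols

lemma greedy (f : ℕ → ℕ) (n : ℕ) : ∀ (k : ℕ) (D : Finset ℕ), D.card = n + k →
    ∃ R ⊆ D, R.card = n ∧ D.card * ∑ r ∈ R, f r ≤ n * ∑ r ∈ D, f r := by
  intro k
  induction k with
  | zero =>
    intro D hD
    refine ⟨D, Subset.refl _, by omega, ?_⟩
    rw [hD, add_zero]
  | succ k ih =>
    intro D hD
    have hne : D.Nonempty := by
      rw [← card_pos]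
      omega
    obtain ⟨x, hx, hmax⟩ := exists_max_image D f hne
    have hDe : (D.erase x).card = n + k := by
      rw [card_erase_of_mem hx]
      omega
    obtain ⟨R, hR, hRc, hRs⟩ := ih (D.erase x) hDe
    refine ⟨R, hR.trans (erase_subset _ _), hRc, ?_⟩
    rw [hDe] at hRs
    have h1 : ∑ r ∈ D, f r ≤ D.card * f x := by
      rw [← smul_eq_mul]
      exact sum_le_card_nsmul _ _ _ hmax
    have h2 : ∑ r ∈ D.erase x, f r + f x = ∑ r ∈ D, f r := sum_erase_add _ _ hx
    rw [hD] at h1 ⊢
    rcases Nat.eq_zero_or_pos (n + k) with h0 | hpos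
    · have hn0 : n = 0 := by omega
      subst hn0
      have : R = ∅ := card_eq_zero.1 hRc
      rw [this]
      simp
    · have h3 : (n + (k + 1)) * ∑ r ∈ D.erase x, f r ≤ (n + k) * ∑ r ∈ D, f r := by
        have : (n + (k + 1)) * ∑ r ∈ D.erase x, f r + (n + (k + 1)) * f x =
            (n + (k + 1)) * ∑ r ∈ D, f r := by rw [← h2]; ring
        have h4 : (n + (k + 1)) * ∑ r ∈ D, f r = (n + k) * ∑ r ∈ D, f r + ∑ r ∈ D, f r := by ring
        omega
      apply Nat.le_of_mul_le_mul_left _ hpos
      calc (n + k) * ((n + (k + 1)) * ∑ r ∈ R, f r) = (n + (k + 1)) * ((n + k) * ∑ r ∈ R, f r) := by ring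
        _ ≤ (n + (k + 1)) * (n * ∑ r ∈ D.erase x, f r) := Nat.mul_le_mul_left _ hRs
        _ = n * ((n + (k + 1)) * ∑ r ∈ D.erase x, f r) := by ring
        _ ≤ n * ((n + k) * ∑ r ∈ D, f r) := Nat.mul_le_mul_left _ h3
        _ = (n + k) * (n * ∑ r ∈ D, f r) := by ring

/-- Choosing the removed classes `± r`, `r ∈ R`, at one prime. -/
lemma remove_classes (S : Finset ℕ) (p : ℕ) (D : Finset ℕ) (hD : ∀ r ∈ D, 2 * r < p)
    (n : ℕ) (hn : n ≤ D.card) :
    ∃ R ⊆ D, R.card = n ∧
      D.card * (S.filter (fun q => ∃ r ∈ R, q % p = r ∨ q % p = p - r)).card ≤ n * S.card := by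
  classical
  set f : ℕ → ℕ := fun r => (S.filter (fun q => q % p = r ∨ q % p = p - r)).card with hf
  obtain ⟨R, hR, hRc, hRs⟩ := greedy f n (D.card - n) D (by omega)
  refine ⟨R, hR, hRc, ?_⟩
  have h1 : (S.filter (fun q => ∃ r ∈ R, q % p = r ∨ q % p = p - r)).card ≤ ∑ r ∈ R, f r := by
    have : S.filter (fun q => ∃ r ∈ R, q % p = r ∨ q % p = p - r) ⊆
        R.biUnion (fun r => S.filter (fun q => q % p = r ∨ q % p = p - r)) := by
      intro q hq
      obtain ⟨hqS, r, hr, hqr⟩ := mem_filter.1 hq
      rw [mem_biUnion]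
      exact ⟨r, hr, mem_filter.2 ⟨hqS, hqr⟩⟩
    exact (card_le_card this).trans card_biUnion_le
  have h2 : ∑ r ∈ D, f r ≤ S.card := by
    rw [hf, ← card_biUnion]
    · apply card_le_card
      intro q hq
      obtain ⟨r, _, hqr⟩ := mem_biUnion.1 hq
      exact (mem_filter.1 hqr).1
    · intro r hr r' hr' hrr'
      rw [Function.onFun, disjoint_left]
      intro q hq hq'
      have h3 := hD r hr
      have h4 := hD r' hr'
      have h5 := (mem_filter.1 hq).2
      have h6 := (mem_filter.1 hq').2
      omega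
  calc D.card * _ ≤ D.card * ∑ r ∈ R, f r := Nat.mul_le_mul_left _ h1
    _ ≤ n * ∑ r ∈ D, f r := hRs
    _ ≤ n * S.card := Nat.mul_le_mul_left _ h2

/-- The number of `e ∈ E` which are non-residues modulo `p`. -/
def tE (E : Finset ℕ) (p : ℕ) : ℕ := (E.filter (fun e : ℕ => J((e : ℤ) | p) = -1)).card

lemma tE_le (E : Finset ℕ) (p : ℕ) : tE E p ≤ E.card := card_filter_le _ _

/-- The admissible `r`. -/
def adm (E : Finset ℕ) (B p : ℕ) : Finset ℕ :=
  (Icc (B + 1) ((p - 1) / 2)).filter (fun r : ℕ => ∀ e ∈ E, (r : ZMod p) ^ 2 ≠ (e : ZMod p))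

lemma adm_card (E : Finset ℕ) (B p : ℕ) (hp : p.Prime) :
    (p - 1) / 2 ≤ (adm E B p).card + B + E.card := by
  have hpF : Fact p.Prime := ⟨hp⟩
  have h1 : (Icc (B + 1) ((p - 1) / 2)).card = (adm E B p).card +
      ((Icc (B + 1) ((p - 1) / 2)).filter (fun r : ℕ => ¬ ∀ e ∈ E, (r : ZMod p) ^ 2 ≠ (e : ZMod p))).card := by
    unfold adm
    rw [card_filter_add_card_filter_not]
  have h2 : ((Icc (B + 1) ((p - 1) / 2)).filter (fun r : ℕ => ¬ ∀ e ∈ E, (r : ZMod p) ^ 2 ≠ (e : ZMod p))).card ≤
      E.card := by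
    have hsub : (Icc (B + 1) ((p - 1) / 2)).filter (fun r : ℕ => ¬ ∀ e ∈ E, (r : ZMod p) ^ 2 ≠ (e : ZMod p)) ⊆
        E.biUnion (fun e => (Icc (B + 1) ((p - 1) / 2)).filter (fun r : ℕ => (r : ZMod p) ^ 2 = (e : ZMod p))) := by
      intro r hr
      obtain ⟨hr1, hr2⟩ := mem_filter.1 hr
      push Not at hr2
      obtain ⟨e, he, hre⟩ := hr2
      rw [mem_biUnion]
      exact ⟨e, he, mem_filter.2 ⟨hr1, hre⟩⟩
    refine (card_le_card hsub).trans (card_biUnion_le.trans ?_)
    calc _ ≤ ∑ e ∈ E, 1 := by
          apply sum_le_sum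
          intro e _
          rw [card_le_one]
          intro r hr r' hr'
          obtain ⟨hr1, hr2⟩ := mem_filter.1 hr
          obtain ⟨hr1', hr2'⟩ := mem_filter.1 hr'
          rw [mem_Icc] at hr1 hr1'
          have h3 : (r : ZMod p) ^ 2 = (r' : ZMod p) ^ 2 := hr2.trans hr2'.symm
          rw [sq_eq_sq_iff_eq_or_eq_neg] at h3
          rcases h3 with h3 | h3
          · rw [ZMod.natCast_eq_natCast_iff'] at h3
            rw [Nat.mod_eq_of_lt (by omega), Nat.mod_eq_of_lt (by omega)] at h3
            exact h3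
          · have h4 : ((r + r' : ℕ) : ZMod p) = 0 := by
              push_cast
              rw [h3]
              ring
            rw [ZMod.natCast_eq_zero_iff] at h4
            have := Nat.le_of_dvd (by omega) h4
            omega
      _ = E.card := by simp
  rw [Nat.card_Icc] at h1
  omega

/-- Processing the primes in `(P, n]`. -/
theorem chain (E : Finset ℕ) (B P : ℕ) (w : ℕ → ℝ)
    (hgood : ∀ p : ℕ, p.Prime → P < p → tE E p - 1 ≤ (adm E B p).card ∧
      exp (- w p) * (adm E B p).card ≤ (adm E B p).card - ((tE E p - 1 : ℕ) : ℝ))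
    (hw : ∀ p, 0 ≤ w p) (S0 : Finset ℕ) (n : ℕ) (hn : P ≤ n) :
    ∃ S ⊆ S0, ∃ R : ℕ → Finset ℕ,
      (∀ p : ℕ, p.Prime → P < p → p ≤ n → R p ⊆ adm E B p ∧ (R p).card = tE E p - 1 ∧
        ∀ q ∈ S, ∀ r ∈ R p, q % p ≠ r ∧ q % p ≠ p - r) ∧
      (S0.card : ℝ) * exp (- ∑ p ∈ (Ioc P n).filter Nat.Prime, w p) ≤ S.card := by
  classical
  induction n, hn using Nat.le_induction with
  | base =>
    refine ⟨S0, Subset.refl _, fun _ => ∅, ?_, ?_⟩
    · intro p _ h1 h2
      omega
    · simp
  | succ n hn ih =>
    obtain ⟨S, hS, R, hR, hc⟩ := ih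
    by_cases hp : (n + 1).Prime
    · obtain ⟨h1, h2⟩ := hgood (n + 1) hp (by omega)
      obtain ⟨R', hR', hR'c, hR's⟩ := remove_classes S (n + 1) (adm E B (n + 1)) (by
        intro r hr
        have := (mem_Icc.1 (mem_filter.1 hr).1).2
        have := hp.two_le
        omega) (tE E (n + 1) - 1) h1
      set bad := S.filter (fun q => ∃ r ∈ R', q % (n + 1) = r ∨ q % (n + 1) = n + 1 - r) with hbad
      set S' := S.filter (fun q => ¬ ∃ r ∈ R', q % (n + 1) = r ∨ q % (n + 1) = n + 1 - r) with hS'
      have hcard : bad.card + S'.card = S.card := card_filter_add_card_filter_not _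
      refine ⟨S', (filter_subset _ _).trans hS, Function.update R (n + 1) R', ?_, ?_⟩
      · intro p hpp hPp hpn
        by_cases hpe : p = n + 1
        · subst hpe
          rw [Function.update_self]
          refine ⟨hR', hR'c, ?_⟩
          intro q hq r hr
          have h3 := (mem_filter.1 hq).2
          push Not at h3
          exact h3 r hr
        · rw [Function.update_of_ne hpe]
          obtain ⟨h3, h4, h5⟩ := hR p hpp hPp (by omega)
          exact ⟨h3, h4, fun q hq r hr => h5 q (mem_filter.1 hq).1 r hr⟩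
      · -- the count
        set d : ℝ := ((adm E B (n + 1)).card : ℝ) with hd
        set tt : ℝ := ((tE E (n + 1) - 1 : ℕ) : ℝ) with htt
        have hsum : ∑ p ∈ (Ioc P (n + 1)).filter Nat.Prime, w p =
            ∑ p ∈ (Ioc P n).filter Nat.Prime, w p + w (n + 1) := by
          have h3 : (Ioc P (n + 1)).filter Nat.Prime = insert (n + 1) ((Ioc P n).filter Nat.Prime) := by
            ext x
            simp only [mem_filter, mem_Ioc, mem_insert]
            constructor
            · rintro ⟨⟨h3, h4⟩, h5⟩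
              by_cases hx : x = n + 1
              · left; exact hx
              · right; exact ⟨⟨h3, by omega⟩, h5⟩
            · rintro (rfl | ⟨⟨h3, h4⟩, h5⟩)
              · exact ⟨⟨by omega, le_refl _⟩, hp⟩
              · exact ⟨⟨h3, by omega⟩, h5⟩
          rw [h3, sum_insert (by simp), add_comm]
        rw [hsum, neg_add, exp_add]
        have hS'r : (S'.card : ℝ) = S.card - bad.card := by
          have : ((bad.card + S'.card : ℕ) : ℝ) = S.card := by rw [hcard]
          push_cast at this
          linarith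
        have hbadr : d * bad.card ≤ tt * S.card := by
          have : (((adm E B (n + 1)).card * bad.card : ℕ) : ℝ) ≤ (((tE E (n + 1) - 1) * S.card : ℕ) : ℝ) := by
            exact_mod_cast hR's
          push_cast at this
          exact this
        have hmain : exp (- w (n + 1)) * S.card ≤ S'.card := by
          rcases Nat.eq_zero_or_pos (adm E B (n + 1)).card with h0 | hpos
          · -- then nothing is removed
            have htt0 : tE E (n + 1) - 1 = 0 := by omega
            have hR'0 : R' = ∅ := by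
              rw [← card_eq_zero, hR'c, htt0]
            have hbad0 : bad.card = 0 := by
              rw [hbad, hR'0]
              simp
            rw [hS'r, hbad0]
            have h3 : exp (- w (n + 1)) ≤ 1 := by
              rw [exp_le_one_iff]
              linarith [hw (n + 1)]
            have h4 : (0:ℝ) ≤ S.card := Nat.cast_nonneg _
            push_cast
            nlinarith
          · have hd0 : 0 < d := by
              rw [hd]
              exact_mod_cast hpos
            rw [hS'r]
            have h3 : (0:ℝ) ≤ S.card := Nat.cast_nonneg _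
            have h4 : d * (exp (- w (n + 1)) * S.card) ≤ d * (S.card - bad.card) := by
              calc d * (exp (- w (n + 1)) * S.card) = (exp (- w (n + 1)) * d) * S.card := by ring
                _ ≤ (d - tt) * S.card := by gcongr
                _ ≤ d * (S.card - bad.card) := by linarith
            exact le_of_mul_le_mul_left h4 hd0
        calc (S0.card : ℝ) * (exp (-∑ p ∈ (Ioc P n).filter Nat.Prime, w p) * exp (- w (n + 1)))
            = exp (- w (n + 1)) * ((S0.card : ℝ) * exp (-∑ p ∈ (Ioc P n).filter Nat.Prime, w p)) := by ring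
          _ ≤ exp (- w (n + 1)) * S.card := by gcongr
          _ ≤ S'.card := hmain
    · refine ⟨S, hS, R, ?_, ?_⟩
      · intro p hpp hPp hpn
        have hpe : p ≠ n + 1 := by
          rintro rfl
          exact hp hpp
        exact hR p hpp hPp (by omega)
      · have h3 : (Ioc P (n + 1)).filter Nat.Prime = (Ioc P n).filter Nat.Prime := by
          ext x
          simp only [mem_filter, mem_Ioc]
          constructor
          · rintro ⟨⟨h3, h4⟩, h5⟩
            have : x ≠ n + 1 := by
              rintro rfl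
              exact hp h5
            exact ⟨⟨h3, by omega⟩, h5⟩
          · rintro ⟨⟨h3, h4⟩, h5⟩
            exact ⟨⟨h3, by omega⟩, h5⟩
        rw [h3]
        exact hc

end Pool.Agent.Helper27.IS
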