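import Pool.Agent.Helper27.IS.Classes
import Pool.Agent.Helper27.IS.Jac
import Pool.Agent.Helper27.IS.Exc1

/-!
# Sharp upper bounds for sums over primes in classes
-/

set_option autoImplicit false

namespace Pool.Agent.Helper27.IS

open Finset Filter Real
open scoped NumberTheorySymbols

lemma loglog_diff_sharp {ε : ℝ} (hε : 0 < ε) {n : ℕ} (hn : 3 ≤ n) (hnε : 1 / ε ≤ n) :
    1 / (((n : ℝ) + 1) * log n) ≤ (1 + ε) * (log (log ((n : ℝ) + 1)) - log (log n)) := by
  have hn0 : (0:ℝ) < n := by exact_mod_cast (by omega : 0 < n)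
  have hn3 : (3:ℝ) ≤ n := by exact_mod_cast hn
  have hl : 1 ≤ log (n : ℝ) := by
    rw [le_log_iff_exp_le hn0]
    have := Real.exp_one_lt_d9
    linarith
  have hl0 : 0 < log (n : ℝ) := by linarith
  have hl1 : 0 < log ((n : ℝ) + 1) := log_pos (by linarith)
  rw [← log_div hl1.ne' hl0.ne']
  have h2 : 1 / ((n:ℝ) + 1) ≤ log ((n:ℝ) + 1) - log n := by
    rw [← log_div (by positivity) hn0.ne']
    have := one_sub_inv_le_log_of_pos (x := ((n:ℝ) + 1) / n) (by positivity)
    refine le_trans (le_of_eq ?_) this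
    field_simp
    ring
  have h3 : log ((n:ℝ) + 1) - log n ≤ 1 / n := by
    rw [← log_div (by positivity) hn0.ne']
    have : ((n:ℝ) + 1) / n = 1 / n + 1 := by field_simp; ring
    rw [this]
    have := log_le_sub_one_of_pos (x := 1 / (n:ℝ) + 1) (by positivity)
    linarith
  have h4 : log ((n:ℝ) + 1) ≤ (1 + ε) * log n := by
    have h5 : 1 / (n:ℝ) ≤ ε := by
      rw [div_le_iff₀ hε] at hnε
      rw [div_le_iff₀ hn0]
      linarith
    nlinarith
  have h5 := one_sub_inv_le_log_of_pos (x := log ((n:ℝ) + 1) / log n) (by positivity)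
  have h6 : 1 / (((n:ℝ) + 1) * log ((n:ℝ) + 1)) ≤ 1 - (log ((n:ℝ) + 1) / log n)⁻¹ := by
    have : 1 - (log ((n:ℝ) + 1) / log n)⁻¹ = (log ((n:ℝ) + 1) - log n) / log ((n:ℝ) + 1) := by
      field_simp
    rw [this, le_div_iff₀ hl1]
    calc 1 / (((n:ℝ) + 1) * log ((n:ℝ) + 1)) * log ((n:ℝ) + 1) = 1 / ((n:ℝ) + 1) := by field_simp
      _ ≤ _ := h2
  have h7 : 1 / (((n : ℝ) + 1) * log n) ≤ (1 + ε) * (1 / (((n:ℝ) + 1) * log ((n:ℝ) + 1))) := by
    rw [mul_one_div, div_le_div_iff₀ (by positivity) (by positivity)]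
    nlinarith
  refine h7.trans ?_
  exact mul_le_mul_of_nonneg_left (h6.trans h5) (by positivity)

theorem sum_upper_sharp (g : ℕ → ℝ) (hg : ∀ n, 0 ≤ g n) (h0 : g 0 = 0) (c c' : ℝ) (hc : 0 ≤ c)
    (hcc : c < c')
    (h : ∀ᶠ n : ℕ in atTop, ∑ i ∈ range (n + 1), g i ≤ c * n / log n) :
    ∃ C : ℝ, 0 < C ∧ ∀ N : ℕ, 3 ≤ N → ∑ i ∈ range (N + 1), g i / i ≤ c' * log (log N) + C := by
  obtain ⟨n0, hn0⟩ := eventually_atTop.1 h
  set ε : ℝ := (c' - c) / (c + 1) with hε
  have hε0 : 0 < ε := div_pos (by linarith) (by linarith)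
  have hcε : c * (1 + ε) ≤ c' := by
    have : c * ε ≤ c' - c := by
      rw [hε, mul_div_assoc', div_le_iff₀ (by linarith)]
      nlinarith
    linarith
  set n1 := max (max n0 3) ⌈1 / ε⌉₊ with hn1
  have hl1 : ∀ M : ℕ, 3 ≤ M → 1 ≤ log (M:ℝ) := by
    intro M hM
    rw [le_log_iff_exp_le (by exact_mod_cast (by omega : 0 < M))]
    have := Real.exp_one_lt_d9
    have h3 : (3:ℝ) ≤ M := by exact_mod_cast hM
    linarith
  have hll : ∀ M : ℕ, 3 ≤ M → 0 ≤ log (log (M:ℝ)) := fun M hM => log_nonneg (hl1 M hM)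
  set S0 : ℝ := ∑ n ∈ range n1, (∑ i ∈ range (n + 1), g i) / (n * (n + 1)) with hS0
  have hS0' : 0 ≤ S0 := sum_nonneg fun n _ => div_nonneg (sum_nonneg fun i _ => hg i) (by positivity)
  have hn13 : 3 ≤ n1 := le_trans (le_max_right _ _) (le_max_left _ _)
  have hsum : ∀ N : ℕ, n1 ≤ N → ∑ n ∈ range N, (∑ i ∈ range (n + 1), g i) / (n * (n + 1)) ≤
      S0 + c * (1 + ε) * (log (log (N:ℝ)) - log (log (n1 : ℝ))) := by
    intro N hN
    induction N, hN using Nat.le_induction with
    | base => simp [hS0]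
    | succ N hN ih =>
      rw [sum_range_succ]
      have hN3 : 3 ≤ N := hn13.trans hN
      have hNn0 : n0 ≤ N := le_trans (le_trans (le_max_left _ _) (le_max_left _ _)) hN
      have hNε : 1 / ε ≤ N := by
        calc 1 / ε ≤ ⌈1 / ε⌉₊ := Nat.le_ceil _
          _ ≤ N := by exact_mod_cast le_trans (le_max_right _ _) hN
      have hNr : (3:ℝ) ≤ N := by exact_mod_cast hN3
      have hlN : 0 < log (N:ℝ) := log_pos (by linarith)
      have h1 := hn0 N hNn0
      have h2 := loglog_diff_sharp hε0 hN3 hNε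
      have h4 : (∑ i ∈ range (N + 1), g i) / (N * (N + 1)) ≤ c * (1 / (((N:ℝ) + 1) * log N)) := by
        have : c * (1 / (((N:ℝ) + 1) * log N)) = (c * N / log N) / (N * (N + 1)) := by
          field_simp
        rw [this]
        apply div_le_div_of_nonneg_right h1 (by positivity)
      push_cast
      nlinarith [mul_le_mul_of_nonneg_left h2 hc]
  set T0 : ℝ := ∑ i ∈ range (n1 + 2), g i / i with hT0
  have hT0' : 0 ≤ T0 := sum_nonneg fun i _ => div_nonneg (hg i) (Nat.cast_nonneg _)
  refine ⟨S0 + T0 + c + 1, by positivity, ?_⟩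
  intro N hN
  have hllN := hll N hN
  by_cases hNn : n1 + 1 ≤ N
  · obtain ⟨N', rfl⟩ : ∃ N', N = N' + 1 := ⟨N - 1, by omega⟩
    have h1 := abel g h0 N'
    have h2 := hsum (N' + 1) (by omega)
    rw [h1]
    have h3 : (∑ i ∈ range (N' + 2), g i) / ((N':ℝ) + 1) ≤ c := by
      have hn0n1 : n0 ≤ n1 := le_trans (le_max_left n0 3) (le_max_left _ _)
      have e1 := hn0 (N' + 1) (by omega)
      have e2 := hl1 (N' + 1) hN
      push_cast at e1 e2
      rw [div_le_iff₀ (by positivity)]
      refine e1.trans ?_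
      rw [div_le_iff₀ (by linarith)]
      have : 0 ≤ c * ((N':ℝ) + 1) := by positivity
      nlinarith
    have h5 := hll n1 hn13
    have h6 : c * (1 + ε) * (log (log (((N' + 1 : ℕ)):ℝ)) - log (log (n1 : ℝ))) ≤
      c' * log (log (((N' + 1 : ℕ)):ℝ)) := by
      have h7 : 0 ≤ c * (1 + ε) * log (log (n1 : ℝ)) := by positivity
      have h8 : c * (1 + ε) * log (log (((N' + 1 : ℕ)):ℝ)) ≤ c' * log (log (((N' + 1 : ℕ)):ℝ)) :=
        mul_le_mul_of_nonneg_right hcε hllN
      linarith
    linarith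
  · have h1 : ∑ i ∈ range (N + 1), g i / i ≤ T0 := by
      apply sum_le_sum_of_subset_of_nonneg
      · apply range_mono
        omega
      · intro i _ _
        exact div_nonneg (hg i) (Nat.cast_nonneg _)
    refine h1.trans ?_
    have : 0 ≤ c' * log (log (N:ℝ)) := mul_nonneg (by linarith) hllN
    linarith

open scoped Classical in
theorem count_upper_sharp (M : ℕ) [NeZero M] (H : ZMod M → ℕ) (g : ℕ → ℝ) (Kb P1 : ℕ)
    (hgK : ∀ p, g p ≤ Kb) (hg0 : ∀ p, ¬ p.Prime → g p = 0)
    (hgH : ∀ p : ℕ, p.Prime → P1 < p → IsUnit (p : ZMod M) → g p ≤ (H (p : ZMod M) : ℝ)) (c : ℝ)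
    (hc : (∑ a ∈ (univ : Finset (ZMod M)).filter (fun a => IsUnit a), (H a : ℝ)) / (M.totient : ℝ) < c) :
    ∀ᶠ n : ℕ in atTop, ∑ i ∈ range (n + 1), g i ≤ c * n / log n := by
  set U := (univ : Finset (ZMod M)).filter (fun a => IsUnit a) with hU
  set cnt : ZMod M → ℕ → ℝ := fun a n =>
    (((Finset.range (n + 1)).filter (fun p : ℕ => p.Prime ∧ (p : ZMod M) = a)).card : ℝ) with hcnt
  have hlogn : Tendsto (fun n : ℕ => log (n:ℝ) / n) atTop (nhds 0) := by
    have h1 : Tendsto (fun x : ℝ => log x / x) atTop (nhds 0) := by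
      have := Real.isLittleO_log_id_atTop.tendsto_div_nhds_zero
      simpa using this
    exact h1.comp tendsto_natCast_atTop_atTop
  set K1 : ℝ := Kb * (P1 + M + 1) with hK1
  have hlim : Tendsto (fun n : ℕ => ∑ a ∈ U, (H a : ℝ) * (cnt a n * log n / n) +
      K1 * (log (n:ℝ) / n)) atTop
      (nhds ((∑ a ∈ U, (H a : ℝ)) / (M.totient : ℝ))) := by
    have h1 : Tendsto (fun n : ℕ => ∑ a ∈ U, (H a : ℝ) * (cnt a n * log n / n)) atTop
        (nhds (∑ a ∈ U, (H a : ℝ) * (1 / (M.totient : ℝ)))) := by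
      apply tendsto_finsetSum
      intro a ha
      exact (Pool.Agent.Helper6.pi_ap_nat (mem_filter.1 ha).2).const_mul _
    have h2 := h1.add (hlogn.const_mul K1)
    have h3 : (∑ a ∈ U, (H a : ℝ) * (1 / (M.totient : ℝ))) + K1 * 0 =
        (∑ a ∈ U, (H a : ℝ)) / (M.totient : ℝ) := by
      rw [mul_zero, add_zero, ← sum_mul, mul_one_div]
    rw [h3] at h2
    exact h2
  have hev := hlim.eventually (gt_mem_nhds hc)
  filter_upwards [hev, eventually_ge_atTop 3] with n hn hn3
  have hn0 : (0:ℝ) < n := by exact_mod_cast (by omega : 0 < n)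
  have hln : 0 < log (n:ℝ) := log_pos (by exact_mod_cast (by omega : 1 < n))
  have hup : ∑ i ∈ range (n + 1), g i ≤ ∑ a ∈ U, (H a : ℝ) * cnt a n + K1 := by
    have h1 : ∑ i ∈ range (n + 1), g i = ∑ p ∈ (range (n + 1)).filter Nat.Prime, g p := by
      rw [sum_filter]
      apply sum_congr rfl
      intro i _
      split_ifs with hi
      · rfl
      · exact hg0 i hi
    rw [h1, ← sum_filter_add_sum_filter_not ((range (n + 1)).filter Nat.Prime) (fun p => P1 + M < p)]
    apply add_le_add
    · -- large primes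
      have h2 : ∑ p ∈ ((range (n + 1)).filter Nat.Prime).filter (fun p => P1 + M < p), g p ≤
          ∑ p ∈ ((range (n + 1)).filter Nat.Prime).filter (fun p => P1 + M < p), (H (p : ZMod M) : ℝ) := by
        apply sum_le_sum
        intro p hp
        obtain ⟨hp1, hp2⟩ := mem_filter.1 hp
        have hpp := (mem_filter.1 hp1).2
        apply hgH p hpp (by omega)
        rw [ZMod.isUnit_iff_coprime, Nat.Prime.coprime_iff_not_dvd hpp]
        intro h
        have := Nat.le_of_dvd (Nat.pos_of_ne_zero (NeZero.ne M)) h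
        omega
      refine h2.trans ?_
      have h3 : ∑ p ∈ ((range (n + 1)).filter Nat.Prime).filter (fun p => P1 + M < p), (H (p : ZMod M) : ℝ) =
          ∑ a ∈ U, ∑ p ∈ (((range (n + 1)).filter Nat.Prime).filter (fun p => P1 + M < p)).filter
            (fun p : ℕ => (p : ZMod M) = a), (H (p : ZMod M) : ℝ) := by
        symm
        apply sum_fiberwise_of_maps_to
        intro p hp
        obtain ⟨hp1, hp2⟩ := mem_filter.1 hp
        have hpp := (mem_filter.1 hp1).2
        rw [hU, mem_filter]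
        refine ⟨mem_univ _, ?_⟩
        rw [ZMod.isUnit_iff_coprime, Nat.Prime.coprime_iff_not_dvd hpp]
        intro h
        have := Nat.le_of_dvd (Nat.pos_of_ne_zero (NeZero.ne M)) h
        omega
      rw [h3]
      apply sum_le_sum
      intro a _
      calc _ = ∑ p ∈ (((range (n + 1)).filter Nat.Prime).filter (fun p => P1 + M < p)).filter
            (fun p : ℕ => (p : ZMod M) = a), (H a : ℝ) := by
            apply sum_congr rfl
            intro p hp
            rw [(mem_filter.1 hp).2]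
        _ = ((((range (n + 1)).filter Nat.Prime).filter (fun p => P1 + M < p)).filter
            (fun p : ℕ => (p : ZMod M) = a)).card * (H a : ℝ) := by rw [sum_const, nsmul_eq_mul]
        _ ≤ cnt a n * (H a : ℝ) := by
            apply mul_le_mul_of_nonneg_right _ (Nat.cast_nonneg _)
            have : (((range (n + 1)).filter Nat.Prime).filter (fun p => P1 + M < p)).filter
                (fun p : ℕ => (p : ZMod M) = a) ⊆
                (range (n + 1)).filter (fun p : ℕ => p.Prime ∧ (p : ZMod M) = a) := by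
              intro p hp
              simp only [mem_filter] at hp ⊢
              exact ⟨hp.1.1.1, hp.1.1.2, hp.2⟩
            have h5 := card_le_card this
            simp only [hcnt]
            exact_mod_cast h5
        _ = (H a : ℝ) * cnt a n := mul_comm _ _
    · -- small primes
      calc ∑ p ∈ ((range (n + 1)).filter Nat.Prime).filter (fun p => ¬ P1 + M < p), g p
          ≤ ∑ p ∈ ((range (n + 1)).filter Nat.Prime).filter (fun p => ¬ P1 + M < p), (Kb : ℝ) :=
            sum_le_sum fun p _ => hgK p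
        _ = (((range (n + 1)).filter Nat.Prime).filter (fun p => ¬ P1 + M < p)).card * (Kb : ℝ) := by
            rw [sum_const, nsmul_eq_mul]
        _ ≤ ((P1 + M + 1 : ℕ) : ℝ) * Kb := by
            apply mul_le_mul_of_nonneg_right _ (Nat.cast_nonneg _)
            have : ((range (n + 1)).filter Nat.Prime).filter (fun p => ¬ P1 + M < p) ⊆ range (P1 + M + 1) := by
              intro p hp
              rw [mem_range]
              have := (mem_filter.1 hp).2
              omega
            have h4 := card_le_card this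
            rw [card_range] at h4
            exact_mod_cast h4
        _ = K1 := by
            rw [hK1]
            push_cast
            ring
  refine hup.trans ?_
  rw [le_div_iff₀ hln]
  have h5 : (∑ a ∈ U, (H a : ℝ) * (cnt a n * log n / n) + K1 * (log (n:ℝ) / n)) * n < c * n :=
    mul_lt_mul_of_pos_right hn hn0
  have h6 : (∑ a ∈ U, (H a : ℝ) * (cnt a n * log n / n) + K1 * (log (n:ℝ) / n)) * n =
      (∑ a ∈ U, (H a : ℝ) * cnt a n + K1) * log n := by
    have e1 : (∑ a ∈ U, (H a : ℝ) * (cnt a n * log n / n)) * n = (∑ a ∈ U, (H a : ℝ) * cnt a n) * log n := by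
      rw [sum_mul, sum_mul]
      apply sum_congr rfl
      intro a _
      field_simp
    have e2 : (K1 * (log (n:ℝ) / n)) * n = K1 * log n := by
      rw [mul_assoc, div_mul_cancel₀ _ hn0.ne']
    rw [add_mul, add_mul, e1, e2]
  rw [h6] at h5
  exact h5.le

end Pool.Agent.Helper27.IS
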