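import Pool.Agent.Helper27.IS.Exc2

/-!
# One scale of the construction
-/

set_option autoImplicit false

namespace Pool.Agent.Helper27.IS

open Finset Filter Real
open scoped NumberTheorySymbols

open scoped Classical in
/-- The average of `2 (t - 1)` over the reduced residue classes. -/
theorem avgE (E : Finset ℕ) (hE : ∀ e ∈ E, ¬ IsSquare e) (e1 e2 : ℕ) (he1 : e1 ∈ E) (he2 : e2 ∈ E)
    (h12 : ¬ IsSquare (e1 * e2)) (M : ℕ) [NeZero M] (hM : ∀ e ∈ E, 4 * e ∣ M)
    (hM12 : 4 * (e1 * e2) ∣ M) :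
    ∑ a ∈ (univ : Finset (ZMod M)).filter (fun a => IsUnit a), ((2 * (tE E a.val - 1) : ℕ) : ℝ) ≤
      ((E.card : ℝ) - 3 / 2) * M.totient := by
  have he0 : ∀ e ∈ E, e ≠ 0 := by
    intro e he h
    exact hE e he (by rw [h]; exact ⟨0, by simp⟩)
  have hM2 : Even M := by
    rw [even_iff_two_dvd]
    exact (Dvd.intro (2 * e1) (by ring)).trans (hM e1 he1)
  have hsum : ∀ f : ZMod M → ℝ, ∑ a ∈ (univ : Finset (ZMod M)).filter (fun a => IsUnit a), f a =
      ∑ v : (ZMod M)ˣ, f v := by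
    intro f
    symm
    refine sum_bij (fun v _ => (v : ZMod M)) ?_ ?_ ?_ ?_
    · intro v _
      rw [mem_filter]
      exact ⟨mem_univ _, v.isUnit⟩
    · intro v _ w _ h
      exact Units.ext h
    · intro a ha
      obtain ⟨v, hv⟩ := (mem_filter.1 ha).2
      exact ⟨v, mem_univ _, hv⟩
    · intro v _
      rfl
  rw [hsum]
  have hodd : ∀ v : (ZMod M)ˣ, Odd (v : ZMod M).val := by
    intro v
    have h1 : (v : ZMod M).val.Coprime M := ZMod.val_coe_unit_coprime v
    have h2 : (v : ZMod M).val.Coprime 2 := h1.coprime_dvd_right (even_iff_two_dvd.1 hM2)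
    exact Nat.coprime_two_right.1 h2
  have hpm : ∀ v : (ZMod M)ˣ, ∀ e ∈ E, J((e : ℤ) | (v : ZMod M).val) = 1 ∨
      J((e : ℤ) | (v : ZMod M).val) = -1 := by
    intro v e he
    rcases jacobiSym.trichotomy (e : ℤ) (v : ZMod M).val with h | h | h
    · exfalso
      have hne : NeZero (v : ZMod M).val := ⟨by
        have := hodd v
        intro h0
        rw [h0] at this
        simp at this⟩
      rw [jacobiSym.eq_zero_iff_not_coprime] at h
      apply h
      have h1 : (v : ZMod M).val.Coprime M := ZMod.val_coe_unit_coprime v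
      have h2 : (v : ZMod M).val.Coprime e :=
        h1.coprime_dvd_right ((Dvd.intro_left _ rfl).trans (hM e he))
      rw [Int.gcd_natCast_natCast]
      exact h2.symm
    · left; exact h
    · right; exact h
  have htt : ∀ v : (ZMod M)ˣ, (2 * (tE E (v : ZMod M).val : ℤ)) =
      (E.card : ℤ) - ∑ e ∈ E, J((e : ℤ) | (v : ZMod M).val) := by
    intro v
    have h1 : (tE E (v : ZMod M).val : ℤ) = ∑ e ∈ E, if J((e : ℤ) | (v : ZMod M).val) = -1 then (1:ℤ) else 0 := by
      unfold tE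
      rw [card_filter]
      push_cast
      rfl
    have h2 : (E.card : ℤ) = ∑ e ∈ E, (1 : ℤ) := by
      rw [sum_const]
      simp
    rw [h1, h2, mul_sum, ← sum_sub_distrib]
    apply sum_congr rfl
    intro e he
    rcases hpm v e he with h | h <;> rw [h] <;> norm_num
  have hsq : ∀ n : ℕ, ¬ IsSquare n → ¬ IsSquare (n : ℤ) := by
    rintro n hn ⟨r, hr⟩
    apply hn
    refine ⟨r.natAbs, ?_⟩
    have := congrArg Int.natAbs hr
    rwa [Int.natAbs_natCast, Int.natAbs_mul] at this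
  have hzero : ∀ n : ℕ, n ≠ 0 → ¬ IsSquare n → 4 * n ∣ M →
      ∑ v : (ZMod M)ˣ, J((n : ℤ) | (v : ZMod M).val) = 0 := by
    intro n hn0 hn hnM
    apply sum_units_jacobi
    · exact_mod_cast hn0
    · exact hsq n hn
    · rwa [Int.natAbs_natCast]
  have hcardu : (∑ v : (ZMod M)ˣ, (1 : ℤ)) = M.totient := by
    rw [sum_const, card_univ, ZMod.card_units_eq_totient]
    simp
  have htot : ∑ v : (ZMod M)ˣ, (4 * (tE E (v : ZMod M).val : ℤ)) = 2 * E.card * M.totient := by
    have h1 : ∀ v : (ZMod M)ˣ, (4 * (tE E (v : ZMod M).val : ℤ)) =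
        2 * ((E.card : ℤ) * 1 - ∑ e ∈ E, J((e : ℤ) | (v : ZMod M).val)) := by
      intro v
      have := htt v
      linarith
    rw [sum_congr rfl fun v _ => h1 v, ← mul_sum, sum_sub_distrib, sum_comm,
      sum_eq_zero (fun e he => hzero e (he0 e he) (hE e he) (hM e he)), ← mul_sum, hcardu]
    ring
  have hpair : ∑ v : (ZMod M)ˣ, (1 + J((e1 : ℤ) | (v : ZMod M).val)) * (1 + J((e2 : ℤ) | (v : ZMod M).val)) =
      M.totient := by
    have h1 : ∀ v : (ZMod M)ˣ, (1 + J((e1 : ℤ) | (v : ZMod M).val)) * (1 + J((e2 : ℤ) | (v : ZMod M).val)) =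
        1 + J((e1 : ℤ) | (v : ZMod M).val) + J((e2 : ℤ) | (v : ZMod M).val) +
          J(((e1 * e2 : ℕ) : ℤ) | (v : ZMod M).val) := by
      intro v
      push_cast
      rw [jacobiSym.mul_left]
      ring
    rw [sum_congr rfl fun v _ => h1 v, sum_add_distrib, sum_add_distrib, sum_add_distrib, hcardu,
      hzero e1 (he0 e1 he1) (hE e1 he1) (hM e1 he1), hzero e2 (he0 e2 he2) (hE e2 he2) (hM e2 he2),
      hzero (e1 * e2) (mul_ne_zero (he0 e1 he1) (he0 e2 he2)) h12 hM12]
    ring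
  have hle : ∀ v : (ZMod M)ˣ, (2 * ((2 * (tE E (v : ZMod M).val - 1) : ℕ) : ℤ)) ≤
      4 * (tE E (v : ZMod M).val : ℤ) - 4 * 1 +
        (1 + J((e1 : ℤ) | (v : ZMod M).val)) * (1 + J((e2 : ℤ) | (v : ZMod M).val)) := by
    intro v
    have hnn : 0 ≤ (1 + J((e1 : ℤ) | (v : ZMod M).val)) * (1 + J((e2 : ℤ) | (v : ZMod M).val)) := by
      rcases hpm v e1 he1 with h1 | h1 <;> rcases hpm v e2 he2 with h2 | h2 <;> rw [h1, h2] <;> norm_num
    rcases Nat.eq_zero_or_pos (tE E (v : ZMod M).val) with h0 | hpos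
    · have hone : ∀ e ∈ E, J((e : ℤ) | (v : ZMod M).val) = 1 := by
        intro e he
        rcases hpm v e he with h | h
        · exact h
        · exfalso
          unfold tE at h0
          rw [card_eq_zero, filter_eq_empty_iff] at h0
          exact h0 he h
      rw [hone e1 he1, hone e2 he2, h0]
      norm_num
    · push_cast
      omega
  have key : 2 * ∑ v : (ZMod M)ˣ, ((2 * (tE E (v : ZMod M).val - 1) : ℕ) : ℤ) ≤
      (2 * (E.card : ℤ) - 3) * M.totient := by
    rw [mul_sum]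
    refine (sum_le_sum fun v _ => hle v).trans ?_
    rw [sum_add_distrib, sum_sub_distrib, htot, hpair, ← mul_sum, hcardu]
    apply le_of_eq
    ring
  have key' : 2 * ∑ v : (ZMod M)ˣ, ((2 * (tE E (v : ZMod M).val - 1) : ℕ) : ℝ) ≤
      (2 * (E.card : ℝ) - 3) * M.totient := by exact_mod_cast key
  linarith

/-- The goodness of the weights. -/
lemma good_weight (E : Finset ℕ) (B P : ℕ) (hK : 1 ≤ E.card)
    (hP : (8 * E.card + 1) * (2 * B + 4 * E.card + 2) ≤ P) (p : ℕ) (hp : p.Prime) (hPp : P < p) :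
    tE E p - 1 ≤ (adm E B p).card ∧
      exp (- ((1 + 1 / (8 * (E.card : ℝ))) * (((2 * (tE E p - 1) : ℕ) : ℝ) / p))) * (adm E B p).card ≤
        (adm E B p).card - ((tE E p - 1 : ℕ) : ℝ) := by
  set K := E.card with hKdef
  set s := tE E p - 1 with hs
  set d := (adm E B p).card with hd
  have hsK : s ≤ K := by
    have := tE_le E p
    omega
  have hadm := adm_card E B p hp
  rw [← hd, ← hKdef] at hadm
  have hpP : (8 * K + 1) * (2 * B + 4 * K + 2) < p := lt_of_le_of_lt hP hPp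
  have hbig : 2 * B + 4 * K + 2 < p := by
    have : 1 * (2 * B + 4 * K + 2) ≤ (8 * K + 1) * (2 * B + 4 * K + 2) :=
      Nat.mul_le_mul_right _ (by omega)
    omega
  have hds : p ≤ 2 * d + 2 * B + 2 * K + 2 := by omega
  have hsd : s ≤ d := by omega
  refine ⟨hsd, ?_⟩
  have hKr : (1:ℝ) ≤ K := by exact_mod_cast hK
  have hpr : (0:ℝ) < p := by exact_mod_cast hp.pos
  set w : ℝ := (1 + 1 / (8 * (K : ℝ))) * (((2 * s : ℕ) : ℝ) / p) with hw
  have hw0 : 0 ≤ w := by positivity
  have h1 : exp (- w) ≤ 1 / (1 + w) := by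
    rw [exp_neg, ← one_div]
    apply one_div_le_one_div_of_le (by linarith)
    have := add_one_le_exp w
    linarith
  have hd0 : (0:ℝ) ≤ d := Nat.cast_nonneg _
  have h2 : exp (- w) * d ≤ (1 / (1 + w)) * d := mul_le_mul_of_nonneg_right h1 hd0
  refine h2.trans ?_
  rw [one_div, inv_mul_le_iff₀ (by linarith)]
  -- d ≤ (1 + w) (d - s)
  have h3 : (s:ℝ) ≤ (d - s) * w := by
    have h4 : (p:ℝ) ≤ (1 + 1 / (8 * (K : ℝ))) * 2 * (d - s) := by
      have h5 : (p:ℝ) ≤ 2 * d + 2 * B + 2 * K + 2 := by exact_mod_cast hds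
      have h6 : (s:ℝ) ≤ K := by exact_mod_cast hsK
      have h7 : ((8 * (K:ℝ) + 1) * (2 * B + 4 * K + 2)) < p := by exact_mod_cast hpP
      have h8 : (p:ℝ) - (2 * B + 4 * K + 2) ≤ 2 * (d - s) := by linarith
      have h9 : (p:ℝ) ≤ (1 + 1 / (8 * (K : ℝ))) * (p - (2 * B + 4 * K + 2)) := by
        have h10 : (1 + 1 / (8 * (K : ℝ))) * ((p:ℝ) - (2 * B + 4 * K + 2)) =
            p + (p - (8 * K + 1) * (2 * B + 4 * K + 2)) / (8 * K) := by
          field_simp
          ring
        rw [h10]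
        have : 0 ≤ ((p:ℝ) - (8 * K + 1) * (2 * B + 4 * K + 2)) / (8 * K) := by
          apply div_nonneg _ (by positivity)
          linarith
        linarith
      calc (p:ℝ) ≤ (1 + 1 / (8 * (K : ℝ))) * (p - (2 * B + 4 * K + 2)) := h9
        _ ≤ (1 + 1 / (8 * (K : ℝ))) * (2 * (d - s)) := by gcongr
        _ = _ := by ring
    have h5 : (d - s) * w = ((1 + 1 / (8 * (K : ℝ))) * 2 * (d - s)) * (s / p) := by
      rw [hw]
      push_cast
      ring
    rw [h5]
    calc (s:ℝ) = p * (s / p) := by field_simp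
      _ ≤ _ := by gcongr
  nlinarith

end Pool.Agent.Helper27.IS
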