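import Pool.Agent.Helper27.IS.Exc3

/-!
# One scale of the construction: the step
-/

set_option autoImplicit false

namespace Pool.Agent.Helper27.IS

open Finset Filter Real
open scoped NumberTheorySymbols

/-- Two close elements. -/
lemma close_pair (S : Finset ℕ) (Y j : ℕ) (hS : ∀ q ∈ S, q ≤ Y)
    (hcard : (j + 1) * (Nat.sqrt Y + 1) + 2 ≤ S.card) (hj : 1 ≤ j) :
    ∃ q ∈ S, ∃ q' ∈ S, q < q' ∧ j * (q' - q) ≤ q ∧ j ≤ q := by
  classical
  set g := Nat.sqrt Y + 1 with hg
  have hg1 : 1 ≤ g := by omega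
  have hYg : Y / g ≤ Nat.sqrt Y := by
    have h1 : Y < g * g := Nat.lt_succ_sqrt Y
    have h2 : Y / g < g := Nat.div_lt_of_lt_mul h1
    omega
  set S' := S.filter (fun q => j * g ≤ q) with hS'
  have h1 : (S.filter (fun q => ¬ j * g ≤ q)).card ≤ j * g := by
    have : S.filter (fun q => ¬ j * g ≤ q) ⊆ range (j * g) := by
      intro q hq
      rw [mem_range]
      have := (mem_filter.1 hq).2
      omega
    have h2 := card_le_card this
    rwa [card_range] at h2
  have h2 : S'.card + (S.filter (fun q => ¬ j * g ≤ q)).card = S.card :=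
    card_filter_add_card_filter_not _
  have h3 : Y / g + 1 < S'.card := by
    have : (j + 1) * g = j * g + g := by ring
    omega
  obtain ⟨q, hq, q', hq', hne, heq⟩ := exists_ne_map_eq_of_card_lt_of_maps_to (s := S') (t := range (Y / g + 1))
    (f := fun q => q / g) (by rw [card_range]; exact h3) (by
      intro q hq
      rw [mem_coe, mem_range]
      have h4 := hS q (mem_filter.1 hq).1
      have := Nat.div_le_div_right (c := g) h4
      simp only
      omega)
  have key : ∀ a b : ℕ, a ∈ S' → b ∈ S' → a < b → a / g = b / g →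
      ∃ q ∈ S, ∃ q' ∈ S, q < q' ∧ j * (q' - q) ≤ q ∧ j ≤ q := by
    intro a b ha hb hab hdiv
    refine ⟨a, (mem_filter.1 ha).1, b, (mem_filter.1 hb).1, hab, ?_, ?_⟩
    · have h4 := (mem_filter.1 ha).2
      have h5 : b - a ≤ g := by
        have h6 := Nat.div_add_mod a g
        have h7 := Nat.div_add_mod b g
        have h8 := Nat.mod_lt b hg1
        rw [hdiv] at h6
        omega
      calc j * (b - a) ≤ j * g := Nat.mul_le_mul_left _ h5
        _ ≤ a := h4
    · have h4 := (mem_filter.1 ha).2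
      calc j = j * 1 := by ring
        _ ≤ j * g := Nat.mul_le_mul_left _ hg1
        _ ≤ a := h4
  rcases lt_or_gt_of_ne hne with h | h
  · exact key q q' hq hq' h heq
  · exact key q' q hq' hq h heq.symm

open scoped Classical in
theorem step (E : Finset ℕ) (hE : ∀ e ∈ E, ¬ IsSquare e) (e1 e2 : ℕ) (he1 : e1 ∈ E) (he2 : e2 ∈ E)
    (h12 : ¬ IsSquare (e1 * e2)) (B P j : ℕ) (hj : 1 ≤ j)
    (hP : (8 * E.card + 1) * (2 * B + 4 * E.card + 2) ≤ P) :
    ∃ (Y P' : ℕ) (S : Finset ℕ) (R : ℕ → Finset ℕ),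
      (j ≤ Y ∧ 3 ≤ Y ∧ B ≤ Y ∧ P < P' ∧ (8 * E.card + 1) * (2 * Y + 4 * E.card + 2) ≤ P') ∧
      (∀ q ∈ S, q.Prime ∧ q ≤ Y ∧ q ≡ 1 [MOD (4 * ∏ e ∈ E, e) * P.factorial]) ∧
      ((j : ℝ) * Y / (log Y) ^ E.card ≤ S.card) ∧
      (∀ p : ℕ, p.Prime → P < p → p ≤ P' → R p ⊆ adm E B p ∧ (R p).card = tE E p - 1 ∧
        ∀ q ∈ S, ∀ r ∈ R p, q % p ≠ r ∧ q % p ≠ p - r) ∧
      (∃ q ∈ S, ∃ q' ∈ S, q < q' ∧ j * (q' - q) ≤ q ∧ j ≤ q) := by
  have hne12 : e1 ≠ e2 := by
    rintro rfl
    exact h12 ⟨e1, rfl⟩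
  set K := E.card with hK
  have hK2 : 2 ≤ K := by
    have h1 : ({e1, e2} : Finset ℕ) ⊆ E := by
      intro x hx
      rw [mem_insert, mem_singleton] at hx
      rcases hx with rfl | rfl
      · exact he1
      · exact he2
    have h2 := card_le_card h1
    rwa [card_pair hne12] at h2
  have hKr : (2:ℝ) ≤ K := by exact_mod_cast hK2
  have he0 : ∀ e ∈ E, e ≠ 0 := by
    intro e he h
    exact hE e he (by rw [h]; exact ⟨0, by simp⟩)
  set M : ℕ := 4 * ∏ e ∈ E, e with hM
  have hM0 : M ≠ 0 := mul_ne_zero (by norm_num) (prod_ne_zero_iff.2 he0)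
  have hMne : NeZero M := ⟨hM0⟩
  have hMd : ∀ e ∈ E, 4 * e ∣ M := fun e he => mul_dvd_mul_left 4 (dvd_prod_of_mem _ he)
  have hM12 : 4 * (e1 * e2) ∣ M := by
    apply mul_dvd_mul_left 4
    have h1 : ∏ e ∈ ({e1, e2} : Finset ℕ), e ∣ ∏ e ∈ E, e := by
      apply prod_dvd_prod_of_subset
      intro x hx
      rw [mem_insert, mem_singleton] at hx
      rcases hx with rfl | rfl
      · exact he1
      · exact he2
    rwa [prod_pair hne12] at h1
  have hM2 : Even M := by
    rw [even_iff_two_dvd]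
    exact Dvd.intro (2 * ∏ e ∈ E, e) (by rw [hM]; ring)
  -- the weight function
  set g : ℕ → ℝ := fun p => if p.Prime then ((2 * (tE E p - 1) : ℕ) : ℝ) else 0 with hg
  have hg0 : ∀ n, 0 ≤ g n := by
    intro n
    rw [hg]
    simp only
    split_ifs
    · exact Nat.cast_nonneg _
    · exact le_refl _
  have hg00 : g 0 = 0 := by
    rw [hg]
    simp only
    rw [if_neg Nat.not_prime_zero]
  have hgK : ∀ p, g p ≤ ((2 * K : ℕ) : ℝ) := by
    intro p
    rw [hg]
    simp only
    split_ifs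
    · have := tE_le E p
      have h2 : 2 * (tE E p - 1) ≤ 2 * K := by omega
      exact_mod_cast h2
    · exact Nat.cast_nonneg _
  have hgnp : ∀ p, ¬ p.Prime → g p = 0 := by
    intro p hp
    rw [hg]
    simp only
    rw [if_neg hp]
  set H : ZMod M → ℕ := fun a => 2 * (tE E a.val - 1) with hH
  have hgH : ∀ p : ℕ, p.Prime → 2 < p → IsUnit (p : ZMod M) → g p ≤ (H (p : ZMod M) : ℝ) := by
    intro p hp hp2 _
    have hpodd : Odd p := hp.odd_of_ne_two (by omega)
    rw [hg, hH]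
    simp only
    rw [if_pos hp, ZMod.val_natCast]
    have : tE E (p % M) = tE E p := by
      unfold tE
      congr 1
      apply filter_congr
      intro e he
      rw [jacobi_mod (u := (e : ℤ)) (by rw [Int.natAbs_natCast]; exact hMd e he) hM2 hpodd]
    rw [this]
  have htot0 : (0:ℝ) < M.totient := by
    exact_mod_cast Nat.totient_pos.2 (Nat.pos_of_ne_zero hM0)
  have havg : (∑ a ∈ (univ : Finset (ZMod M)).filter (fun a => IsUnit a), (H a : ℝ)) / (M.totient : ℝ) <
      (K : ℝ) - 11 / 8 := by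
    rw [div_lt_iff₀ htot0]
    have h1 := avgE E hE e1 e2 he1 he2 h12 M hMd hM12
    rw [← hK] at h1
    refine lt_of_le_of_lt h1 ?_
    nlinarith
  have hcnt := count_upper_sharp M H g (2 * K) 2 hgK hgnp hgH _ havg
  obtain ⟨C1, hC1, hC1'⟩ := sum_upper_sharp g hg0 hg00 ((K : ℝ) - 11 / 8) ((K : ℝ) - 5 / 4)
    (by linarith) (by linarith) hcnt
  -- constants
  set ρ : ℝ := 1 + 1 / (8 * (K : ℝ)) with hρ
  have hρ0 : 0 < ρ := by positivity
  set κ : ℝ := ρ * ((K : ℝ) - 5 / 4) with hκ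
  have hκK : κ < (K : ℝ) - 1 := by
    have : κ = (K : ℝ) - 9 / 8 - 5 / (32 * K) := by
      rw [hκ, hρ]
      field_simp
      ring
    rw [this]
    have : (0:ℝ) < 5 / (32 * K) := by positivity
    linarith
  set θ : ℝ := (K : ℝ) - 1 - κ with hθ
  have hθ0 : 0 < θ := by linarith
  set C2 : ℝ := ρ * (((K : ℝ) - 5 / 4) * log 2 + C1) with hC2
  set m : ℕ := M * P.factorial with hm
  have hm0 : m ≠ 0 := mul_ne_zero hM0 (Nat.factorial_ne_zero _)
  have hmne : NeZero m := ⟨hm0⟩
  have hφm : (0:ℝ) < m.totient := by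
    exact_mod_cast Nat.totient_pos.2 (Nat.pos_of_ne_zero hm0)
  -- eventual conditions
  have hPNT := (Pool.Agent.Helper6.pi_ap_nat (q := m) (a := 1) isUnit_one).eventually
    (lt_mem_nhds (show 1 / (2 * (m.totient : ℝ)) < 1 / (m.totient : ℝ) by
      apply one_div_lt_one_div_of_lt hφm
      linarith))
  have hlogtop : Tendsto (fun Y : ℕ => log (Y : ℝ)) atTop atTop :=
    tendsto_log_atTop.comp tendsto_natCast_atTop_atTop
  have hev1 : ∀ᶠ Y : ℕ in atTop, 2 * (m.totient : ℝ) * j * exp C2 ≤ (log (Y : ℝ)) ^ θ :=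
    ((tendsto_rpow_atTop hθ0).comp hlogtop).eventually_ge_atTop _
  have hev2 : ∀ᶠ Y : ℕ in atTop, (log (Y : ℝ)) ^ (K : ℝ) ≤ 1 / (4 * ((j : ℝ) + 1)) * (Y : ℝ) ^ (1 / 2 : ℝ) := by
    have h1 := (isLittleO_log_rpow_rpow_atTop (K : ℝ) (show (0:ℝ) < 1 / 2 by norm_num)).comp_tendsto
      tendsto_natCast_atTop_atTop (k := fun Y : ℕ => (Y : ℝ))
    have h2 := h1.bound (show (0:ℝ) < 1 / (4 * ((j : ℝ) + 1)) by positivity)
    filter_upwards [h2, eventually_ge_atTop 3] with Y hY hY3
    simp only [Function.comp_apply, Real.norm_eq_abs] at hY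
    have hY3r : (3:ℝ) ≤ Y := by exact_mod_cast hY3
    have hl : 0 < log (Y : ℝ) := log_pos (by linarith)
    rwa [abs_of_nonneg (by positivity), abs_of_nonneg (by positivity)] at hY
  obtain ⟨Y, hY1, hY2, hY3, hY4⟩ := (hPNT.and (hev1.and (hev2.and
    (eventually_ge_atTop (max (max j 3) (max B ((8 * K + 1) * (4 * K + 4) + P + 1))))))).exists
  have hYj : j ≤ Y := le_trans (le_trans (le_max_left _ _) (le_max_left _ _)) hY4
  have hY3' : 3 ≤ Y := le_trans (le_trans (le_max_right _ _) (le_max_left _ _)) hY4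
  have hYB : B ≤ Y := le_trans (le_trans (le_max_left _ _) (le_max_right _ _)) hY4
  have hYP : (8 * K + 1) * (4 * K + 4) + P + 1 ≤ Y :=
    le_trans (le_trans (le_max_right _ _) (le_max_right _ _)) hY4
  have hYr : (3:ℝ) ≤ Y := by exact_mod_cast hY3'
  have hY0 : (0:ℝ) < Y := by linarith
  set L : ℝ := log (Y : ℝ) with hL
  have hL0 : 0 < L := log_pos (by linarith)
  set P' : ℕ := (8 * K + 1) * (2 * Y + 4 * K + 2) + P with hP'
  have hPP' : P < P' := by
    rw [hP']
    have : 0 < (8 * K + 1) * (2 * Y + 4 * K + 2) := by positivity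
    omega
  have hP'Y : P' ≤ Y ^ 2 := by
    calc P' = (8 * K + 1) * (2 * Y + 4 * K + 2) + P := hP'
      _ ≤ (8 * K + 1) * ((4 * K + 4) * Y) + P * Y := by
        apply Nat.add_le_add
        · apply Nat.mul_le_mul_left
          nlinarith
        · exact Nat.le_mul_of_pos_right _ (by omega)
      _ = ((8 * K + 1) * (4 * K + 4) + P) * Y := by ring
      _ ≤ Y * Y := Nat.mul_le_mul_right _ (by omega)
      _ = Y ^ 2 := by ring
  set S0 : Finset ℕ := (range (Y + 1)).filter (fun p : ℕ => p.Prime ∧ (p : ZMod m) = 1) with hS0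
  obtain ⟨S, hS, R, hR, hc⟩ := chain E B P
    (fun p => ρ * (((2 * (tE E p - 1) : ℕ) : ℝ) / p))
    (fun p hp hPp => good_weight E B P (by omega) hP p hp hPp)
    (fun p => by positivity) S0 P' hPP'.le
  have hS0c : (Y : ℝ) / (2 * m.totient * L) ≤ S0.card := by
    rw [lt_div_iff₀ hY0] at hY1
    rw [div_le_iff₀ (by positivity)]
    have h1 : 1 / (2 * (m.totient : ℝ)) * Y * (2 * m.totient) = Y := by field_simp
    have h2 : 1 / (2 * (m.totient : ℝ)) * Y * (2 * m.totient) < (S0.card : ℝ) * L * (2 * m.totient) :=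
      mul_lt_mul_of_pos_right hY1 (by positivity)
    rw [h1] at h2
    linarith
  -- the exponent
  have hP'3 : 3 ≤ P' := by
    have : 1 * (2 * Y + 4 * K + 2) ≤ (8 * K + 1) * (2 * Y + 4 * K + 2) :=
      Nat.mul_le_mul_right _ (by omega)
    omega
  have hsumw : ∑ p ∈ (Ioc P P').filter Nat.Prime, ρ * (((2 * (tE E p - 1) : ℕ) : ℝ) / p) ≤
      κ * log L + C2 := by
    have h1 : ∑ p ∈ (Ioc P P').filter Nat.Prime, ρ * (((2 * (tE E p - 1) : ℕ) : ℝ) / p) ≤
        ρ * ∑ i ∈ range (P' + 1), g i / i := by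
      rw [← mul_sum]
      apply mul_le_mul_of_nonneg_left _ hρ0.le
      calc ∑ p ∈ (Ioc P P').filter Nat.Prime, ((2 * (tE E p - 1) : ℕ) : ℝ) / p
          = ∑ p ∈ (Ioc P P').filter Nat.Prime, g p / p := by
            apply sum_congr rfl
            intro p hp
            rw [hg]
            simp only
            rw [if_pos (mem_filter.1 hp).2]
        _ ≤ _ := by
            apply sum_le_sum_of_subset_of_nonneg
            · intro p hp
              have := (mem_Ioc.1 (mem_filter.1 hp).1).2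
              rw [mem_range]
              omega
            · intro i _ _
              exact div_nonneg (hg0 i) (Nat.cast_nonneg _)
    have h2 := hC1' P' hP'3
    have h3 : log (log (P' : ℝ)) ≤ log 2 + log L := by
      have h4 : log (P' : ℝ) ≤ 2 * L := by
        have h5 : (P' : ℝ) ≤ (Y : ℝ) ^ 2 := by exact_mod_cast hP'Y
        have h6 := log_le_log (by exact_mod_cast (by omega : 0 < P')) h5
        rw [log_pow] at h6
        exact_mod_cast h6
      have h5 : 0 < log (P' : ℝ) := log_pos (by exact_mod_cast (by omega : 1 < P'))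
      rw [← log_mul (by norm_num) hL0.ne']
      exact log_le_log h5 h4
    calc _ ≤ ρ * ∑ i ∈ range (P' + 1), g i / i := h1
      _ ≤ ρ * (((K : ℝ) - 5 / 4) * log (log (P' : ℝ)) + C1) := by gcongr
      _ ≤ ρ * (((K : ℝ) - 5 / 4) * (log 2 + log L) + C1) := by
          gcongr
          linarith
      _ = κ * log L + C2 := by rw [hκ, hC2]; ring
  have hScard : (j : ℝ) * Y / L ^ K ≤ S.card := by
    refine le_trans ?_ hc
    have h1 : exp (-(κ * log L + C2)) ≤
        exp (-∑ p ∈ (Ioc P P').filter Nat.Prime, ρ * (((2 * (tE E p - 1) : ℕ) : ℝ) / p)) := by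
      apply exp_le_exp.2
      linarith
    have h2 : exp (-(κ * log L + C2)) = L ^ (-κ) * exp (-C2) := by
      rw [rpow_def_of_pos hL0, ← exp_add]
      congr 1
      ring
    rw [h2] at h1
    have h3 : (j : ℝ) * Y / L ^ K ≤ (Y : ℝ) / (2 * m.totient * L) * (L ^ (-κ) * exp (-C2)) := by
      rw [div_le_iff₀ (by positivity)]
      have h4 : (L : ℝ) ^ K = L ^ (1 : ℝ) * L ^ κ * L ^ θ := by
        rw [← rpow_natCast, ← rpow_add hL0, ← rpow_add hL0]
        congr 1
        rw [hθ]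
        ring
      rw [h4, rpow_one]
      have h5 : (Y : ℝ) / (2 * m.totient * L) * (L ^ (-κ) * exp (-C2)) * (L * L ^ κ * L ^ θ) =
          (Y : ℝ) * (L ^ θ / (2 * m.totient * exp C2)) := by
        have h6 : L ^ (-κ) * L ^ κ = 1 := by
          rw [← rpow_add hL0]
          simp
        have h7 : exp (-C2) = 1 / exp C2 := by rw [exp_neg, one_div]
        rw [h7]
        calc _ = (Y : ℝ) / (2 * m.totient * L) * (1 / exp C2) * L * L ^ θ * (L ^ (-κ) * L ^ κ) := by ring
          _ = _ := by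
            rw [h6]
            field_simp
      rw [h5]
      have h8 : (j : ℝ) ≤ L ^ θ / (2 * m.totient * exp C2) := by
        rw [le_div_iff₀ (by positivity)]
        calc (j : ℝ) * (2 * m.totient * exp C2) = 2 * (m.totient : ℝ) * j * exp C2 := by ring
          _ ≤ _ := hY2
      nlinarith
    refine h3.trans ?_
    have h4 : 0 ≤ L ^ (-κ) * exp (-C2) := by positivity
    calc (Y : ℝ) / (2 * m.totient * L) * (L ^ (-κ) * exp (-C2)) ≤ S0.card * (L ^ (-κ) * exp (-C2)) := by
          gcongr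
      _ ≤ _ := by gcongr
  have hSY : ∀ q ∈ S, q ≤ Y := by
    intro q hq
    have := mem_range.1 (mem_filter.1 (hS hq)).1
    omega
  refine ⟨Y, P', S, R, ⟨hYj, hY3', hYB, hPP', by rw [hP']; omega⟩, ?_, hScard, hR, ?_⟩
  · intro q hq
    have h1 := (mem_filter.1 (hS hq)).2
    refine ⟨h1.1, hSY q hq, ?_⟩
    rw [← ZMod.natCast_eq_natCast_iff]
    rw [h1.2]
    simp
  · apply close_pair S Y j hSY _ hj
    have h1 : ((((j + 1) * (Nat.sqrt Y + 1) + 2 : ℕ)) : ℝ) ≤ S.card := by
      refine le_trans ?_ hScard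
      rw [← sqrt_eq_rpow, rpow_natCast] at hY3
      have hs1 : (1:ℝ) ≤ √(Y : ℝ) := by
        rw [one_le_sqrt]
        linarith
      have h2 : ((Nat.sqrt Y : ℕ) : ℝ) ≤ √(Y : ℝ) := nat_sqrt_le_real_sqrt
      have hjr : (1:ℝ) ≤ j := by exact_mod_cast hj
      have h3 : 4 * ((j : ℝ) + 1) * √(Y : ℝ) ≤ (j : ℝ) * Y / L ^ K := by
        rw [le_div_iff₀ (by positivity)]
        calc 4 * ((j : ℝ) + 1) * √(Y : ℝ) * L ^ K ≤
              4 * ((j : ℝ) + 1) * √(Y : ℝ) * (1 / (4 * ((j : ℝ) + 1)) * √(Y : ℝ)) := by gcongr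
          _ = √(Y : ℝ) * √(Y : ℝ) := by field_simp
          _ = Y := mul_self_sqrt hY0.le
          _ ≤ (j : ℝ) * Y := by nlinarith
      refine le_trans ?_ h3
      push_cast
      nlinarith
    exact_mod_cast h1

end Pool.Agent.Helper27.IS
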