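import Pool.Agent.Helper27.IS.Core

/-!
# Rigidity
-/

set_option autoImplicit false

namespace Pool.Agent.Helper27.IS

open Finset Filter Real

open scoped Classical in
theorem small_of_core (A B : Set ℕ) (hBA : B ⊆ A) (α β : ℤ) (hα : α ≠ 0) (K : ℕ)
    (hB : ∀ a ∈ B, ∃ m : ℤ, m ^ 2 = α * a + β)
    (hC : ∃ C : ℝ, ∀ᶠ Y : ℕ in atTop,
      (((range Y).filter (fun m : ℕ => ∃ a ∈ A, (m : ℤ) ^ 2 = α * a + β)).card : ℝ) ≤
        C * Y / (log Y) ^ K) :
    ∃ C : ℝ, ∀ X : ℕ, 2 ≤ X → ((B ∩ Set.Icc 1 X).ncard : ℝ) ≤ C * √(X : ℝ) / (log (X : ℝ)) ^ K := by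
  obtain ⟨C, hC⟩ := hC
  obtain ⟨Y0, hY0⟩ := eventually_atTop.1 hC
  set c1 : ℕ := α.natAbs + β.natAbs with hc1
  have hc1pos : 1 ≤ c1 := by
    have := Int.natAbs_pos.2 hα
    omega
  set X0 : ℕ := Y0 ^ 2 + 2 with hX0
  set C' : ℝ := max C 0 with hC'
  have hC'0 : 0 ≤ C' := le_max_right _ _
  have hlogX0 : 0 ≤ log (X0 : ℝ) := log_natCast_nonneg _
  refine ⟨C' * 2 ^ (K + 1) * √(c1 : ℝ) + X0 * (log (X0 : ℝ)) ^ K, ?_⟩
  intro X hX
  have hXr : (2:ℝ) ≤ X := by exact_mod_cast hX
  have hlogX : 0 < log (X : ℝ) := log_pos (by linarith)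
  have hsX : 1 ≤ √(X : ℝ) := by
    rw [one_le_sqrt]; linarith
  have hden : 0 < (log (X : ℝ)) ^ K := by positivity
  rw [add_mul, add_div]
  by_cases hXX : X < X0
  · -- small X
    have h1 : ((B ∩ Set.Icc 1 X).ncard : ℝ) ≤ X0 := by
      have h2 : (B ∩ Set.Icc 1 X).ncard ≤ (Set.Icc 1 X).ncard :=
        Set.ncard_le_ncard Set.inter_subset_right (Set.finite_Icc 1 X)
      have h3 : (Set.Icc 1 X).ncard = X := by
        rw [← Finset.coe_Icc, Set.ncard_coe_finset, Nat.card_Icc]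
        omega
      have h4 : (B ∩ Set.Icc 1 X).ncard ≤ X0 := by omega
      exact_mod_cast h4
    have h2 : (X0:ℝ) ≤ X0 * (log (X0 : ℝ)) ^ K * √(X : ℝ) / (log (X : ℝ)) ^ K := by
      rw [le_div_iff₀ hden]
      have h3 : (log (X : ℝ)) ^ K ≤ (log (X0 : ℝ)) ^ K := by
        apply pow_le_pow_left₀ hlogX.le
        apply log_le_log (by linarith)
        exact_mod_cast hXX.le
      calc (X0:ℝ) * (log (X : ℝ)) ^ K ≤ X0 * (log (X0 : ℝ)) ^ K := by gcongr
        _ = X0 * (log (X0 : ℝ)) ^ K * 1 := by ring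
        _ ≤ X0 * (log (X0 : ℝ)) ^ K * √(X : ℝ) := by gcongr
    have h3 : 0 ≤ C' * 2 ^ (K + 1) * √(c1 : ℝ) * √(X : ℝ) / (log (X : ℝ)) ^ K := by positivity
    linarith
  · push Not at hXX
    set Y : ℕ := Nat.sqrt (c1 * X) + 1 with hY
    have hYY0 : Y0 ≤ Y := by
      have h1 : Y0 ≤ Nat.sqrt (c1 * X) := by
        rw [Nat.le_sqrt']
        calc Y0 ^ 2 ≤ X0 := by omega
          _ ≤ X := hXX
          _ = 1 * X := by ring
          _ ≤ c1 * X := Nat.mul_le_mul_right _ hc1pos
      omega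
    have hcount := hY0 Y hYY0
    -- injection
    choose! m hm using hB
    have hinj : (B ∩ Set.Icc 1 X).ncard ≤
        ((range Y).filter (fun m : ℕ => ∃ a ∈ A, (m : ℤ) ^ 2 = α * a + β)).card := by
      rw [← Set.ncard_coe_finset]
      apply Set.ncard_le_ncard_of_injOn (fun a => (m a).natAbs)
      · intro a ha
        have h1 := hm a ha.1
        rw [Finset.coe_filter]
        refine ⟨?_, a, hBA ha.1, ?_⟩
        · rw [Finset.mem_range, hY, Nat.lt_succ_iff, Nat.le_sqrt']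
          have h2 : (((m a).natAbs ^ 2 : ℕ) : ℤ) ≤ ((c1 * X : ℕ) : ℤ) := by
            push_cast
            rw [sq_abs, h1]
            have h3 : α * (a : ℤ) ≤ |α| * X := by
              have h4 : (a : ℤ) ≤ X := by exact_mod_cast ha.2.2
              calc α * (a : ℤ) ≤ |α| * a := by
                    apply mul_le_mul_of_nonneg_right (le_abs_self _) (by positivity)
                _ ≤ |α| * X := by
                    apply mul_le_mul_of_nonneg_left h4 (abs_nonneg _)
            have h4 : β ≤ |β| * X := by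
              have h5 : (1:ℤ) ≤ X := by omega
              calc β ≤ |β| := le_abs_self _
                _ = |β| * 1 := by ring
                _ ≤ |β| * X := mul_le_mul_of_nonneg_left h5 (abs_nonneg _)
            have h5 : ((c1 : ℕ) : ℤ) = |α| + |β| := by
              rw [hc1]
              push_cast
              rfl
            rw [h5]
            linarith
          exact_mod_cast h2
        · rw [Int.natCast_natAbs, sq_abs, h1]
      · intro a ha b hb hab
        have h1 := hm a ha.1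
        have h2 := hm b hb.1
        simp only at hab
        have h3 : (m a) ^ 2 = (m b) ^ 2 := by
          rw [← sq_abs (m a), ← sq_abs (m b), Int.abs_eq_natAbs, Int.abs_eq_natAbs, hab]
        rw [h1, h2] at h3
        have h4 : α * (a : ℤ) = α * b := by linarith
        have h5 := mul_left_cancel₀ hα h4
        exact_mod_cast h5
    have hYlow : √(X : ℝ) ≤ Y := by
      have h1 : √((c1 * X : ℕ) : ℝ) ≤ Nat.sqrt (c1 * X) + 1 := by
        have := Nat.lt_succ_sqrt (c1 * X)
        rw [sqrt_le_left (by positivity)]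
        have h2 : c1 * X ≤ (Nat.sqrt (c1 * X) + 1) ^ 2 := by
          rw [sq]
          exact this.le
        exact_mod_cast h2
      refine le_trans ?_ (le_trans h1 (by rw [hY]; push_cast; exact le_refl _))
      apply sqrt_le_sqrt
      push_cast
      have : (1:ℝ) ≤ c1 := by exact_mod_cast hc1pos
      nlinarith
    have hYup : (Y : ℝ) ≤ 2 * √(c1 : ℝ) * √(X : ℝ) := by
      have h1 : ((Nat.sqrt (c1 * X) : ℕ) : ℝ) ≤ √((c1 * X : ℕ) : ℝ) := nat_sqrt_le_real_sqrt
      have h2 : √((c1 * X : ℕ) : ℝ) = √(c1 : ℝ) * √(X : ℝ) := by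
        push_cast
        rw [sqrt_mul (by positivity)]
      have h3 : 1 ≤ √(c1 : ℝ) * √(X : ℝ) := by
        have h4 : 1 ≤ √(c1 : ℝ) := by
          rw [one_le_sqrt]
          exact_mod_cast hc1pos
        nlinarith
      rw [hY]
      push_cast
      rw [h2] at h1
      linarith
    have hlogY : log (X : ℝ) / 2 ≤ log (Y : ℝ) := by
      have h1 : log (√(X : ℝ)) ≤ log (Y : ℝ) := log_le_log (by positivity) hYlow
      rwa [log_sqrt (by positivity)] at h1
    have h1 : (((range Y).filter (fun m : ℕ => ∃ a ∈ A, (m : ℤ) ^ 2 = α * a + β)).card : ℝ) ≤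
        C' * 2 ^ (K + 1) * √(c1 : ℝ) * √(X : ℝ) / (log (X : ℝ)) ^ K := by
      have hYpos : (0:ℝ) < Y := by positivity
      have hlogYpos : 0 < log (Y : ℝ) := by linarith
      calc _ ≤ C * Y / (log Y) ^ K := hcount
        _ ≤ C' * Y / (log Y) ^ K := by
            gcongr
            exact le_max_left _ _
        _ ≤ C' * (2 * √(c1 : ℝ) * √(X : ℝ)) / (log (X : ℝ) / 2) ^ K := by
            gcongr
        _ = C' * 2 ^ (K + 1) * √(c1 : ℝ) * √(X : ℝ) / (log (X : ℝ)) ^ K := by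
            rw [div_pow]
            field_simp
            ring
    have h2 : ((B ∩ Set.Icc 1 X).ncard : ℝ) ≤
        (((range Y).filter (fun m : ℕ => ∃ a ∈ A, (m : ℤ) ^ 2 = α * a + β)).card : ℝ) := by
      exact_mod_cast hinj
    have h3 : 0 ≤ X0 * (log (X0 : ℝ)) ^ K * √(X : ℝ) / (log (X : ℝ)) ^ K := by positivity
    linarith

/-- The values of a polynomial of degree two satisfy an equation `m ^ 2 = α a + β`. -/
theorem quad (φ : Polynomial ℚ) (hφ : φ.natDegree = 2) : ∃ α β : ℤ, α ≠ 0 ∧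
    ∀ a : ℕ, (∃ n : ℤ, φ.eval (n : ℚ) = a) → ∃ m : ℤ, m ^ 2 = α * a + β := by
  have hlc : φ.coeff 2 ≠ 0 := by
    rw [← hφ]
    exact Polynomial.leadingCoeff_ne_zero.2 (by rintro rfl; simp at hφ)
  set x2 := φ.coeff 2 with hx2
  set x1 := φ.coeff 1 with hx1
  set x0 := φ.coeff 0 with hx0
  set N : ℤ := (x2.den : ℤ) * x1.den * x0.den with hN
  set A2 : ℤ := x2.num * (x1.den * x0.den) with hA2
  set A1 : ℤ := x1.num * (x2.den * x0.den) with hA1
  set A0 : ℤ := x0.num * (x2.den * x1.den) with hA0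
  have hd2 : (x2.den : ℚ) ≠ 0 := by exact_mod_cast x2.den_ne_zero
  have hd1 : (x1.den : ℚ) ≠ 0 := by exact_mod_cast x1.den_ne_zero
  have hd0 : (x0.den : ℚ) ≠ 0 := by exact_mod_cast x0.den_ne_zero
  have e2 : x2 * N = A2 := by
    rw [hN, hA2]
    push_cast
    have : x2 * x2.den = x2.num := Rat.mul_den_eq_num x2
    rw [← this]
    ring
  have e1 : x1 * N = A1 := by
    rw [hN, hA1]
    push_cast
    have : x1 * x1.den = x1.num := Rat.mul_den_eq_num x1
    rw [← this]
    ring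
  have e0 : x0 * N = A0 := by
    rw [hN, hA0]
    push_cast
    have : x0 * x0.den = x0.num := Rat.mul_den_eq_num x0
    rw [← this]
    ring
  have hN0 : (N : ℚ) ≠ 0 := by
    rw [hN]
    push_cast
    positivity
  have hA20 : A2 ≠ 0 := by
    intro h
    rw [h] at e2
    simp [hlc, hN0] at e2
  have hN0' : N ≠ 0 := by exact_mod_cast hN0
  refine ⟨4 * A2 * N, A1 ^ 2 - 4 * A2 * A0, by positivity, ?_⟩
  rintro a ⟨n, hn⟩
  refine ⟨2 * A2 * n + A1, ?_⟩
  rw [Polynomial.eval_eq_sum_range, hφ] at hn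
  simp only [sum_range_succ, sum_range_zero, zero_add, pow_zero, mul_one, pow_one] at hn
  rw [← hx0, ← hx1, ← hx2] at hn
  have h1 : (A0 : ℚ) + A1 * n + A2 * n ^ 2 = N * a := by
    rw [← e0, ← e1, ← e2, ← hn]
    ring
  have h2 : A0 + A1 * n + A2 * n ^ 2 = N * a := by exact_mod_cast h1
  linear_combination (4 * A2) * h2

end Pool.Agent.Helper27.IS
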