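import Pool.Agent.Helper27.IS.Exc4
import Pool.Agent.Helper27.IS.Rigid

/-!
# The recursive construction
-/

set_option autoImplicit false

namespace Pool.Agent.Helper27.IS

open Finset Filter Real
open scoped NumberTheorySymbols

/-- The data of the construction. -/
structure Data (E : Finset ℕ) where
  /-- the size at stage `n` -/
  Y : ℕ → ℕ
  /-- the primes at stage `n` are those in `(P n, P (n + 1)]` -/
  P : ℕ → ℕ
  /-- the elements at stage `n` -/
  S : ℕ → Finset ℕ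
  /-- the removed classes -/
  R : ℕ → ℕ → Finset ℕ
  hE : ∀ e ∈ E, e < P 0
  hP0 : 3 ≤ P 0
  hY0 : Y 0 = 1
  hY : ∀ n, Y n ≤ Y (n + 1) ∧ 3 ≤ Y (n + 1)
  hP : ∀ n, P n < P (n + 1)
  hS : ∀ n, ∀ q ∈ S n, q.Prime ∧ q ≤ Y (n + 1) ∧ q ≡ 1 [MOD (4 * ∏ e ∈ E, e) * (P n).factorial]
  hcard : ∀ n, (((n + 1 : ℕ) : ℝ)) * Y (n + 1) / (log (Y (n + 1))) ^ E.card ≤ (S n).card
  hR : ∀ n, ∀ p : ℕ, p.Prime → P n < p → p ≤ P (n + 1) → R n p ⊆ adm E (Y n) p ∧
    (R n p).card = tE E p - 1 ∧ ∀ q ∈ S n, ∀ r ∈ R n p, q % p ≠ r ∧ q % p ≠ p - r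
  hclose : ∀ n, ∃ q ∈ S n, ∃ q' ∈ S n, q < q' ∧ (n + 1) * (q' - q) ≤ q ∧ n + 1 ≤ q

theorem exists_data (E : Finset ℕ) (hE : ∀ e ∈ E, ¬ IsSquare e) (e1 e2 : ℕ) (he1 : e1 ∈ E)
    (he2 : e2 ∈ E) (h12 : ¬ IsSquare (e1 * e2)) : Nonempty (Data E) := by
  classical
  let T := {s : ℕ × ℕ // (8 * E.card + 1) * (2 * s.1 + 4 * E.card + 2) ≤ s.2}
  let Rel : ℕ → T → T → Prop := fun n s s' => ∃ (S : Finset ℕ) (R : ℕ → Finset ℕ),
      (n + 1 ≤ s'.1.1 ∧ 3 ≤ s'.1.1 ∧ s.1.1 ≤ s'.1.1 ∧ s.1.2 < s'.1.2) ∧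
      (∀ q ∈ S, q.Prime ∧ q ≤ s'.1.1 ∧ q ≡ 1 [MOD (4 * ∏ e ∈ E, e) * s.1.2.factorial]) ∧
      ((((n + 1 : ℕ) : ℝ)) * s'.1.1 / (log s'.1.1) ^ E.card ≤ S.card) ∧
      (∀ p : ℕ, p.Prime → s.1.2 < p → p ≤ s'.1.2 → R p ⊆ adm E s.1.1 p ∧ (R p).card = tE E p - 1 ∧
        ∀ q ∈ S, ∀ r ∈ R p, q % p ≠ r ∧ q % p ≠ p - r) ∧
      (∃ q ∈ S, ∃ q' ∈ S, q < q' ∧ (n + 1) * (q' - q) ≤ q ∧ n + 1 ≤ q)
  have hnext : ∀ (n : ℕ) (s : T), ∃ s' : T, Rel n s s' := by
    rintro n ⟨⟨B, P⟩, hs⟩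
    obtain ⟨Y, P', S, R, ⟨h1, h2, h3, h4, h5⟩, h6, h7, h8, h9⟩ :=
      step E hE e1 e2 he1 he2 h12 B P (n + 1) (by omega) hs
    exact ⟨⟨⟨Y, P'⟩, h5⟩, S, R, ⟨h1, h2, h3, h4⟩, h6, h7, h8, h9⟩
  choose nx hnx using hnext
  let s0 : T := ⟨⟨1, (8 * E.card + 1) * (2 * 1 + 4 * E.card + 2) + (E.sup id + 3)⟩, by
    simp only
    omega⟩
  let f : ℕ → T := fun n => Nat.rec s0 (fun n s => nx n s) n
  have hf : ∀ n, Rel n (f n) (f (n + 1)) := fun n => hnx n (f n)
  choose S R hSR using hf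
  exact ⟨{
    Y := fun n => (f n).1.1
    P := fun n => (f n).1.2
    S := S
    R := R
    hE := by
      intro e he
      have h1 : e ≤ E.sup id := le_sup (f := id) he
      change e < (8 * E.card + 1) * (2 * 1 + 4 * E.card + 2) + (E.sup id + 3)
      omega
    hP0 := by
      change 3 ≤ (8 * E.card + 1) * (2 * 1 + 4 * E.card + 2) + (E.sup id + 3)
      omega
    hY0 := rfl
    hY := fun n => ⟨(hSR n).1.2.2.1, (hSR n).1.2.1⟩
    hP := fun n => (hSR n).1.2.2.2
    hS := fun n => (hSR n).2.1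
    hcard := fun n => (hSR n).2.2.1
    hR := fun n => (hSR n).2.2.2.1
    hclose := fun n => (hSR n).2.2.2.2 }⟩

namespace Data

variable {E : Finset ℕ} (D : Data E)

/-- The elements which are squares. -/
def sq : Set ℕ := {a | ∃ n, ∃ q ∈ D.S n, a = q ^ 2}

/-- The set. -/
def A : Set ℕ := (E : Set ℕ) ∪ D.sq

lemma P_mono : StrictMono D.P := strictMono_nat_of_lt_succ D.hP

lemma Y_mono : Monotone D.Y := monotone_nat_of_le_succ (fun n => (D.hY n).1)

lemma one_le_Y (n : ℕ) : 1 ≤ D.Y n := by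
  have h1 := D.Y_mono (Nat.zero_le n)
  rw [D.hY0] at h1
  exact h1

/-- The stage of a prime. -/
lemma exists_stage (p : ℕ) (hp : D.P 0 < p) : ∃ n, D.P n < p ∧ p ≤ D.P (n + 1) := by
  have h1 : ∃ m, p ≤ D.P m := ⟨p, D.P_mono.le_apply⟩
  classical
  have h2 := Nat.find_spec h1
  have h3 : Nat.find h1 ≠ 0 := by
    intro h0
    rw [h0] at h2
    omega
  obtain ⟨n, hn⟩ := Nat.exists_eq_succ_of_ne_zero h3
  refine ⟨n, ?_, ?_⟩
  · have h4 := Nat.find_min h1 (m := n) (by omega)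
    omega
  · rw [hn] at h2
    exact h2

lemma avoid (n p : ℕ) (hp : p.Prime) (h1 : D.P n < p) (h2 : p ≤ D.P (n + 1)) (i q : ℕ)
    (hq : q ∈ D.S i) (r : ℕ) (hr : r ∈ D.R n p) : q % p ≠ r ∧ q % p ≠ p - r := by
  have hadm := (D.hR n p hp h1 h2).1 hr
  obtain ⟨hr1, _⟩ := mem_filter.1 hadm
  rw [mem_Icc] at hr1
  have hYn := D.one_le_Y n
  rcases lt_trichotomy i n with h | h | h
  · have h3 : q ≤ D.Y n := (D.hS i q hq).2.1.trans (D.Y_mono (by omega))
    have h4 : q % p = q := Nat.mod_eq_of_lt (by omega)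
    rw [h4]
    omega
  · subst h
    exact (D.hR i p hp h1 h2).2.2 q hq r hr
  · have h3 : p ≤ D.P i := h2.trans (D.P_mono.monotone (by omega))
    have h4 : p ∣ (4 * ∏ e ∈ E, e) * (D.P i).factorial :=
      Dvd.dvd.mul_left (Nat.dvd_factorial hp.pos h3) _
    have h5 : q ≡ 1 [MOD p] := (D.hS i q hq).2.2.of_dvd h4
    have h6 : q % p = 1 := by
      have h7 : q % p = 1 % p := h5
      rw [h7]
      exact Nat.mod_eq_of_lt hp.one_lt
    rw [h6]
    omega

open scoped Classical in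
theorem half (hE0 : ∀ e ∈ E, e ≠ 0) (p : ℕ) (hp : p.Prime) (hpP : D.P 0 < p) :
    ((fun a : ℕ => (a : ZMod p)) '' D.A).ncard ≤ {x : ZMod p | IsSquare x}.ncard := by
  have hpF : Fact p.Prime := ⟨hp⟩
  have hp3 : 3 < p := lt_of_le_of_lt D.hP0 hpP
  have hodd : p % 2 = 1 := by
    rcases hp.eq_two_or_odd with h | h
    · omega
    · exact h
  have hMne : ∏ e ∈ E, e ≠ 0 := prod_ne_zero_iff.2 hE0
  obtain ⟨n, hn1, hn2⟩ := D.exists_stage p hpP
  obtain ⟨hR1, hR2, hR3⟩ := D.hR n p hp hn1 hn2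
  have hsq : ∀ e : ℕ, J((e : ℤ) | p) ≠ -1 → IsSquare (e : ZMod p) := by
    intro e he
    rw [← jacobiSym.legendreSym.to_jacobiSym] at he
    by_contra h
    apply he
    rw [legendreSym.eq_neg_one_iff]
    simpa using h
  by_cases ht : tE E p = 0
  · apply Set.ncard_le_ncard _ (Set.toFinite _)
    rintro x ⟨a, ha, rfl⟩
    rcases ha with ha | ⟨i, q, hq, rfl⟩
    · apply hsq
      intro h
      have h1 : a ∈ E.filter (fun e : ℕ => J((e : ℤ) | p) = -1) := mem_filter.2 ⟨ha, h⟩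
      unfold tE at ht
      rw [card_eq_zero] at ht
      rw [ht] at h1
      simp at h1
    · exact ⟨(q : ZMod p), by push_cast; ring⟩
  · -- the removed squares
    set SQ : Finset (ZMod p) := univ.filter (fun x => IsSquare x) with hSQ
    have hSQc : {x : ZMod p | IsSquare x}.ncard = SQ.card := by
      rw [← Set.ncard_coe_finset]
      congr 1
      ext x
      simp [hSQ]
    set T : Finset (ZMod p) := insert 0 ((D.R n p).image (fun r : ℕ => (r : ZMod p) ^ 2)) with hT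
    have hRb : ∀ r ∈ D.R n p, 1 ≤ r ∧ r ≤ (p - 1) / 2 := by
      intro r hr
      have h1 := mem_Icc.1 (mem_filter.1 (hR1 hr)).1
      omega
    have hinj : Set.InjOn (fun r : ℕ => (r : ZMod p) ^ 2) (D.R n p : Set ℕ) := by
      intro r hr r' hr' h
      simp only at h
      have h1 := hRb r hr
      have h2 := hRb r' hr'
      rw [sq_eq_sq_iff_eq_or_eq_neg] at h
      rcases h with h3 | h3
      · rw [ZMod.natCast_eq_natCast_iff'] at h3
        rwa [Nat.mod_eq_of_lt (by omega), Nat.mod_eq_of_lt (by omega)] at h3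
      · exfalso
        have h4 : ((r + r' : ℕ) : ZMod p) = 0 := by
          push_cast
          rw [h3]
          ring
        rw [ZMod.natCast_eq_zero_iff] at h4
        have := Nat.le_of_dvd (by omega) h4
        omega
    have hTc : T.card = tE E p := by
      rw [hT, card_insert_of_notMem, card_image_of_injOn hinj, hR2]
      · omega
      · rw [mem_image]
        rintro ⟨r, hr, h⟩
        have h1 := hRb r hr
        rw [sq_eq_zero_iff, ZMod.natCast_eq_zero_iff] at h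
        have := Nat.le_of_dvd (by omega) h
        omega
    have hTS : T ⊆ SQ := by
      intro x hx
      rw [hT, mem_insert, mem_image] at hx
      rw [hSQ, mem_filter]
      refine ⟨mem_univ _, ?_⟩
      rcases hx with rfl | ⟨r, _, rfl⟩
      · exact ⟨0, by simp⟩
      · exact ⟨r, by ring⟩
    set N : Finset (ZMod p) := (E.filter (fun e : ℕ => J((e : ℤ) | p) = -1)).image (fun e : ℕ => (e : ZMod p)) with hN
    have hNc : N.card ≤ tE E p := card_image_le
    have hsub : ((fun a : ℕ => (a : ZMod p)) '' D.A) ⊆ (((SQ \ T) ∪ N : Finset (ZMod p)) : Set (ZMod p)) := by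
      rintro x ⟨a, ha, rfl⟩
      rw [mem_coe, mem_union]
      rcases ha with ha | ⟨i, q, hq, rfl⟩
      · by_cases hJ : J((a : ℤ) | p) = -1
        · right
          rw [hN, mem_image]
          exact ⟨a, mem_filter.2 ⟨ha, hJ⟩, rfl⟩
        · left
          rw [Finset.mem_sdiff]
          refine ⟨by rw [hSQ, mem_filter]; exact ⟨mem_univ _, hsq a hJ⟩, ?_⟩
          rw [hT, mem_insert, mem_image]
          rintro (h | ⟨r, hr, h⟩)
          · simp only at h
            rw [ZMod.natCast_eq_zero_iff] at h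
            have h1 := Nat.le_of_dvd (Nat.pos_of_ne_zero (hE0 a ha)) h
            have h2 := D.hE a ha
            omega
          · exact (mem_filter.1 (hR1 hr)).2 a ha h
      · left
        rw [Finset.mem_sdiff]
        refine ⟨by rw [hSQ, mem_filter]; exact ⟨mem_univ _, ⟨(q : ZMod p), by push_cast; ring⟩⟩, ?_⟩
        rw [hT, mem_insert, mem_image]
        rintro (h | ⟨r, hr, h⟩)
        · -- `q = p`
          simp only at h
          push_cast at h
          rw [sq_eq_zero_iff, ZMod.natCast_eq_zero_iff] at h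
          obtain ⟨hqp, _, hqmod⟩ := D.hS i q hq
          have hqe : p = q := (Nat.prime_dvd_prime_iff_eq hp hqp).1 h
          apply ht
          unfold tE
          rw [card_eq_zero, filter_eq_empty_iff]
          intro e he hJ
          have h1 : 4 * ((e : ℤ)).natAbs ∣ 4 * ∏ e ∈ E, e := by
            rw [Int.natAbs_natCast]
            exact mul_dvd_mul_left 4 (dvd_prod_of_mem _ he)
          have h2 : Even (4 * ∏ e ∈ E, e) := by
            rw [even_iff_two_dvd]
            exact Dvd.intro (2 * ∏ e ∈ E, e) (by ring)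
          have h3 := jacobi_mod h1 h2 (b := p) (Nat.odd_iff.2 hodd)
          have h4 : p ≡ 1 [MOD 4 * ∏ e ∈ E, e] := by
            rw [hqe]
            exact hqmod.of_dvd (Dvd.intro _ rfl)
          have h5 : p % (4 * ∏ e ∈ E, e) = 1 := by
            have h6 : p % (4 * ∏ e ∈ E, e) = 1 % (4 * ∏ e ∈ E, e) := h4
            rw [h6]
            apply Nat.mod_eq_of_lt
            have := Nat.pos_of_ne_zero hMne
            omega
          rw [h5, jacobiSym.one_right] at h3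
          rw [← h3] at hJ
          norm_num at hJ
        · simp only at h
          push_cast at h
          obtain ⟨ha1, ha2⟩ := D.avoid n p hp hn1 hn2 i q hq r hr
          have hrb := hRb r hr
          rw [sq_eq_sq_iff_eq_or_eq_neg] at h
          rcases h with h3 | h3
          · apply ha1
            rw [ZMod.natCast_eq_natCast_iff'] at h3
            rw [← h3]
            exact Nat.mod_eq_of_lt (by omega)
          · apply ha2
            have h4 : (q : ZMod p) = ((p - r : ℕ) : ZMod p) := by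
              rw [Nat.cast_sub (by omega), h3]
              simp
            rw [ZMod.natCast_eq_natCast_iff'] at h4
            rw [h4]
            exact Nat.mod_eq_of_lt (by omega)
    rw [hSQc]
    calc _ ≤ (((SQ \ T) ∪ N : Finset (ZMod p)) : Set (ZMod p)).ncard := Set.ncard_le_ncard hsub (Finset.finite_toSet _)
      _ = ((SQ \ T) ∪ N).card := Set.ncard_coe_finset _
      _ ≤ (SQ \ T).card + N.card := card_union_le _ _
      _ = SQ.card - T.card + N.card := by rw [card_sdiff_of_subset hTS]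
      _ ≤ SQ.card := by
        have := card_le_card hTS
        omega

end Data

/-- A close pair of squares forces `β = 0`. -/
lemma pair_beta (α β q q' y y' n : ℤ) (hα : 0 < α) (hq : 0 < q) (hqq' : q < q')
    (hn : n * (q' - q) ≤ q) (hnβ : 2 * |β| + 1 ≤ n) (hy : y ^ 2 = α * q ^ 2 + β)
    (hy' : y' ^ 2 = α * q' ^ 2 + β) (hy0 : 0 ≤ y) (hy0' : 0 ≤ y') : β = 0 := by
  by_contra hβ
  have hid : (y * y' - α * (q * q') - β) * (y * y' + α * (q * q') + β) = α * β * (q' - q) ^ 2 := by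
    have h1 : (y * y') ^ 2 = (α * q ^ 2 + β) * (α * q' ^ 2 + β) := by rw [mul_pow, hy, hy']
    linear_combination h1
  have hd : 0 < q' - q := by linarith
  set d := q' - q with hdd
  have hne : α * β * d ^ 2 ≠ 0 := mul_ne_zero (mul_ne_zero hα.ne' hβ) (pow_ne_zero _ hd.ne')
  have h1 : (1:ℤ) ≤ |y * y' - α * (q * q') - β| := by
    apply Int.one_le_abs
    intro h0
    rw [h0, zero_mul] at hid
    exact hne hid.symm
  have h2 : |y * y' + α * (q * q') + β| ≤ α * |β| * d ^ 2 := by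
    calc |y * y' + α * (q * q') + β| ≤ |y * y' - α * (q * q') - β| * |y * y' + α * (q * q') + β| :=
          le_mul_of_one_le_left (abs_nonneg _) h1
      _ = |α * β * d ^ 2| := by rw [← abs_mul, hid]
      _ = α * |β| * d ^ 2 := by
          rw [abs_mul, abs_mul, abs_of_pos hα, abs_of_nonneg (sq_nonneg d)]
  have h3 : α * q ^ 2 - |β| ≤ y * y' + α * (q * q') + β := by
    have h4 : q ^ 2 ≤ q * q' := by nlinarith
    have h5 : α * q ^ 2 ≤ α * (q * q') := mul_le_mul_of_nonneg_left h4 hα.le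
    have h6 : 0 ≤ y * y' := mul_nonneg hy0 hy0'
    have h7 := neg_abs_le β
    linarith
  have h4 : α * q ^ 2 - |β| ≤ α * |β| * d ^ 2 := h3.trans ((le_abs_self _).trans h2)
  have hb : 0 < |β| := abs_pos.2 hβ
  have h5 : (2 * |β| + 1) * d ≤ q := (mul_le_mul_of_nonneg_right hnβ hd.le).trans hn
  have h6 : (2 * |β| + 1) * d ^ 2 ≤ q ^ 2 := by
    have h7 : ((2 * |β| + 1) * d) ^ 2 ≤ q ^ 2 := pow_le_pow_left₀ (by positivity) h5 2
    have h8 : (2 * |β| + 1) * d ^ 2 ≤ ((2 * |β| + 1) * d) ^ 2 := by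
      rw [mul_pow]
      apply mul_le_mul_of_nonneg_right _ (sq_nonneg d)
      nlinarith
    exact h8.trans h7
  have h7 : α * ((2 * |β| + 1) * d ^ 2) ≤ α * q ^ 2 := mul_le_mul_of_nonneg_left h6 hα.le
  have h8 : α * ((|β| + 1) * d ^ 2) ≤ |β| := by nlinarith
  have h9 : (|β| + 1) * 1 ≤ α * ((|β| + 1) * d ^ 2) := by
    have h10 : 1 ≤ d ^ 2 := by nlinarith
    have h11 : (|β| + 1) * 1 ≤ (|β| + 1) * d ^ 2 := mul_le_mul_of_nonneg_left h10 (by positivity)
    have h12 : (|β| + 1) * d ^ 2 ≤ α * ((|β| + 1) * d ^ 2) := le_mul_of_one_le_left (by positivity) hα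
    exact h11.trans h12
  linarith

/-- If almost all squares of the construction satisfy `y² = α q² + β`, then `β = 0` and `α` is a
square. -/
theorem Data.rigid {E : Finset ℕ} (D : Data E) (α β : ℤ) (hα : α ≠ 0) (B : ℕ)
    (h : ∀ n, ∀ q ∈ D.S n, B ≤ q → ∃ m : ℤ, m ^ 2 = α * ((q ^ 2 : ℕ) : ℤ) + β) :
    β = 0 ∧ IsSquare α := by
  -- a close pair at a late stage
  set n : ℕ := 2 * β.natAbs + B + 1 with hn
  obtain ⟨q, hq, q', hq', hqq', hclose, hnq⟩ := D.hclose n
  obtain ⟨m, hm⟩ := h n q hq (by omega)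
  obtain ⟨m', hm'⟩ := h n q' hq' (by omega)
  have hq0 : (0:ℤ) < q := by
    have : 0 < q := by omega
    exact_mod_cast this
  have hβabs : |β| = (β.natAbs : ℤ) := Int.abs_eq_natAbs β
  have hqβ : 2 * |β| + 1 ≤ (q : ℤ) := by
    rw [hβabs]
    exact_mod_cast (by omega : 2 * β.natAbs + 1 ≤ q)
  have hα0 : 0 < α := by
    rcases lt_or_gt_of_ne hα with h1 | h1
    · exfalso
      have h2 : 0 ≤ α * ((q ^ 2 : ℕ) : ℤ) + β := by rw [← hm]; positivity
      push_cast at h2
      have h3 : α * (q : ℤ) ^ 2 ≤ -1 * (q : ℤ) ^ 2 := mul_le_mul_of_nonneg_right (by omega) (sq_nonneg _)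
      have h4 : (q : ℤ) * 1 ≤ (q : ℤ) * q := mul_le_mul_of_nonneg_left (by omega) hq0.le
      have h5 := le_abs_self β
      have h6 := abs_nonneg β
      nlinarith
    · exact h1
  have hβ : β = 0 := by
    apply pair_beta α β q q' |m| |m'| (n + 1 : ℕ) hα0 hq0 (by exact_mod_cast hqq')
    · have h1 : (((n + 1) * (q' - q) : ℕ) : ℤ) ≤ q := by exact_mod_cast hclose
      rw [Nat.cast_mul, Nat.cast_sub hqq'.le] at h1
      exact h1
    · rw [hβabs]
      exact_mod_cast (by omega : 2 * β.natAbs + 1 ≤ n + 1)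
    · rw [sq_abs, hm]
      push_cast
      ring
    · rw [sq_abs, hm']
      push_cast
      ring
    · exact abs_nonneg _
    · exact abs_nonneg _
  refine ⟨hβ, ?_⟩
  rw [hβ, add_zero] at hm
  push_cast at hm
  have h1 : (q : ℤ) ^ 2 ∣ m ^ 2 := ⟨α, by rw [hm]; ring⟩
  rw [Int.pow_dvd_pow_iff (by norm_num)] at h1
  obtain ⟨s, hs⟩ := h1
  refine ⟨s, ?_⟩
  have h2 : (q : ℤ) ^ 2 * α = (q : ℤ) ^ 2 * (s * s) := by
    rw [mul_comm, ← hm, hs]
    ring
  exact mul_left_cancel₀ (pow_ne_zero 2 hq0.ne') h2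

end Pool.Agent.Helper27.IS
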