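import Mathlib

/-!
# Gallagher's larger sieve
-/

set_option autoImplicit false

namespace Pool.Agent.Helper27.IS

open Finset Real

lemma sum_log_dvd (P : Finset ℕ) (hP : ∀ p ∈ P, p.Prime) (n : ℕ) (hn : 0 < n) :
    ∑ p ∈ P.filter (fun p => p ∣ n), log (p : ℝ) ≤ log n := by
  have h1 : ∏ p ∈ P.filter (fun p => p ∣ n), p ∣ n := by
    apply Finset.prod_primes_dvd
    · intro p hp
      exact (hP p (mem_filter.1 hp).1).prime
    · intro p hp
      exact (mem_filter.1 hp).2
  have h2 := Nat.le_of_dvd hn h1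
  have h3 : ∑ p ∈ P.filter (fun p => p ∣ n), log (p : ℝ) = log ((∏ p ∈ P.filter (fun p => p ∣ n), p : ℕ) : ℝ) := by
    push_cast
    rw [log_prod]
    intro p hp
    have := (hP p (mem_filter.1 hp).1).pos
    positivity
  rw [h3]
  apply log_le_log
  · have : 0 < ∏ p ∈ P.filter (fun p => p ∣ n), p := by
      apply prod_pos
      intro p hp
      exact (hP p (mem_filter.1 hp).1).pos
    exact_mod_cast this
  · exact_mod_cast h2

/-- **Gallagher's larger sieve.** -/
theorem larger_sieve (B : Finset ℕ) (X : ℕ) (hB : ∀ b ∈ B, b ≤ X) (P : Finset ℕ)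
    (hP : ∀ p ∈ P, p.Prime) (ν : ℕ → ℝ) (hν0 : ∀ p ∈ P, 0 < ν p)
    (hν : ∀ p ∈ P, ((B.image (fun b : ℕ => (b : ZMod p))).card : ℝ) ≤ ν p) :
    (B.card : ℝ) * (∑ p ∈ P, log p / ν p - log X) ≤ ∑ p ∈ P, log p := by
  classical
  have hlogX : 0 ≤ log (X : ℝ) := log_natCast_nonneg _
  have hlog0 : ∀ p ∈ P, 0 ≤ log (p : ℝ) := fun p _ => log_natCast_nonneg _
  rcases Nat.eq_zero_or_pos B.card with h0 | hBpos
  · rw [h0]
    simp only [Nat.cast_zero, zero_mul]
    exact sum_nonneg hlog0
  have hBr : (0:ℝ) < B.card := by exact_mod_cast hBpos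
  -- pairs congruent modulo `p`
  set pr : ℕ → ℕ := fun p => ((B ×ˢ B).filter (fun q => ((q.1 : ℕ) : ZMod p) = ((q.2 : ℕ) : ZMod p))).card with hpr
  have hlow : ∀ p ∈ P, (B.card : ℝ) ^ 2 ≤ ν p * pr p := by
    intro p hp
    set im := B.image (fun b : ℕ => (b : ZMod p)) with him
    set Z : ZMod p → ℕ := fun r => (B.filter (fun b : ℕ => (b : ZMod p) = r)).card with hZ
    have h1 : B.card = ∑ r ∈ im, Z r := by
      rw [hZ]
      exact card_eq_sum_card_fiberwise (fun b hb => mem_image_of_mem _ hb)
    have h2 : pr p = ∑ r ∈ im, Z r * Z r := by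
      have h3 : pr p = ∑ r ∈ im, (((B ×ˢ B).filter (fun q => ((q.1 : ℕ) : ZMod p) = ((q.2 : ℕ) : ZMod p))).filter
          (fun q : ℕ × ℕ => (q.1 : ZMod p) = r)).card := by
        rw [hpr]
        apply card_eq_sum_card_fiberwise
        intro q hq
        have := (mem_product.1 (mem_filter.1 hq).1).1
        exact mem_image_of_mem _ this
      rw [h3]
      apply sum_congr rfl
      intro r _
      rw [← card_product]
      congr 1
      ext ⟨a, b⟩
      simp only [mem_filter, mem_product]
      constructor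
      · rintro ⟨⟨⟨ha, hb⟩, hab⟩, har⟩
        exact ⟨⟨ha, har⟩, hb, hab ▸ har⟩
      · rintro ⟨⟨ha, har⟩, hb, hbr⟩
        exact ⟨⟨⟨ha, hb⟩, har.trans hbr.symm⟩, har⟩
    have h4 : (B.card : ℝ) ^ 2 ≤ im.card * pr p := by
      rw [h1, h2]
      push_cast
      have := sq_sum_le_card_mul_sum_sq (s := im) (f := fun r => (Z r : ℝ))
      refine this.trans (le_of_eq ?_)
      congr 1
      apply sum_congr rfl
      intro r _
      ring
    have h5 : (im.card : ℝ) * pr p ≤ ν p * pr p :=
      mul_le_mul_of_nonneg_right (hν p hp) (Nat.cast_nonneg _)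
    linarith
  -- upper bound
  have hup : ∑ p ∈ P, log (p : ℝ) * ((pr p : ℝ) - B.card) ≤ (B.card : ℝ) ^ 2 * log X := by
    set off := (B ×ˢ B).filter (fun q => q.1 ≠ q.2) with hoff
    have h1 : ∀ p ∈ P, (pr p : ℝ) - B.card ≤
        ∑ q ∈ off, if ((q.1 : ℕ) : ZMod p) = ((q.2 : ℕ) : ZMod p) then (1:ℝ) else 0 := by
      intro p _
      have h2 : pr p ≤ B.card + (off.filter (fun q => ((q.1 : ℕ) : ZMod p) = ((q.2 : ℕ) : ZMod p))).card := by
        have h3 : (B ×ˢ B).filter (fun q => ((q.1 : ℕ) : ZMod p) = ((q.2 : ℕ) : ZMod p)) ⊆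
            (B.image (fun b => (b, b))) ∪ off.filter (fun q => ((q.1 : ℕ) : ZMod p) = ((q.2 : ℕ) : ZMod p)) := by
          rintro ⟨a, b⟩ hq
          simp only [hoff, mem_filter, mem_product, mem_union, mem_image] at hq ⊢
          by_cases hab : a = b
          · left
            exact ⟨a, hq.1.1, by rw [hab]⟩
          · right
            exact ⟨⟨hq.1, hab⟩, hq.2⟩
        calc pr p ≤ _ := card_le_card h3
          _ ≤ _ := card_union_le _ _
          _ ≤ _ := by
            gcongr
            exact card_image_le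
      have h3 : ∑ q ∈ off, (if ((q.1 : ℕ) : ZMod p) = ((q.2 : ℕ) : ZMod p) then (1:ℝ) else 0) =
          ((off.filter (fun q => ((q.1 : ℕ) : ZMod p) = ((q.2 : ℕ) : ZMod p))).card : ℝ) := by
        rw [card_filter]
        push_cast
        rfl
      rw [h3, sub_le_iff_le_add]
      have : (pr p : ℝ) ≤ B.card + (off.filter (fun q => ((q.1 : ℕ) : ZMod p) = ((q.2 : ℕ) : ZMod p))).card := by
        exact_mod_cast h2
      linarith
    calc ∑ p ∈ P, log (p : ℝ) * ((pr p : ℝ) - B.card)
        ≤ ∑ p ∈ P, log (p : ℝ) * ∑ q ∈ off, (if ((q.1 : ℕ) : ZMod p) = ((q.2 : ℕ) : ZMod p) then (1:ℝ) else 0) := by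
          apply sum_le_sum
          intro p hp
          exact mul_le_mul_of_nonneg_left (h1 p hp) (hlog0 p hp)
      _ = ∑ q ∈ off, ∑ p ∈ P, (if ((q.1 : ℕ) : ZMod p) = ((q.2 : ℕ) : ZMod p) then log (p : ℝ) else 0) := by
          rw [sum_comm]
          apply sum_congr rfl
          intro p _
          rw [mul_sum]
          apply sum_congr rfl
          intro q _
          split_ifs <;> simp
      _ ≤ ∑ q ∈ off, log (X : ℝ) := by
          apply sum_le_sum
          rintro ⟨a, b⟩ hq
          simp only [hoff, mem_filter, mem_product] at hq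
          obtain ⟨⟨ha, hb⟩, hab⟩ := hq
          rw [← sum_filter]
          have haX := hB a ha
          have hbX := hB b hb
          set n : ℕ := max a b - min a b with hn
          have hn0 : 0 < n := by
            rcases lt_or_gt_of_ne hab with h | h
            · rw [hn, max_eq_right h.le, min_eq_left h.le]; omega
            · rw [hn, max_eq_left h.le, min_eq_right h.le]; omega
          have hnX : n ≤ X := by
            have : max a b ≤ X := max_le haX hbX
            omega
          have hset : P.filter (fun p => ((a : ℕ) : ZMod p) = ((b : ℕ) : ZMod p)) = P.filter (fun p => p ∣ n) := by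
            apply filter_congr
            intro p _
            rcases le_total a b with h | h
            · rw [hn, max_eq_right h, min_eq_left h, ZMod.natCast_eq_natCast_iff,
                Nat.modEq_iff_dvd' h]
            · rw [hn, max_eq_left h, min_eq_right h, eq_comm, ZMod.natCast_eq_natCast_iff,
                Nat.modEq_iff_dvd' h]
          rw [hset]
          refine (sum_log_dvd P hP n hn0).trans ?_
          apply log_le_log
          · exact_mod_cast hn0
          · exact_mod_cast hnX
      _ = (off.card : ℝ) * log X := by rw [sum_const, nsmul_eq_mul]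
      _ ≤ (B.card : ℝ) ^ 2 * log X := by
          apply mul_le_mul_of_nonneg_right _ hlogX
          have : off.card ≤ B.card ^ 2 := by
            rw [sq, ← card_product]
            exact card_filter_le _ _
          exact_mod_cast this
  -- conclusion
  have h1 : ∑ p ∈ P, log (p : ℝ) * ((B.card : ℝ) ^ 2 / ν p - B.card) ≤ (B.card : ℝ) ^ 2 * log X := by
    refine le_trans (sum_le_sum ?_) hup
    intro p hp
    apply mul_le_mul_of_nonneg_left _ (hlog0 p hp)
    have h2 := hlow p hp
    have h3 := hν0 p hp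
    rw [sub_le_sub_iff_right, div_le_iff₀ h3]
    linarith
  have h2 : ∑ p ∈ P, log (p : ℝ) * ((B.card : ℝ) ^ 2 / ν p - B.card) =
      (B.card : ℝ) * ((B.card : ℝ) * ∑ p ∈ P, log p / ν p - ∑ p ∈ P, log (p : ℝ)) := by
    rw [mul_sub, mul_sum, mul_sum, mul_sum, ← sum_sub_distrib]
    apply sum_congr rfl
    intro p _
    ring
  rw [h2] at h1
  have h3 : (B.card : ℝ) * ∑ p ∈ P, log p / ν p - ∑ p ∈ P, log (p : ℝ) ≤ (B.card : ℝ) * log X := by
    apply le_of_mul_le_mul_left _ hBr
    calc _ ≤ _ := h1
      _ = _ := by ring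
  linarith

end Pool.Agent.Helper27.IS
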