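import Mathlib

/-!
# Large sets in finite abelian groups whose product set misses a positive proportion
-/

set_option autoImplicit false

namespace Pool.Agent.Helper27.IS

open Finset
open scoped Pointwise

section

variable {G : Type*} [CommGroup G] [Fintype G] [DecidableEq G]

/-- The number of elements of `S` outside the translate `y S`. -/
def TT (S : Finset G) (y : G) : ℕ := (S \ (y • S)).card

lemma TT_one (S : Finset G) : TT S 1 = 0 := by
  simp [TT]

omit [Fintype G] in
lemma TT_inv (S : Finset G) (y : G) : TT S y⁻¹ = TT S y := by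
  unfold TT
  have h1 : (S \ (y⁻¹ • S)).card = ((y • S) \ S).card := by
    rw [← card_smul_finset y (S \ (y⁻¹ • S)), smul_finset_sdiff, smul_inv_smul]
  rw [h1]
  have h2 := card_sdiff_add_card_inter S (y • S)
  have h3 := card_sdiff_add_card_inter (y • S) S
  rw [inter_comm, card_smul_finset] at h3
  omega

omit [Fintype G] in
lemma TT_mul (S : Finset G) (y z : G) : TT S (y * z) ≤ TT S y + TT S z := by
  unfold TT
  have h1 : S \ ((y * z) • S) ⊆ (S \ (y • S)) ∪ ((y • S) \ ((y * z) • S)) := by
    intro s hs
    rw [mem_sdiff] at hs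
    rw [mem_union, mem_sdiff, mem_sdiff]
    by_cases h : s ∈ y • S
    · right; exact ⟨h, hs.2⟩
    · left; exact ⟨hs.1, h⟩
  have h2 : ((y • S) \ ((y * z) • S)).card = (S \ (z • S)).card := by
    rw [mul_smul, ← smul_finset_sdiff, card_smul_finset]
  calc _ ≤ _ := card_le_card h1
    _ ≤ _ := card_union_le _ _
    _ = _ := by rw [h2]

lemma TT_missing (S X : Finset G) (hSX : ∀ x ∈ X, ∀ s ∈ S, ∀ t ∈ S, s * t ≠ x) {x x' : G}
    (hx : x ∈ X) (hx' : x' ∈ X) : TT S (x * x'⁻¹) + 2 * S.card ≤ Fintype.card G := by
  classical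
  set U : Finset G := (S \ ((x * x'⁻¹) • S)).image (fun s => x * s⁻¹) with hU
  set V : Finset G := S.image (fun s => x' * s⁻¹) with hV
  have hUc : U.card = TT S (x * x'⁻¹) := by
    rw [hU, card_image_of_injective]
    · rfl
    · intro a b hab
      simpa using hab
  have hVc : V.card = S.card := by
    rw [hV, card_image_of_injective]
    intro a b hab
    simpa using hab
  have hUS : Disjoint U S := by
    rw [disjoint_left]
    intro y hy hyS
    obtain ⟨s, hs, rfl⟩ := mem_image.1 hy
    exact hSX x hx s (mem_sdiff.1 hs).1 _ hyS (by rw [mul_left_comm, mul_inv_cancel, mul_one])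
  have hVS : Disjoint V S := by
    rw [disjoint_left]
    intro y hy hyS
    obtain ⟨s, hs, rfl⟩ := mem_image.1 hy
    exact hSX x' hx' s hs _ hyS (by rw [mul_left_comm, mul_inv_cancel, mul_one])
  have hUV : Disjoint U V := by
    rw [disjoint_left]
    intro y hy hyV
    obtain ⟨s, hs, rfl⟩ := mem_image.1 hy
    obtain ⟨t, ht, hst⟩ := mem_image.1 hyV
    apply (mem_sdiff.1 hs).2
    rw [mem_smul_finset]
    refine ⟨t, ht, ?_⟩
    simp only [smul_eq_mul]
    have : s = x * (x' * t⁻¹)⁻¹ := by
      rw [hst, mul_inv_rev, inv_inv, mul_comm s, mul_inv_cancel_left]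
    rw [this, mul_inv_rev, inv_inv]
    rw [mul_assoc, mul_comm t]
  have h1 : ((U ∪ V) ∪ S).card = U.card + V.card + S.card := by
    rw [card_union_of_disjoint, card_union_of_disjoint hUV]
    rw [disjoint_union_left]
    exact ⟨hUS, hVS⟩
  have h2 : ((U ∪ V) ∪ S).card ≤ Fintype.card G := card_le_univ _
  omega

/-- An approximate stabiliser which is a subgroup. -/
lemma exists_stab (S X : Finset G) (D : ℕ) (hX : Fintype.card G ≤ D * X.card)
    (hSX : ∀ x ∈ X, ∀ s ∈ S, ∀ t ∈ S, s * t ≠ x) :
    ∃ H : Subgroup G, (∀ h ∈ H, TT S h ≤ 2 * 5 ^ D * (Fintype.card G - 2 * S.card)) ∧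
      (∀ x ∈ X, ∀ y ∈ X, x * y⁻¹ ∈ H) := by
  classical
  set θ := Fintype.card G - 2 * S.card with hθ
  set B : ℕ → Finset G := fun j => univ.filter (fun y => TT S y ≤ j * θ) with hB
  have hBmem : ∀ j y, y ∈ B j ↔ TT S y ≤ j * θ := by
    intro j y
    simp [hB]
  have hBmul : ∀ j k y z, y ∈ B j → z ∈ B k → y * z ∈ B (j + k) := by
    intro j k y z hy hz
    rw [hBmem] at *
    have := TT_mul S y z
    rw [add_mul]
    omega
  have hBinv : ∀ j y, y ∈ B j → y⁻¹ ∈ B j := by
    intro j y hy
    rw [hBmem] at *
    rwa [TT_inv]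
  have hBmono : ∀ j k, j ≤ k → B j ⊆ B k := by
    intro j k hjk y hy
    rw [hBmem] at *
    exact hy.trans (Nat.mul_le_mul_right _ hjk)
  have hG0 : 0 < Fintype.card G := Fintype.card_pos
  have hXne : X.Nonempty := by
    rw [← card_pos]
    by_contra h
    have : X.card = 0 := by omega
    rw [this] at hX
    omega
  obtain ⟨x0, hx0⟩ := hXne
  have hB1 : ∀ x ∈ X, ∀ y ∈ X, x * y⁻¹ ∈ B 1 := by
    intro x hx y hy
    rw [hBmem]
    have := TT_missing S X hSX hx hy
    omega
  have hB1c : X.card ≤ (B 1).card := by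
    apply card_le_card_of_injOn (fun x => x * x0⁻¹)
    · intro x hx
      exact hB1 x hx x0 hx0
    · intro x _ y _ hxy
      simpa using hxy
  -- one of the levels is closed under multiplication
  have hcl : ∃ i ≤ D, ∀ y ∈ B (2 * 5 ^ i), ∀ z ∈ B (2 * 5 ^ i), y * z ∈ B (2 * 5 ^ i) := by
    by_contra hcon
    push Not at hcon
    have hdbl : ∀ i ≤ D, 2 * (B (5 ^ i)).card ≤ (B (5 ^ (i + 1))).card := by
      intro i hi
      obtain ⟨y, hy, z, hz, hyz⟩ := hcon i hi
      set w := y * z with hw
      have hwB : w ∈ B (4 * 5 ^ i) := by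
        have := hBmul _ _ y z hy hz
        convert this using 2
        ring
      have hdisj : Disjoint ((B (5 ^ i)).image (fun u => w * u)) (B (5 ^ i)) := by
        rw [disjoint_left]
        intro v hv hvB
        obtain ⟨u, hu, rfl⟩ := mem_image.1 hv
        apply hyz
        have h1 := hBmul _ _ _ _ hvB (hBinv _ _ hu)
        simp only [mul_inv_cancel_right] at h1
        convert h1 using 2
        ring
      have hsub : ((B (5 ^ i)).image (fun u => w * u)) ∪ (B (5 ^ i)) ⊆ B (5 ^ (i + 1)) := by
        apply union_subset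
        · intro v hv
          obtain ⟨u, hu, rfl⟩ := mem_image.1 hv
          have h1 := hBmul _ _ _ _ hwB hu
          convert h1 using 2
          ring
        · apply hBmono
          exact Nat.pow_le_pow_right (by norm_num) (Nat.le_succ i)
      have h1 := card_le_card hsub
      rw [card_union_of_disjoint hdisj, card_image_of_injective _ (mul_right_injective w)] at h1
      omega
    have hgrow : ∀ i ≤ D + 1, 2 ^ i * (B 1).card ≤ (B (5 ^ i)).card := by
      intro i
      induction i with
      | zero => intro _; simp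
      | succ i ih =>
        intro hi
        have h1 := ih (by omega)
        have h2 := hdbl i (by omega)
        calc 2 ^ (i + 1) * (B 1).card = 2 * (2 ^ i * (B 1).card) := by ring
          _ ≤ 2 * (B (5 ^ i)).card := Nat.mul_le_mul_left _ h1
          _ ≤ _ := h2
    have h1 := hgrow (D + 1) (le_refl _)
    have h2 : (B (5 ^ (D + 1))).card ≤ Fintype.card G := card_le_univ _
    have h3 : D < 2 ^ D := Nat.lt_two_pow_self
    have h4 : D * X.card ≤ 2 ^ D * (B 1).card := Nat.mul_le_mul h3.le hB1c
    have h5 : 2 ^ (D + 1) * (B 1).card = 2 * (2 ^ D * (B 1).card) := by ring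
    omega
  obtain ⟨i, hi, hcl⟩ := hcl
  refine ⟨{ carrier := B (2 * 5 ^ i)
            mul_mem' := fun {a b} ha hb => hcl a ha b hb
            one_mem' := by
              change (1 : G) ∈ B (2 * 5 ^ i)
              rw [hBmem, TT_one]
              omega
            inv_mem' := fun {a} ha => hBinv _ a ha }, ?_, ?_⟩
  · intro h hh
    have h1 : h ∈ B (2 * 5 ^ i) := hh
    rw [hBmem] at h1
    refine h1.trans (Nat.mul_le_mul_right _ ?_)
    exact Nat.mul_le_mul_left _ (Nat.pow_le_pow_right (by norm_num) hi)
  · intro x hx y hy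
    change x * y⁻¹ ∈ B (2 * 5 ^ i)
    apply hBmono 1 _ _ (hB1 x hx y hy)
    have : 1 ≤ 5 ^ i := Nat.one_le_pow _ _ (by norm_num)
    omega

/-- Averaging over a subgroup. -/
lemma part_bound (H : Subgroup G) [DecidablePred (· ∈ H)] (Z : Finset G) (b : ℕ)
    (hb : ∀ h ∈ H, TT Z h ≤ b) :
    (univ.filter (· ∈ H)).card * Z.card ≤ Z.card ^ 2 + (univ.filter (· ∈ H)).card * b := by
  classical
  set HF : Finset G := univ.filter (· ∈ H) with hHF
  have h1 : ∀ h ∈ HF, Z.card = (Z ∩ (h • Z)).card + TT Z h := by
    intro h _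
    unfold TT
    have := card_sdiff_add_card_inter Z (h • Z)
    omega
  have h2 : ∑ h ∈ HF, (Z ∩ (h • Z)).card ≤ Z.card ^ 2 := by
    rw [← card_sigma, sq, ← card_product]
    apply card_le_card_of_injOn (fun q => (q.2, q.1⁻¹ * q.2))
    · rintro ⟨h, z⟩ hq
      rw [mem_coe, mem_sigma, mem_inter] at hq
      obtain ⟨_, hz, hz'⟩ := hq
      rw [mem_coe, mem_product]
      refine ⟨hz, ?_⟩
      obtain ⟨t, ht, hht⟩ := mem_smul_finset.1 hz'
      simp only at *
      rw [← hht]
      simpa using ht
    · rintro ⟨h, z⟩ _ ⟨h', z'⟩ _ heq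
      simp only [Prod.mk.injEq] at heq
      obtain ⟨h3, h4⟩ := heq
      subst h3
      have : h = h' := by simpa using h4
      subst this
      rfl
  have h3 : ∑ h ∈ HF, Z.card = ∑ h ∈ HF, (Z ∩ (h • Z)).card + ∑ h ∈ HF, TT Z h := by
    rw [← sum_add_distrib]
    exact sum_congr rfl h1
  have h4 : ∑ h ∈ HF, TT Z h ≤ HF.card * b := by
    rw [← smul_eq_mul]
    apply sum_le_card_nsmul
    intro h hh
    exact hb h (mem_filter.1 hh).2
  rw [sum_const, smul_eq_mul] at h3
  omega

/-- If the product set of a set `S` of nearly half the elements misses a positive proportion of the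
group, and the group has no subgroup of small index other than those of index one or two, then all
products lie in a subgroup of index two. -/
theorem local_half (S X : Finset G) (D : ℕ) (hX : Fintype.card G ≤ D * X.card)
    (hSX : ∀ x ∈ X, ∀ s ∈ S, ∀ t ∈ S, s * t ≠ x)
    (hind : ∀ H : Subgroup G, H.index ≤ D → H.index ∣ 2)
    (hS : 100 * D * 5 ^ D * (Fintype.card G - 2 * S.card) ≤ Fintype.card G) :
    ∃ H : Subgroup G, H.index = 2 ∧ ∀ s ∈ S, ∀ t ∈ S, s * t ∈ H := by
  classical
  obtain ⟨H, hTT, hXX⟩ := exists_stab S X D hX hSX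
  set n := Fintype.card G with hn
  set θ := n - 2 * S.card with hθ
  set B0 := 2 * 5 ^ D * θ with hB0
  have hB0n : 50 * D * B0 ≤ n := by
    calc 50 * D * B0 = 100 * D * 5 ^ D * θ := by rw [hB0]; ring
      _ ≤ n := hS
  have hG0 : 0 < n := Fintype.card_pos
  have hXc : 0 < X.card := by
    by_contra h
    have : X.card = 0 := by omega
    rw [this] at hX
    omega
  have hD : 0 < D := by
    by_contra h
    have : D = 0 := by omega
    rw [this] at hX
    omega
  obtain ⟨x0, hx0⟩ := card_pos.1 hXc
  have hS2 : 2 * S.card ≤ n := by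
    have := TT_missing S X hSX hx0 hx0
    omega
  have hθ2 : 2 * S.card + θ = n := by omega
  have hθn : 100 * θ ≤ n := by
    have h1 : 1 ≤ D * 5 ^ D := Nat.mul_pos hD (by positivity)
    calc 100 * θ = 100 * 1 * θ := by ring
      _ ≤ 100 * (D * 5 ^ D) * θ := by gcongr
      _ = 100 * D * 5 ^ D * θ := by ring
      _ ≤ n := hS
  set HF : Finset G := univ.filter (· ∈ H) with hHF
  set m := HF.card with hm
  have hmH : Nat.card H = m := by
    rw [hm, hHF, Nat.card_eq_fintype_card, Fintype.card_subtype]
  have hmidx : m * H.index = n := by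
    have := H.card_mul_index
    rw [hmH, Nat.card_eq_fintype_card] at this
    exact this
  have hXm : X.card ≤ m := by
    apply card_le_card_of_injOn (fun x => x * x0⁻¹)
    · intro x hx
      rw [mem_coe, hHF, mem_filter]
      exact ⟨mem_univ _, hXX x hx x0 hx0⟩
    · intro x _ y _ hxy
      simpa using hxy
  have hidx : H.index ≤ D := by
    have h1 : m * H.index ≤ m * D := by
      rw [hmidx, mul_comm m D]
      exact hX.trans (Nat.mul_le_mul_left _ hXm)
    exact Nat.le_of_mul_le_mul_left h1 (by omega)
  have hidx2 := hind H hidx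
  have hidx12 : H.index = 1 ∨ H.index = 2 := (Nat.dvd_prime Nat.prime_two).1 hidx2
  rcases hidx12 with h1 | h2
  · -- index one
    exfalso
    rw [h1, mul_one] at hmidx
    have hp := part_bound H S B0 (fun h hh => hTT h hh)
    rw [← hHF, ← hm, hmidx] at hp
    have h3 : 50 * B0 ≤ n := by
      calc 50 * B0 = 50 * 1 * B0 := by ring
        _ ≤ 50 * D * B0 := by gcongr; exact hD
        _ ≤ n := hB0n
    -- `|S| (n - |S|) ≤ n ^ 2 / 50`
    zify at *
    nlinarith
  · -- index two
    refine ⟨H, h2, ?_⟩
    have hn2 : n = 2 * m := by rw [← hmidx, h2]; ring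
    have hm0 : 0 < m := by omega
    set S0 := S.filter (· ∈ H) with hS0
    set S1 := S.filter (fun s => ¬ s ∈ H) with hS1
    have hScard : S0.card + S1.card = S.card := card_filter_add_card_filter_not _
    have hTT0 : ∀ h ∈ H, TT S0 h ≤ B0 := by
      intro h hh
      refine le_trans (card_le_card ?_) (hTT h hh)
      intro z hz
      rw [mem_sdiff] at hz ⊢
      have hzS := mem_filter.1 hz.1
      refine ⟨hzS.1, fun hzh => hz.2 ?_⟩
      obtain ⟨s, hs, hsz⟩ := mem_smul_finset.1 hzh
      rw [mem_smul_finset]
      refine ⟨s, mem_filter.2 ⟨hs, ?_⟩, hsz⟩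
      rw [← hsz, smul_eq_mul, H.mul_mem_cancel_left hh] at hzS
      exact hzS.2
    have hTT1 : ∀ h ∈ H, TT S1 h ≤ B0 := by
      intro h hh
      refine le_trans (card_le_card ?_) (hTT h hh)
      intro z hz
      rw [mem_sdiff] at hz ⊢
      have hzS := mem_filter.1 hz.1
      refine ⟨hzS.1, fun hzh => hz.2 ?_⟩
      obtain ⟨s, hs, hsz⟩ := mem_smul_finset.1 hzh
      rw [mem_smul_finset]
      refine ⟨s, mem_filter.2 ⟨hs, ?_⟩, hsz⟩
      rw [← hsz, smul_eq_mul, H.mul_mem_cancel_left hh] at hzS
      exact hzS.2
    have hHFc : (univ.filter (fun g : G => ¬ g ∈ H)).card = m := by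
      have h3 : HF.card + (univ.filter (fun g : G => ¬ g ∈ H)).card = (univ : Finset G).card :=
        card_filter_add_card_filter_not _
      rw [card_univ, ← hn] at h3
      omega
    have key : ∀ Z Z' : Finset G, Z ⊆ S → Z' ⊆ S → (∀ z ∈ Z, ∀ z' ∈ Z, z * z' ∈ H) →
        (∀ z ∈ Z, ∀ z' ∈ Z', z * z' ∉ H) → (∀ h ∈ H, TT Z h ≤ B0) → 49 * m ≤ 100 * Z.card →
        Z' = ∅ := by
      intro Z Z' hZS hZ'S hc1 hc2 hc3 hc4
      have hp := part_bound H Z B0 hc3
      rw [← hHF, ← hm] at hp
      have hZm : Z.card ≤ m := by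
        have := card_le_card hZS
        omega
      have h5 : 12 * D * (m - Z.card) ≤ m := by
        have h6 : 50 * D * B0 ≤ 2 * m := by rw [← hn2]; exact hB0n
        have h6' : 50 * D * B0 = 2 * (25 * D * B0) := by ring
        have h6'' : 25 * D * B0 ≤ m := by omega
        obtain ⟨d, hd⟩ : ∃ d, m = Z.card + d := ⟨m - Z.card, by omega⟩
        have h7 : m - Z.card = d := by omega
        rw [h7]
        have h8 : Z.card * d ≤ m * B0 := by
          have : m * Z.card = Z.card ^ 2 + Z.card * d := by rw [hd]; ring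
          rw [this] at hp
          omega
        have h9 : 25 * D * (Z.card * d) ≤ m * m := by
          calc 25 * D * (Z.card * d) ≤ 25 * D * (m * B0) := by gcongr
            _ = m * (25 * D * B0) := by ring
            _ ≤ m * m := by gcongr
        -- 49 m ≤ 100 |Z|
        have h10 : 49 * m * (25 * D * d) ≤ 100 * (m * m) := by
          calc 49 * m * (25 * D * d) ≤ 100 * Z.card * (25 * D * d) := by gcongr
            _ = 100 * (25 * D * (Z.card * d)) := by ring
            _ ≤ 100 * (m * m) := by gcongr
        have h11 : 49 * (25 * D * d) ≤ 100 * m := by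
          apply Nat.le_of_mul_le_mul_left _ hm0
          calc m * (49 * (25 * D * d)) = 49 * m * (25 * D * d) := by ring
            _ ≤ 100 * (m * m) := h10
            _ = m * (100 * m) := by ring
        have h12 : 49 * (25 * D * d) = 1225 * (D * d) := by ring
        have h13 : 12 * D * d = 12 * (D * d) := by ring
        omega
      have hZ0 : 0 < Z.card := by omega
      obtain ⟨z0, hz0⟩ := card_pos.1 hZ0
      have hXH : ∀ x ∈ X, x ∉ H := by
        intro x hx hxH
        set C : Finset G := univ.filter (fun g => g * z0 ∈ H) with hC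
        have hCm : C.card = m := by
          rw [hm]
          apply card_bij (fun g _ => g * z0)
          · intro g hg
            rw [hHF, mem_filter]
            exact ⟨mem_univ _, (mem_filter.1 hg).2⟩
          · intro a _ b _ hab
            simpa using hab
          · intro b hb
            refine ⟨b * z0⁻¹, ?_, by simp⟩
            rw [hC, mem_filter]
            refine ⟨mem_univ _, ?_⟩
            rw [inv_mul_cancel_right]
            exact (mem_filter.1 hb).2
        have hZC : Z ⊆ C := by
          intro z hz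
          rw [hC, mem_filter]
          exact ⟨mem_univ _, hc1 z hz z0 hz0⟩
        have hWC : Z.image (fun z => x * z⁻¹) ⊆ C := by
          intro w hw
          obtain ⟨z, hz, rfl⟩ := mem_image.1 hw
          rw [hC, mem_filter]
          refine ⟨mem_univ _, ?_⟩
          have h6 : x * z⁻¹ * z0 = x * ((z * z)⁻¹ * (z * z0)) := by
            rw [mul_inv_rev]
            simp [mul_assoc]
          rw [h6]
          exact H.mul_mem hxH (H.mul_mem (H.inv_mem (hc1 z hz z hz)) (hc1 z hz z0 hz0))
        have hdisj : Disjoint Z (Z.image (fun z => x * z⁻¹)) := by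
          rw [disjoint_left]
          intro z hz hz'
          obtain ⟨z', hz'Z, hzz'⟩ := mem_image.1 hz'
          apply hSX x hx z (hZS hz) z' (hZS hz'Z)
          rw [← hzz', inv_mul_cancel_right]
        have h6 := card_le_card (union_subset hZC hWC)
        rw [card_union_of_disjoint hdisj, card_image_of_injective _ (by
          intro a b hab
          simpa using hab), hCm] at h6
        have h7 : 12 * (m - Z.card) ≤ m := by
          calc 12 * (m - Z.card) = 12 * 1 * (m - Z.card) := by ring
            _ ≤ 12 * D * (m - Z.card) := by gcongr; exact hD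
            _ ≤ m := h5
        omega
      by_contra hne
      obtain ⟨z', hz'⟩ := nonempty_iff_ne_empty.2 hne
      have hsub1 : Z.image (fun z => z * z') ⊆ univ.filter (fun g : G => ¬ g ∈ H) := by
        intro w hw
        obtain ⟨z, hz, rfl⟩ := mem_image.1 hw
        rw [mem_filter]
        exact ⟨mem_univ _, hc2 z hz z' hz'⟩
      have hsub2 : X ⊆ univ.filter (fun g : G => ¬ g ∈ H) := by
        intro x hx
        rw [mem_filter]
        exact ⟨mem_univ _, hXH x hx⟩
      have hdisj : Disjoint X (Z.image (fun z => z * z')) := by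
        rw [disjoint_left]
        intro x hx hx'
        obtain ⟨z, hz, hzx⟩ := mem_image.1 hx'
        exact hSX x hx z (hZS hz) z' (hZ'S hz') hzx
      have h6 := card_le_card (union_subset hsub2 hsub1)
      rw [card_union_of_disjoint hdisj, card_image_of_injective _ (mul_left_injective z'),
        hHFc] at h6
      have h7 : X.card ≤ m - Z.card := by omega
      have h8 : 12 * (D * X.card) ≤ m := by
        calc 12 * (D * X.card) = 12 * D * X.card := by ring
          _ ≤ 12 * D * (m - Z.card) := by gcongr
          _ ≤ m := h5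
      omega
    have hbig : 49 * m ≤ 100 * S0.card ∨ 49 * m ≤ 100 * S1.card := by omega
    rcases hbig with hb | hb
    · have hemp := key S0 S1 (filter_subset _ _) (filter_subset _ _)
        (fun z hz z' hz' => H.mul_mem (mem_filter.1 hz).2 (mem_filter.1 hz').2)
        (fun z hz z' hz' hzz => (mem_filter.1 hz').2
          ((H.mul_mem_cancel_left (mem_filter.1 hz).2).1 hzz)) hTT0 hb
      intro s hs t ht
      have hall : ∀ s ∈ S, s ∈ H := by
        intro s hs
        by_contra hsH
        have : s ∈ S1 := mem_filter.2 ⟨hs, hsH⟩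
        rw [hemp] at this
        simp at this
      exact H.mul_mem (hall s hs) (hall t ht)
    · have hemp := key S1 S0 (filter_subset _ _) (filter_subset _ _)
        (fun z hz z' hz' => (Subgroup.mul_mem_iff_of_index_two h2).2
          (iff_of_false (mem_filter.1 hz).2 (mem_filter.1 hz').2))
        (fun z hz z' hz' hzz => (mem_filter.1 hz).2
          ((H.mul_mem_cancel_right (mem_filter.1 hz').2).1 hzz)) hTT1 hb
      intro s hs t ht
      have hall : ∀ s ∈ S, s ∉ H := by
        intro s hs hsH
        have : s ∈ S0 := mem_filter.2 ⟨hs, hsH⟩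
        rw [hemp] at this
        simp at this
      exact (Subgroup.mul_mem_iff_of_index_two h2).2 (iff_of_false (hall s hs) (hall t ht))

end

end Pool.Agent.Helper27.IS
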