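import Pool.Agent.Helper27.IS.ClassJ
import Pool.Agent.Helper27.IS.Loc

/-!
# The local lemma at a prime
-/

set_option autoImplicit false

namespace Pool.Agent.Helper27.IS

open Finset
open scoped NumberTheorySymbols

/-- The products of two numbers `α a + β`, `a ∈ A`, modulo `p`. -/
def prodClasses (A : Set ℕ) (α β : ℤ) (p : ℕ) : Set (ZMod p) :=
  {x | ∃ a ∈ A, ∃ b ∈ A, x = (((α * (a : ℤ) + β) * (α * (b : ℤ) + β) : ℤ) : ZMod p)}

open scoped Classical in
theorem local_prime (A : Set ℕ) (α β : ℤ) (p : ℕ) (hp : p.Prime) (hα : ¬ (p : ℤ) ∣ α) (D : ℕ)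
    (hpD : 4 * D.factorial ∣ p + 1)
    (hW : p - 1 ≤ D * (p - 1 - (prodClasses A α β p).ncard))
    (a a' : ℕ) (ha : a ∈ A) (ha' : a' ∈ A)
    (hJ : J((α * (a : ℤ) + β) * (α * (a' : ℤ) + β) | p) = -1) :
    ∃ k : ℕ, ((fun a : ℕ => (a : ZMod p)) '' A).ncard ≤ k + 1 ∧
      p - 1 < 100 * D * 5 ^ D * (p - 1 - 2 * k) := by
  have hpF : Fact p.Prime := ⟨hp⟩
  have hp0 : 0 < p := hp.pos
  have hcard : Fintype.card (ZMod p)ˣ = p - 1 := ZMod.card_units p
  have hpodd : p % 4 = 3 := by
    have h1 : 4 ∣ p + 1 := (Dvd.intro _ rfl).trans hpD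
    omega
  set S : Finset (ZMod p)ˣ := univ.filter (fun g => ∃ a ∈ A, (g : ZMod p) = ((α * (a : ℤ) + β : ℤ) : ZMod p)) with hS
  set W := prodClasses A α β p with hWdef
  set X : Finset (ZMod p)ˣ := univ.filter (fun g => (g : ZMod p) ∉ W) with hX
  have hSX : ∀ x ∈ X, ∀ s ∈ S, ∀ t ∈ S, s * t ≠ x := by
    intro x hx s hs t ht hst
    apply (mem_filter.1 hx).2
    obtain ⟨a, ha, has⟩ := (mem_filter.1 hs).2
    obtain ⟨b, hb, hbt⟩ := (mem_filter.1 ht).2
    refine ⟨a, ha, b, hb, ?_⟩
    rw [← hst, Units.val_mul, has, hbt, ← Int.cast_mul]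
  have hXc : Fintype.card (ZMod p)ˣ ≤ D * X.card := by
    rw [hcard]
    refine hW.trans (Nat.mul_le_mul_left _ ?_)
    have h1 : X.card + (univ.filter (fun g : (ZMod p)ˣ => ¬ (g : ZMod p) ∉ W)).card = p - 1 := by
      rw [hX, card_filter_add_card_filter_not, card_univ, hcard]
    have h2 : (univ.filter (fun g : (ZMod p)ˣ => ¬ (g : ZMod p) ∉ W)).card ≤ W.ncard := by
      have h3 : ((univ.filter (fun g : (ZMod p)ˣ => ¬ (g : ZMod p) ∉ W)).image (fun g : (ZMod p)ˣ => (g : ZMod p))).card =
          (univ.filter (fun g : (ZMod p)ˣ => ¬ (g : ZMod p) ∉ W)).card := by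
        apply card_image_of_injective
        exact Units.val_injective
      rw [← h3, ← Set.ncard_coe_finset]
      apply Set.ncard_le_ncard _ (Set.toFinite _)
      intro x hx
      rw [mem_coe, mem_image] at hx
      obtain ⟨g, hg, rfl⟩ := hx
      exact not_not.1 (mem_filter.1 hg).2
    omega
  have hind : ∀ H : Subgroup (ZMod p)ˣ, H.index ≤ D → H.index ∣ 2 := by
    intro H hHD
    have h1 : H.index ∣ p - 1 := by
      have := H.index_dvd_card
      rwa [Nat.card_eq_fintype_card, hcard] at this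
    have h0 : 0 < H.index := Nat.pos_of_ne_zero Subgroup.index_ne_zero_of_finite
    have h2 : H.index ∣ p + 1 := by
      have h3 : H.index ∣ D.factorial := Nat.dvd_factorial h0 hHD
      exact (h3.mul_left 4).trans hpD
    have h3 := Nat.dvd_sub h2 h1
    have h4 : p + 1 - (p - 1) = 2 := by omega
    rwa [h4] at h3
  refine ⟨S.card, ?_, ?_⟩
  · set T : Finset (ZMod p) := univ.filter (fun x => x ∈ (fun a : ℕ => (a : ZMod p)) '' A) with hT
    have hTcard : T.card = ((fun a : ℕ => (a : ZMod p)) '' A).ncard := by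
      rw [Set.ncard_eq_toFinset_card']
      congr 1
      ext x
      simp [hT]
    have hα0 : ((α : ℤ) : ZMod p) ≠ 0 := by
      intro h
      exact hα ((ZMod.intCast_zmod_eq_zero_iff_dvd α p).1 h)
    have hinj : Function.Injective (fun x : ZMod p => (α : ZMod p) * x + (β : ZMod p)) := by
      intro x y hxy
      simp only [add_left_inj] at hxy
      exact mul_left_cancel₀ hα0 hxy
    rw [← hTcard, ← card_image_of_injective T hinj]
    have hsub : T.image (fun x : ZMod p => (α : ZMod p) * x + (β : ZMod p)) ⊆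
        insert 0 (S.image (fun g : (ZMod p)ˣ => (g : ZMod p))) := by
      intro y hy
      obtain ⟨x, hx, rfl⟩ := mem_image.1 hy
      obtain ⟨a, haA, rfl⟩ := (mem_filter.1 hx).2
      rw [mem_insert]
      by_cases h0 : (α : ZMod p) * (a : ZMod p) + (β : ZMod p) = 0
      · left; exact h0
      · right
        rw [mem_image]
        refine ⟨Units.mk0 _ h0, ?_, rfl⟩
        rw [hS, mem_filter]
        refine ⟨mem_univ _, a, haA, ?_⟩
        rw [Units.val_mk0]
        push_cast
        rfl
    calc _ ≤ _ := card_le_card hsub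
      _ ≤ _ := card_insert_le _ _
      _ ≤ _ := by
        gcongr
        exact card_image_le
  · by_contra hcon
    push Not at hcon
    rw [← hcard] at hcon
    obtain ⟨H, hH2, hHS⟩ := local_half S X D hXc hSX hind hcon
    -- the product is a square
    have hns := ZMod.nonsquare_of_jacobiSym_eq_neg_one hJ
    apply hns
    have hu0 : (((α * (a : ℤ) + β : ℤ)) : ZMod p) ≠ 0 := by
      intro h
      apply hns
      rw [Int.cast_mul, h, zero_mul]
      exact ⟨0, by simp⟩
    have hu0' : (((α * (a' : ℤ) + β : ℤ)) : ZMod p) ≠ 0 := by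
      intro h
      apply hns
      rw [Int.cast_mul, h, mul_zero]
      exact ⟨0, by simp⟩
    set g : (ZMod p)ˣ := Units.mk0 _ hu0 with hg
    set g' : (ZMod p)ˣ := Units.mk0 _ hu0' with hg'
    have hgS : g ∈ S := by
      rw [hS, mem_filter]
      exact ⟨mem_univ _, a, ha, by rw [hg, Units.val_mk0]⟩
    have hgS' : g' ∈ S := by
      rw [hS, mem_filter]
      exact ⟨mem_univ _, a', ha', by rw [hg', Units.val_mk0]⟩
    have hmem := hHS g hgS g' hgS'
    have hcardH : Nat.card H = p / 2 := by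
      have h1 := H.card_mul_index
      rw [hH2, Nat.card_eq_fintype_card (α := (ZMod p)ˣ), hcard] at h1
      omega
    have hpow : (g * g') ^ (p / 2) = 1 := by
      have h1 : (⟨g * g', hmem⟩ : H) ^ (Nat.card H) = 1 := pow_card_eq_one'
      rw [hcardH] at h1
      have h2 := congrArg (Subtype.val) h1
      simpa using h2
    have hpow' : (((g * g' : (ZMod p)ˣ)) : ZMod p) ^ (p / 2) = 1 := by
      rw [← Units.val_pow_eq_pow_val, hpow, Units.val_one]
    have hsq := (ZMod.euler_criterion p (Units.ne_zero (g * g'))).2 hpow'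
    rw [Units.val_mul, hg, hg', Units.val_mk0, Units.val_mk0, ← Int.cast_mul] at hsq
    exact hsq

end Pool.Agent.Helper27.IS
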