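import Pool.Agent.Helper27.IS.Jac

/-!
# Missed residue classes
-/

set_option autoImplicit false

namespace Pool.Agent.Helper27.IS

open Finset
open scoped NumberTheorySymbols

/-- The number of `f ∈ F` for which `α f + β` is a non-residue modulo `p`. -/
def tt (α β : ℤ) (F : Finset ℕ) (p : ℕ) : ℕ := (F.filter (fun f : ℕ => J(α * f + β | p) = -1)).card

open scoped Classical in
/-- Many residue classes modulo `p` contain no `m` with `m ^ 2 = α a + β` for some `a ∈ A`. -/
theorem exists_missed (A : Set ℕ) (α β : ℤ) (F : Finset ℕ) (hF : ∀ f ∈ F, f ∈ A) (L p : ℕ)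
    (hp : p.Prime) (hα : ¬ (p : ℤ) ∣ α) (hFp : ∀ f ∈ F, f < p)
    (hA : 2 * ((fun a : ℕ => (a : ZMod p)) '' A).ncard ≤ p + L) :
    ∃ Ω : Finset ℕ, Ω ⊆ range p ∧ Ω.card = 2 * tt α β F p - L ∧
      ∀ m : ℕ, (∃ a ∈ A, (m : ℤ) ^ 2 = α * a + β) → m % p ∉ Ω := by
  have hpF : Fact p.Prime := ⟨hp⟩
  have hp0 : 0 < p := hp.pos
  set bad := (range p).filter (fun r => ∀ m : ℕ, (∃ a ∈ A, (m : ℤ) ^ 2 = α * a + β) → m % p ≠ r) with hbad
  set good := (range p).filter (fun r => ¬ ∀ m : ℕ, (∃ a ∈ A, (m : ℤ) ^ 2 = α * a + β) → m % p ≠ r) with hgood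
  have hsum : bad.card + good.card = p := by
    rw [hbad, hgood, card_filter_add_card_filter_not, card_range]
  -- the classes occupied by `A`
  set T : Finset (ZMod p) := univ.filter (fun x => x ∈ (fun a : ℕ => (a : ZMod p)) '' A) with hT
  have hTcard : T.card = ((fun a : ℕ => (a : ZMod p)) '' A).ncard := by
    rw [Set.ncard_eq_toFinset_card']
    congr 1
    ext x
    simp [hT]
  set T' : Finset (ZMod p) := T.image (fun x => (α : ZMod p) * x + (β : ZMod p)) with hT'
  have hT'card : T'.card ≤ T.card := card_image_le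
  set sq : ℕ → ZMod p := fun r => (r : ZMod p) ^ 2 with hsq
  set N : Finset (ZMod p) := (F.filter (fun f : ℕ => J(α * f + β | p) = -1)).image
    (fun f : ℕ => (((α * f + β : ℤ)) : ZMod p)) with hN
  have hNcard : N.card = tt α β F p := by
    rw [hN, card_image_of_injOn]
    · rfl
    · intro f hf f' hf' hff
      have hf1 := hFp f (mem_filter.1 hf).1
      have hf2 := hFp f' (mem_filter.1 hf').1
      simp only at hff
      rw [ZMod.intCast_eq_intCast_iff_dvd_sub] at hff
      have h1 : (p : ℤ) ∣ α * ((f' : ℤ) - f) := by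
        have : α * ((f' : ℤ) - f) = α * f' + β - (α * f + β) := by ring
        rw [this]
        exact hff
      have h2 := (Int.prime_iff_natAbs_prime.2 (by simpa using hp) : Prime (p : ℤ)).dvd_or_dvd h1
      rcases h2 with h2 | h2
      · exact absurd h2 hα
      · have h3 : (f' : ℤ) - f = 0 := by
          apply Int.eq_zero_of_abs_lt_dvd h2
          rw [abs_lt]
          constructor <;> omega
        omega
  have hNsub : N ⊆ T' := by
    intro x hx
    obtain ⟨f, hf, rfl⟩ := mem_image.1 hx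
    rw [hT', mem_image]
    refine ⟨(f : ZMod p), ?_, by push_cast; ring⟩
    rw [hT, mem_filter]
    exact ⟨mem_univ _, f, hF f (mem_filter.1 hf).1, rfl⟩
  have hNns : ∀ x ∈ N, ¬ IsSquare x := by
    intro x hx
    obtain ⟨f, hf, rfl⟩ := mem_image.1 hx
    exact ZMod.nonsquare_of_jacobiSym_eq_neg_one (mem_filter.1 hf).2
  have hgsub : good.image sq ⊆ T' := by
    intro x hx
    obtain ⟨r, hr, rfl⟩ := mem_image.1 hx
    have hr2 := (mem_filter.1 hr).2
    push Not at hr2
    obtain ⟨m, ⟨a, haA, ha⟩, hm⟩ := hr2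
    rw [hT', mem_image]
    refine ⟨(a : ZMod p), ?_, ?_⟩
    · rw [hT, mem_filter]
      exact ⟨mem_univ _, a, haA, rfl⟩
    · simp only [hsq]
      have h1 : (r : ZMod p) = (m : ZMod p) := by
        rw [← hm, ZMod.natCast_mod]
      rw [h1]
      have h2 : (((m : ℤ) ^ 2 : ℤ) : ZMod p) = ((α * a + β : ℤ) : ZMod p) := by rw [ha]
      push_cast at h2
      exact h2.symm
  have hgsq : ∀ x ∈ good.image sq, IsSquare x := by
    intro x hx
    obtain ⟨r, hr, rfl⟩ := mem_image.1 hx
    exact ⟨(r : ZMod p), by simp only [hsq]; ring⟩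
  have hdisj : Disjoint (good.image sq) N := by
    rw [disjoint_left]
    intro x hx hx'
    exact hNns x hx' (hgsq x hx)
  have h1 : (good.image sq).card + tt α β F p ≤ T.card := by
    rw [← hNcard, ← card_union_of_disjoint hdisj]
    exact (card_le_card (union_subset hgsub hNsub)).trans hT'card
  have h2 : good.card ≤ 2 * (good.image sq).card := by
    apply card_le_mul_card_image
    intro x hx
    obtain ⟨r0, hr0, hr0x⟩ := mem_image.1 hx
    have hr0p : r0 < p := mem_range.1 (mem_filter.1 hr0).1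
    have hsub : (good.filter (fun r => sq r = x)) ⊆ {r0, (p - r0) % p} := by
      intro r hr
      obtain ⟨hr1, hr2⟩ := mem_filter.1 hr
      have hrp : r < p := mem_range.1 (mem_filter.1 hr1).1
      rw [← hr0x] at hr2
      simp only [hsq] at hr2
      rw [sq_eq_sq_iff_eq_or_eq_neg] at hr2
      rw [mem_insert, mem_singleton]
      rcases hr2 with h | h
      · left
        rw [ZMod.natCast_eq_natCast_iff'] at h
        rwa [Nat.mod_eq_of_lt hrp, Nat.mod_eq_of_lt hr0p] at h
      · right
        have h3 : (r : ZMod p) = ((p - r0 : ℕ) : ZMod p) := by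
          rw [h, Nat.cast_sub hr0p.le]
          simp
        rw [ZMod.natCast_eq_natCast_iff', Nat.mod_eq_of_lt hrp] at h3
        exact h3
    exact (card_le_card hsub).trans card_le_two
  have h3 : 2 * tt α β F p - L ≤ bad.card := by omega
  obtain ⟨Ω, hΩ, hΩc⟩ := exists_subset_card_eq h3
  refine ⟨Ω, hΩ.trans (filter_subset _ _), hΩc, ?_⟩
  intro m hm hmΩ
  exact (mem_filter.1 (hΩ hmΩ)).2 m hm rfl

end Pool.Agent.Helper27.IS
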